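import Mathlib

/-!
MP_c95b3b_ag, project KP, module KC (helper30): counting lattice points near a subspace.
-/

namespace Pool.Agent.KP

open Module

namespace Count

/-- A subspace of dimension at least `y` has `y` coordinates with a dual system of vectors. -/
lemma exists_dual {ι : Type} [Fintype ι] [DecidableEq ι] (W : Submodule ℝ (ι → ℝ)) :
    ∀ y : ℕ, y ≤ finrank ℝ W → ∃ (S : Finset ι) (b : ι → ι → ℝ), S.card = y ∧
      ∀ i ∈ S, b i ∈ W ∧ ∀ j ∈ S, b i j = if i = j then 1 else 0 := by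
  intro y
  induction y with
  | zero =>
    intro _
    exact ⟨∅, fun _ _ => 0, by simp, by simp⟩
  | succ y ih =>
    intro hy
    obtain ⟨S, b, hS, hb⟩ := ih (by omega)
    let f : W →ₗ[ℝ] (S → ℝ) :=
      LinearMap.pi fun j : S => (LinearMap.proj (j : ι)).comp W.subtype
    have hlt : finrank ℝ (S → ℝ) < finrank ℝ W := by
      rw [Module.finrank_fintype_fun_eq_card, Fintype.card_coe, hS]
      omega
    have hker : LinearMap.ker f ≠ ⊥ := LinearMap.ker_ne_bot_of_finrank_lt hlt
    obtain ⟨w, hw, hw0⟩ := (Submodule.ne_bot_iff _).1 hker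
    have hwS : ∀ j ∈ S, (w : ι → ℝ) j = 0 := by
      intro j hj
      have h1 : f w = 0 := hw
      have h2 := congrFun h1 ⟨j, hj⟩
      simpa [f] using h2
    have hw0' : (w : ι → ℝ) ≠ 0 := fun h => hw0 (Subtype.ext h)
    obtain ⟨i, hi⟩ : ∃ i, (w : ι → ℝ) i ≠ 0 := by
      by_contra hcon
      push Not at hcon
      exact hw0' (funext hcon)
    have hiS : i ∉ S := fun h => hi (hwS i h)
    let v : ι → ℝ := ((w : ι → ℝ) i)⁻¹ • (w : ι → ℝ)
    have hvW : v ∈ W := W.smul_mem _ w.2
    have hvi : v i = 1 := by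
      simp only [v, Pi.smul_apply, smul_eq_mul]
      exact inv_mul_cancel₀ hi
    have hvS : ∀ j ∈ S, v j = 0 := by
      intro j hj
      simp only [v, Pi.smul_apply, smul_eq_mul, hwS j hj, mul_zero]
    refine ⟨insert i S, fun k => if k = i then v else b k - b k i • v, ?_, ?_⟩
    · rw [Finset.card_insert_of_notMem hiS, hS]
    · intro k hk
      by_cases hki : k = i
      · subst hki
        simp only [if_true]
        refine ⟨hvW, fun j hj => ?_⟩
        rcases Finset.mem_insert.1 hj with h | h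
        · subst h
          simp [hvi]
        · have : k ≠ j := fun h' => hiS (h' ▸ h)
          rw [if_neg this, hvS j h]
      · have hkS : k ∈ S := (Finset.mem_insert.1 hk).resolve_left hki
        simp only [if_neg hki]
        refine ⟨W.sub_mem (hb k hkS).1 (W.smul_mem _ hvW), fun j hj => ?_⟩
        rcases Finset.mem_insert.1 hj with h | h
        · subst h
          rw [if_neg hki]
          simp [hvi]
        · simp only [Pi.sub_apply, Pi.smul_apply, smul_eq_mul, hvS j h, mul_zero, sub_zero]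
          exact (hb k hkS).2 j h

/-- Number of integers of an interval. -/
lemma card_near (d : ℕ) (a : Fin (d + 1)) (R : ℝ) :
    ((Finset.univ : Finset (Fin (d + 1))).filter fun k : Fin (d + 1) =>
      |((k : ℕ) : ℝ) - ((a : ℕ) : ℝ)| ≤ R).card ≤ 2 * ⌊R⌋₊ + 1 := by
  have h : (((Finset.univ : Finset (Fin (d + 1))).filter fun k : Fin (d + 1) =>
      |((k : ℕ) : ℝ) - ((a : ℕ) : ℝ)| ≤ R).card) ≤
        (Finset.Icc ((a : ℕ) - ⌊R⌋₊) ((a : ℕ) + ⌊R⌋₊)).card := by
    refine Finset.card_le_card_of_injOn (fun k : Fin (d + 1) => (k : ℕ)) ?_ ?_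
    · intro k hk
      have hk' := (Finset.mem_filter.1 hk).2
      rw [Finset.coe_Icc, Set.mem_Icc]
      rw [abs_le] at hk'
      have h0 : 0 ≤ R := by linarith
      rcases le_total (k : ℕ) (a : ℕ) with hle | hle
      · have h1 : (((a : ℕ) - (k : ℕ) : ℕ) : ℝ) ≤ R := by
          push_cast [Nat.cast_sub hle]
          linarith
        have h2 := Nat.le_floor h1
        constructor <;> simp only <;> omega
      · have h1 : (((k : ℕ) - (a : ℕ) : ℕ) : ℝ) ≤ R := by
          push_cast [Nat.cast_sub hle]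
          linarith
        have h2 := Nat.le_floor h1
        constructor <;> simp only <;> omega
    · intro x _ y _ hxy
      exact Fin.ext hxy
  refine h.trans ?_
  rw [Nat.card_Icc]
  omega

end Count

open Classical in
theorem count {ι : Type} [Fintype ι] (W : Submodule ℝ (ι → ℝ)) (y : ℕ) (hy : y ≤ finrank ℝ W) :
    ∃ C : ℝ, 0 < C ∧ ∀ (d : ℕ) (T : ℝ) (s : ι → ℝ), 1 ≤ T →
      ((((Finset.univ : Finset (ι → Fin (d + 1))).filter fun α =>
        ∀ w ∈ W, |∑ i, (((α i : ℕ) : ℝ) - s i) * w i| ≤ T * ‖w‖).card : ℕ) : ℝ) ≤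
          C * T ^ y * ((d : ℝ) + 1) ^ (Fintype.card ι - y) := by
  obtain ⟨S, b, hS, hb⟩ := Count.exists_dual W y hy
  obtain ⟨M, hM0, hM⟩ : ∃ M : ℝ, 0 ≤ M ∧ ∀ i ∈ S, ‖b i‖ ≤ M := by
    refine ⟨∑ i ∈ S, ‖b i‖, Finset.sum_nonneg fun _ _ => norm_nonneg _, fun i hi => ?_⟩
    exact Finset.single_le_sum (f := fun i => ‖b i‖) (fun _ _ => norm_nonneg _) hi
  refine ⟨(4 * M + 1) ^ y, by positivity, fun d T s hT => ?_⟩
  set A := (Finset.univ : Finset (ι → Fin (d + 1))).filter fun α =>
        ∀ w ∈ W, |∑ i, (((α i : ℕ) : ℝ) - s i) * w i| ≤ T * ‖w‖ with hA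
  set R : ℝ := 2 * M * T with hR
  have hR0 : 0 ≤ R := by positivity
  let φ : (ι → Fin (d + 1)) → ({i : ι // i ∉ S} → Fin (d + 1)) := fun α i => α i
  -- two elements with the same restriction are close
  have hclose : ∀ α ∈ A, ∀ α' ∈ A, φ α = φ α' → ∀ i ∈ S,
      |((α i : ℕ) : ℝ) - ((α' i : ℕ) : ℝ)| ≤ R := by
    intro α hα α' hα' heq i hi
    have h1 := (Finset.mem_filter.1 hα).2 (b i) (hb i hi).1
    have h2 := (Finset.mem_filter.1 hα').2 (b i) (hb i hi).1
    have h3 : ((α i : ℕ) : ℝ) - ((α' i : ℕ) : ℝ) =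
        (∑ j, (((α j : ℕ) : ℝ) - s j) * b i j) - ∑ j, (((α' j : ℕ) : ℝ) - s j) * b i j := by
      rw [← Finset.sum_sub_distrib, Finset.sum_eq_single i]
      · rw [(hb i hi).2 i hi, if_pos rfl]
        ring
      · intro j _ hji
        by_cases hj : j ∈ S
        · rw [(hb i hi).2 j hj, if_neg (Ne.symm hji)]
          ring
        · have : α j = α' j := congrFun heq ⟨j, hj⟩
          rw [this]
          ring
      · intro h
        exact absurd (Finset.mem_univ i) h
    rw [h3]
    have h4 : T * ‖b i‖ ≤ T * M := mul_le_mul_of_nonneg_left (hM i hi) (by linarith)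
    have h5 := abs_sub (∑ j, (((α j : ℕ) : ℝ) - s j) * b i j) (∑ j, (((α' j : ℕ) : ℝ) - s j) * b i j)
    rw [hR]
    linarith
  have hfib : ∀ c ∈ A.image φ, (A.filter fun α => φ α = c).card ≤ (2 * ⌊R⌋₊ + 1) ^ y := by
    intro c hc
    obtain ⟨α₀, hα₀, rfl⟩ := Finset.mem_image.1 hc
    have hle : (A.filter fun α => φ α = φ α₀).card ≤
        (Fintype.piFinset fun i : S => (Finset.univ : Finset (Fin (d + 1))).filter
          fun k : Fin (d + 1) => |((k : ℕ) : ℝ) - ((α₀ i : ℕ) : ℝ)| ≤ R).card := by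
      refine Finset.card_le_card_of_injOn
        (fun (α : ι → Fin (d + 1)) => (fun i : S => (α i : Fin (d + 1)))) ?_ ?_
      · intro α hα
        have hα' := Finset.mem_filter.1 hα
        rw [Finset.mem_coe, Fintype.mem_piFinset]
        intro i
        rw [Finset.mem_filter]
        exact ⟨Finset.mem_univ _, hclose α hα'.1 α₀ hα₀ hα'.2 i i.2⟩
      · intro α hα β hβ hαβ
        have hα' := Finset.mem_filter.1 hα
        have hβ' := Finset.mem_filter.1 hβ
        funext i
        by_cases hi : i ∈ S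
        · exact congrFun hαβ ⟨i, hi⟩
        · exact congrFun (hα'.2.trans hβ'.2.symm) ⟨i, hi⟩
    refine hle.trans ?_
    rw [Fintype.card_piFinset]
    calc ∏ i : S, ((Finset.univ : Finset (Fin (d + 1))).filter fun k : Fin (d + 1) =>
          |((k : ℕ) : ℝ) - ((α₀ i : ℕ) : ℝ)| ≤ R).card
        ≤ ∏ _i : S, (2 * ⌊R⌋₊ + 1) := Finset.prod_le_prod' fun i _ => Count.card_near d (α₀ i) R
      _ = (2 * ⌊R⌋₊ + 1) ^ y := by
        rw [Finset.prod_const, Finset.card_univ, Fintype.card_coe, hS]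
  have hmain := Finset.card_le_mul_card_image A ((2 * ⌊R⌋₊ + 1) ^ y) hfib
  have himg : (A.image φ).card ≤ (d + 1) ^ (Fintype.card ι - y) := by
    refine (Finset.card_le_univ _).trans ?_
    rw [Fintype.card_fun, Fintype.card_fin]
    have : Fintype.card {i : ι // i ∉ S} = Fintype.card ι - y := by
      rw [Fintype.card_subtype_compl]
      simp [hS]
    rw [this]
  have hfinal : A.card ≤ (2 * ⌊R⌋₊ + 1) ^ y * (d + 1) ^ (Fintype.card ι - y) :=
    hmain.trans (Nat.mul_le_mul_left _ himg)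
  have hfinal' : (A.card : ℝ) ≤ (2 * (⌊R⌋₊ : ℝ) + 1) ^ y * ((d : ℝ) + 1) ^ (Fintype.card ι - y) := by
    exact_mod_cast hfinal
  refine hfinal'.trans ?_
  refine mul_le_mul_of_nonneg_right ?_ (by positivity)
  rw [← mul_pow]
  refine pow_le_pow_left₀ (by positivity) ?_ y
  have h1 : (⌊R⌋₊ : ℝ) ≤ R := Nat.floor_le hR0
  rw [hR] at h1
  nlinarith [mul_nonneg hM0 (by linarith : (0 : ℝ) ≤ T)]

end Pool.Agent.KP
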