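import Pool.Agent.Lib.MP_c95b3b_ag_KP.Defs

/-! Project KP (MP_c95b3b_ag), module KB: many characters. -/

namespace Pool.Agent.KP

open Pool.Agent.L3 Module

namespace Chars

/-- generators of the kernels of the keys -/
def un : Fin 3 → ℤ × ℤ := ![(0, 1), (1, 0), (1, -1)]

/-- section of the key -/
def sec (j : Fin 3) (b : ℤ) : ℤ × ℤ := ![(b, 0), (0, b), (-b, 0)] j

theorem key_un (j : Fin 3) : key j (un j) = 0 := by
  fin_cases j <;> simp [key, un]

theorem key_sec (j : Fin 3) (b : ℤ) : key j (sec j b) = b := by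
  fin_cases j <;> simp [key, sec]

theorem key_add (j : Fin 3) (a b : ℤ × ℤ) : key j (a + b) = key j a + key j b := by
  fin_cases j <;> simp [key]
  ring

theorem key_sub (j : Fin 3) (a b : ℤ × ℤ) : key j (a - b) = key j a - key j b := by
  fin_cases j <;> simp [key]
  ring

theorem key_smul (j : Fin 3) (z : ℤ) (a : ℤ × ℤ) : key j (z • a) = z * key j a := by
  fin_cases j <;> simp [key]
  ring

theorem abs_sec (j : Fin 3) (b : ℤ) : |(sec j b).1| ≤ |b| ∧ |(sec j b).2| ≤ |b| := by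
  fin_cases j <;> simp [sec]

theorem abs_un (j : Fin 3) : |(un j).1| ≤ 1 ∧ |(un j).2| ≤ 1 := by
  fin_cases j <;> simp [un]

variable {ι : Type} [Fintype ι]

theorem pair_sub_left (a b : ι → ℤ × ℤ) (v : ι → ℝ × ℝ) :
    pair (a - b) v = pair a v - pair b v := by
  unfold pair
  rw [← Finset.sum_sub_distrib]
  refine Finset.sum_congr rfl fun i _ => ?_
  simp
  ring

/-- the functionals with kernel the lines of the rays -/
noncomputable def tm (ρ : ι → Fin 3) : (ι → ℝ × ℝ) →ₗ[ℝ] (ι → ℝ) where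
  toFun v i := ((un (ρ i)).1 : ℝ) * (v i).1 + ((un (ρ i)).2 : ℝ) * (v i).2
  map_add' v w := by
    funext i
    simp
    ring
  map_smul' c v := by
    funext i
    simp
    ring

omit [Fintype ι] in
theorem tm_apply (ρ : ι → Fin 3) (v : ι → ℝ × ℝ) (i : ι) :
    tm ρ v i = ((un (ρ i)).1 : ℝ) * (v i).1 + ((un (ρ i)).2 : ℝ) * (v i).2 := rfl

theorem un_ker (j : Fin 3) (v : ℝ × ℝ) (h : ((un j).1 : ℝ) * v.1 + ((un j).2 : ℝ) * v.2 = 0) :
    ∃ l : ℝ, v = l • ray j := by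
  fin_cases j
  · refine ⟨-v.1, ?_⟩
    have h2 : v.2 = 0 := by simpa [un] using h
    ext <;> simp [ray, h2]
  · refine ⟨-v.2, ?_⟩
    have h2 : v.1 = 0 := by simpa [un] using h
    ext <;> simp [ray, h2]
  · refine ⟨v.1, ?_⟩
    have h2 : v.1 - v.2 = 0 := by
      have := h
      simp [un] at this
      linarith
    ext
    · simp [ray]
    · simp [ray]
      linarith

theorem mem_cel_of_tm {ρ : ι → Fin 3} {v : ι → ℝ × ℝ} (h : tm ρ v = 0) :
    v ∈ cel Finset.univ ρ := by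
  have h1 : ∀ i, ∃ l : ℝ, v i = l • ray (ρ i) := fun i =>
    un_ker (ρ i) (v i) (by rw [← tm_apply, h]; rfl)
  choose l hl using h1
  refine mem_cel.2 ⟨l, fun i hi => absurd (Finset.mem_univ i) hi, ?_⟩
  funext i
  rw [hl i, vec_apply]

theorem abs_tm_le (ρ : ι → Fin 3) (v : ι → ℝ × ℝ) (i : ι) : |tm ρ v i| ≤ 2 * ‖v‖ := by
  rw [tm_apply]
  have h1 : |((un (ρ i)).1 : ℝ)| ≤ 1 := by exact_mod_cast (abs_un (ρ i)).1
  have h2 : |((un (ρ i)).2 : ℝ)| ≤ 1 := by exact_mod_cast (abs_un (ρ i)).2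
  have h3 : |(v i).1| ≤ ‖v‖ := (norm_fst_le (v i)).trans (norm_le_pi_norm v i)
  have h4 : |(v i).2| ≤ ‖v‖ := (norm_snd_le (v i)).trans (norm_le_pi_norm v i)
  calc |((un (ρ i)).1 : ℝ) * (v i).1 + ((un (ρ i)).2 : ℝ) * (v i).2|
      ≤ |((un (ρ i)).1 : ℝ)| * |(v i).1| + |((un (ρ i)).2 : ℝ)| * |(v i).2| := by
        rw [← abs_mul, ← abs_mul]
        exact abs_add_le _ _
    _ ≤ 1 * ‖v‖ + 1 * ‖v‖ := by
        gcongr
    _ = 2 * ‖v‖ := by ring

/-- the exponents with key `β` and coefficients `z` along the kernels -/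
def ex (ρ : ι → Fin 3) (β : ι → ℕ) (z : ι → ℤ) : ι → ℤ × ℤ :=
  fun i => sec (ρ i) (β i) + z i • un (ρ i)

omit [Fintype ι] in
theorem key_ex (ρ : ι → Fin 3) (β : ι → ℕ) (z : ι → ℤ) (i : ι) : key (ρ i) (ex ρ β z i) = β i := by
  rw [ex, key_add, key_smul, key_un, key_sec, mul_zero, add_zero]

theorem pair_ex (ρ : ι → Fin 3) (β : ι → ℕ) (z : ι → ℤ) (v : ι → ℝ × ℝ) :
    pair (ex ρ β z) v = pair (fun i => sec (ρ i) (β i)) v + ∑ i, (z i : ℝ) * tm ρ v i := by
  unfold pair ex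
  rw [← Finset.sum_add_distrib]
  refine Finset.sum_congr rfl fun i _ => ?_
  rw [tm_apply]
  simp
  ring

omit [Fintype ι] in
theorem abs_ex (ρ : ι → Fin 3) (β : ι → ℕ) (z : ι → ℤ) (i : ι) :
    |(ex ρ β z i).1| ≤ β i + |z i| ∧ |(ex ρ β z i).2| ≤ β i + |z i| := by
  have h1 := abs_sec (ρ i) (β i)
  have h2 := abs_un (ρ i)
  simp only [Nat.abs_cast] at h1
  constructor
  · rw [ex, Prod.fst_add, Prod.smul_fst, smul_eq_mul]
    refine (abs_add_le _ _).trans (add_le_add h1.1 ?_)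
    rw [abs_mul]
    exact mul_le_of_le_one_right (abs_nonneg _) h2.1
  · rw [ex, Prod.snd_add, Prod.smul_snd, smul_eq_mul]
    refine (abs_add_le _ _).trans (add_le_add h1.2 ?_)
    rw [abs_mul]
    exact mul_le_of_le_one_right (abs_nonneg _) h2.2

/-- the pairing as a linear map -/
noncomputable def pairL (a : ι → ℤ × ℤ) : (ι → ℝ × ℝ) →ₗ[ℝ] ℝ where
  toFun := pair a
  map_add' v w := by
    unfold pair
    rw [← Finset.sum_add_distrib]
    refine Finset.sum_congr rfl fun i _ => ?_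
    simp
    ring
  map_smul' c v := by
    rw [pair_smul]
    rfl

theorem pairL_apply (a : ι → ℤ × ℤ) (v : ι → ℝ × ℝ) : pairL a v = pair a v := rfl

theorem choose_z [DecidableEq ι] (ρ : ι → Fin 3) (G : Submodule ℝ (ι → ℝ × ℝ))
    (hG : ∀ g ∈ G, tm ρ g = 0 → g = 0) :
    ∃ C : ℕ, ∀ N : ℕ, 1 ≤ N → ∀ β : ι → ℕ, (∀ i, β i ≤ N) →
      ∃ z : ι → ℤ, (∀ i, |z i| ≤ C * N) ∧
        ∀ g ∈ G, |pair (ex ρ β z) g| ≤ Fintype.card ι * ‖g‖ := by
  have hker : LinearMap.ker (tm ρ ∘ₗ G.subtype) = ⊥ := by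
    rw [LinearMap.ker_eq_bot']
    intro g hg
    exact Subtype.ext (hG g g.2 hg)
  obtain ⟨L, hL⟩ := LinearMap.exists_leftInverse_of_injective _ hker
  set ℓ : ι → ι → ℝ × ℝ := fun i => ((L (Pi.single i 1) : G) : ι → ℝ × ℝ) with hℓ
  set B : ℝ := ∑ i, ‖ℓ i‖ with hB
  have hB0 : 0 ≤ B := Finset.sum_nonneg fun i _ => norm_nonneg _
  have hrep : ∀ g ∈ G, g = ∑ i, tm ρ g i • ℓ i := by
    intro g hg
    have h1 : L (tm ρ g) = ⟨g, hg⟩ := by
      have := LinearMap.congr_fun hL ⟨g, hg⟩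
      simpa using this
    have h2 : tm ρ g = ∑ i, tm ρ g i • (Pi.single i 1 : ι → ℝ) := by
      rw [← Finset.univ_sum_single (tm ρ g)]
      refine Finset.sum_congr rfl fun i _ => ?_
      funext j
      by_cases hij : j = i
      · subst hij
        simp
      · simp [hij]
    have h3 : L (tm ρ g) = ∑ i, tm ρ g i • L (Pi.single i 1) := by
      conv_lhs => rw [h2]
      rw [map_sum]
      refine Finset.sum_congr rfl fun i _ => ?_
      rw [map_smul]
    have h4 := congrArg (Subtype.val) (h1.symm.trans h3)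
    simpa using h4
  refine ⟨⌈2 * Fintype.card ι * B + 1⌉₊, ?_⟩
  intro N hN β hβ
  have hNr : (1 : ℝ) ≤ N := by exact_mod_cast hN
  set a0 : ι → ℤ × ℤ := fun i => sec (ρ i) (β i) with ha0
  have ha0' : ∀ i, |(a0 i).1| ≤ N ∧ |(a0 i).2| ≤ N := by
    intro i
    have h1 := abs_sec (ρ i) (β i)
    simp only [Nat.abs_cast] at h1
    have h2 : (β i : ℤ) ≤ N := by exact_mod_cast hβ i
    exact ⟨h1.1.trans h2, h1.2.trans h2⟩
  set zr : ι → ℝ := fun i => - pair a0 (ℓ i) with hzr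
  have hzr' : ∀ i, |zr i| ≤ 2 * Fintype.card ι * B * N := by
    intro i
    rw [hzr]
    simp only [abs_neg]
    refine (abs_pair_le a0 (ℓ i) N ha0').trans ?_
    have h1 : ‖ℓ i‖ ≤ B := Finset.single_le_sum (f := fun i => ‖ℓ i‖) (fun j _ => norm_nonneg _) (Finset.mem_univ i)
    have h2 : (0 : ℝ) ≤ 2 * Fintype.card ι * N := by positivity
    calc 2 * (Fintype.card ι : ℝ) * N * ‖ℓ i‖ ≤ 2 * (Fintype.card ι : ℝ) * N * B :=
          mul_le_mul_of_nonneg_left h1 h2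
      _ = 2 * Fintype.card ι * B * N := by ring
  refine ⟨fun i => round (zr i), ?_, ?_⟩
  · intro i
    have h1 : |(round (zr i) : ℝ)| ≤ |zr i| + 1 / 2 := by
      have h2 := abs_sub_round (zr i)
      have h3 : (round (zr i) : ℝ) = zr i - (zr i - round (zr i)) := by ring
      rw [h3]
      exact (abs_sub _ _).trans (by linarith)
    have h4 : |(round (zr i) : ℝ)| ≤ (⌈2 * Fintype.card ι * B + 1⌉₊ : ℝ) * N := by
      have h5 := Nat.le_ceil (2 * (Fintype.card ι : ℝ) * B + 1)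
      have h6 := hzr' i
      have h7 : (2 * (Fintype.card ι : ℝ) * B + 1) * N ≤ (⌈2 * Fintype.card ι * B + 1⌉₊ : ℝ) * N := by
        gcongr
      nlinarith
    exact_mod_cast h4
  · intro g hg
    rw [pair_ex]
    have h1 : pair a0 g = ∑ i, tm ρ g i * pair a0 (ℓ i) := by
      rw [← pairL_apply, hrep g hg, map_sum]
      refine Finset.sum_congr rfl fun i _ => ?_
      rw [map_smul, ← hrep g hg, smul_eq_mul, pairL_apply]
    have h2 : pair a0 g + ∑ i, ((round (zr i) : ℤ) : ℝ) * tm ρ g i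
        = ∑ i, ((round (zr i) : ℝ) - zr i) * tm ρ g i := by
      rw [h1, ← Finset.sum_add_distrib]
      refine Finset.sum_congr rfl fun i _ => ?_
      rw [hzr]
      ring
    change |pair a0 g + ∑ i, ((round (zr i) : ℤ) : ℝ) * tm ρ g i| ≤ _
    rw [h2]
    refine (Finset.abs_sum_le_sum_abs _ _).trans ?_
    have h3 : ∀ i ∈ (Finset.univ : Finset ι),
        |((round (zr i) : ℝ) - zr i) * tm ρ g i| ≤ ‖g‖ := by
      intro i _
      rw [abs_mul]
      have h4 := abs_sub_round (zr i)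
      rw [abs_sub_comm] at h4
      have h5 := abs_tm_le ρ g i
      calc |(round (zr i) : ℝ) - zr i| * |tm ρ g i| ≤ (1 / 2) * (2 * ‖g‖) := by
            gcongr
        _ = ‖g‖ := by ring
    refine (Finset.sum_le_sum h3).trans ?_
    rw [Finset.sum_const, Finset.card_univ, nsmul_eq_mul]

/-- pigeonhole -/
theorem pigeon [DecidableEq ι] (W : Submodule ℝ (ι → ℝ)) (x : ℕ) (hW : finrank ℝ W ≤ x) :
    ∃ c : ℝ, 0 < c ∧ ∀ κ : ℝ, 0 < κ → κ ≤ 1 → ∀ N : ℕ, 1 ≤ N →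
      ∃ B : Finset (ι → ℕ), (∀ β ∈ B, ∀ i, β i ≤ N) ∧
        (∀ β ∈ B, ∀ γ ∈ B, ∀ l ∈ W, |∑ i, ((β i : ℝ) - γ i) * l i| ≤ κ * N * ‖l‖) ∧
        c * κ ^ x * ((N : ℝ) + 1) ^ Fintype.card ι ≤ B.card := by
  set n := finrank ℝ W with hn
  let b : Basis (Fin n) ℝ W := finBasis ℝ W
  -- coordinates are bounded
  obtain ⟨C3, hC30, hC3⟩ : ∃ C : ℝ, 1 ≤ C ∧ ∀ l : W, ∀ j, |b.repr l j| ≤ C * ‖(l : ι → ℝ)‖ := by
    let Φ : W →ₗ[ℝ] (Fin n → ℝ) := (b.equivFun : W →ₗ[ℝ] (Fin n → ℝ))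
    let Ψ := LinearMap.toContinuousLinearMap Φ
    refine ⟨‖Ψ‖ + 1, by linarith [norm_nonneg Ψ], ?_⟩
    intro l j
    have h1 : ‖Ψ l‖ ≤ ‖Ψ‖ * ‖l‖ := Ψ.le_opNorm l
    have h2 : |b.repr l j| ≤ ‖Ψ l‖ := norm_le_pi_norm (Φ l) j
    have h3 : ‖l‖ = ‖(l : ι → ℝ)‖ := rfl
    rw [h3] at h1
    nlinarith [norm_nonneg (l : ι → ℝ)]
  set w : Fin n → ι → ℝ := fun j => ((b j : W) : ι → ℝ) with hw
  have hrep : ∀ l (hl : l ∈ W), ∀ i, l i = ∑ j, b.repr ⟨l, hl⟩ j * w j i := by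
    intro l hl i
    have h1 := b.sum_repr ⟨l, hl⟩
    have h2 := congrArg Subtype.val h1
    have h3 : ((∑ j, b.repr ⟨l, hl⟩ j • b j : W) : ι → ℝ) i = l i := congrFun h2 i
    rw [← h3, Submodule.coe_sum, Finset.sum_apply]
    refine Finset.sum_congr rfl fun j _ => ?_
    rw [Submodule.coe_smul, Pi.smul_apply, smul_eq_mul]
  -- bound of the sums
  set C2 : ℝ := ∑ j, ∑ i, |w j i| with hC2
  have hC20 : 0 ≤ C2 := Finset.sum_nonneg fun j _ => Finset.sum_nonneg fun i _ => abs_nonneg _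
  -- κ' = κ / K
  set K : ℝ := C3 * (n + 1) with hK
  have hn1 : (1 : ℝ) ≤ (n : ℝ) + 1 := by linarith [(Nat.cast_nonneg n : (0 : ℝ) ≤ n)]
  have hK1 : 1 ≤ K := by nlinarith
  have hK0 : 0 < K := by linarith
  set D : ℝ := K * (2 * C2 + 3) with hD
  have hD1 : 1 ≤ D := by nlinarith
  have hD0 : 0 < D := by linarith
  refine ⟨(1 / D) ^ x, by positivity, ?_⟩
  intro κ hκ0 hκ1 N hN
  have hNr : (1 : ℝ) ≤ N := by exact_mod_cast hN
  have hN0 : (0 : ℝ) < N := by linarith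
  set κ' : ℝ := κ / K with hκ'
  have hκ'0 : 0 < κ' := by positivity
  have hκ'1 : κ' ≤ 1 := by
    rw [hκ', div_le_one hK0]
    linarith
  set M : ℤ := ⌈C2 / κ'⌉ with hM
  have hM0 : 0 ≤ M := Int.ceil_nonneg (by positivity)
  have hM1 : C2 / κ' ≤ M := Int.le_ceil _
  have hM2 : (M : ℝ) < C2 / κ' + 1 := Int.ceil_lt_add_one _
  let box : Finset (ι → ℕ) := Fintype.piFinset fun _ => Finset.range (N + 1)
  let t : Finset (Fin n → ℤ) := Fintype.piFinset fun _ => Finset.Icc (-M) M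
  let φ : (ι → ℕ) → Fin n → ℤ := fun β j => ⌊(∑ i, (β i : ℝ) * w j i) / (κ' * N)⌋
  have hκN : 0 < κ' * N := by positivity
  have hmaps : ∀ β ∈ box, φ β ∈ t := by
    intro β hβ
    rw [Fintype.mem_piFinset] at hβ ⊢
    intro j
    have h1 : |∑ i, (β i : ℝ) * w j i| ≤ N * C2 := by
      refine (Finset.abs_sum_le_sum_abs _ _).trans ?_
      have h2 : ∀ i ∈ (Finset.univ : Finset ι), |(β i : ℝ) * w j i| ≤ N * |w j i| := by
        intro i _
        rw [abs_mul, Nat.abs_cast]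
        have h3 : β i ≤ N := Nat.lt_succ_iff.1 (Finset.mem_range.1 (hβ i))
        have h4 : (β i : ℝ) ≤ N := by exact_mod_cast h3
        gcongr
      refine (Finset.sum_le_sum h2).trans ?_
      rw [← Finset.mul_sum]
      have h5 : ∑ i, |w j i| ≤ C2 := Finset.single_le_sum (f := fun j => ∑ i, |w j i|)
        (fun j _ => Finset.sum_nonneg fun i _ => abs_nonneg _) (Finset.mem_univ j)
      gcongr
    have h6 : |(∑ i, (β i : ℝ) * w j i) / (κ' * N)| ≤ M := by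
      rw [abs_div, abs_of_pos hκN]
      refine le_trans ?_ hM1
      rw [div_le_div_iff₀ hκN hκ'0]
      nlinarith
    rw [abs_le] at h6
    rw [Finset.mem_Icc]
    constructor
    · rw [Int.le_floor]
      push_cast
      exact h6.1
    · have h7 : (⌊(∑ i, (β i : ℝ) * w j i) / (κ' * N)⌋ : ℝ) ≤ M := (Int.floor_le _).trans h6.2
      exact_mod_cast h7
  have htne : t.Nonempty := ⟨fun _ => 0, by
    rw [Fintype.mem_piFinset]
    intro j
    rw [Finset.mem_Icc]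
    exact ⟨by linarith, hM0⟩⟩
  have htc : (t.card : ℝ) = (2 * M + 1 : ℝ) ^ n := by
    rw [Fintype.card_piFinset]
    simp only [Int.card_Icc, Finset.prod_const, Finset.card_univ, Fintype.card_fin]
    push_cast
    congr 1
    have h1 : ((M + 1 - -M).toNat : ℤ) = 2 * M + 1 := by
      rw [Int.toNat_of_nonneg (by linarith)]
      ring
    exact_mod_cast congrArg (Int.cast : ℤ → ℝ) h1
  have hboxc : (box.card : ℝ) = ((N : ℝ) + 1) ^ Fintype.card ι := by
    rw [Fintype.card_piFinset]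
    simp
  have htpos : (0 : ℝ) < t.card := by
    exact_mod_cast htne.card_pos
  obtain ⟨y, hy, hcard⟩ := Finset.exists_le_card_fiber_of_nsmul_le_card_of_maps_to
    (s := box) (t := t) (f := φ) (b := (box.card : ℝ) / t.card) hmaps htne (by
      rw [nsmul_eq_mul, mul_div_cancel₀ _ htpos.ne'])
  refine ⟨box.filter fun β => φ β = y, ?_, ?_, ?_⟩
  · intro β hβ i
    rw [Finset.mem_filter, Fintype.mem_piFinset] at hβ
    exact Nat.lt_succ_iff.1 (Finset.mem_range.1 (hβ.1 i))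
  · intro β hβ γ hγ l hl
    rw [Finset.mem_filter] at hβ hγ
    have h1 : ∀ j, |∑ i, ((β i : ℝ) - γ i) * w j i| ≤ κ' * N := by
      intro j
      have h2 : φ β j = φ γ j := by rw [hβ.2, hγ.2]
      have h3 := Int.abs_sub_lt_one_of_floor_eq_floor h2
      have h4 : ∑ i, ((β i : ℝ) - γ i) * w j i
          = ((∑ i, (β i : ℝ) * w j i) / (κ' * N) - (∑ i, (γ i : ℝ) * w j i) / (κ' * N)) * (κ' * N) := by
        rw [← sub_div, div_mul_cancel₀ _ hκN.ne', ← Finset.sum_sub_distrib]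
        refine Finset.sum_congr rfl fun i _ => ?_
        ring
      rw [h4, abs_mul, abs_of_pos hκN]
      nlinarith
    have h5 : ∑ i, ((β i : ℝ) - γ i) * l i
        = ∑ j, b.repr ⟨l, hl⟩ j * ∑ i, ((β i : ℝ) - γ i) * w j i := by
      have : ∀ i, ((β i : ℝ) - γ i) * l i
          = ∑ j, b.repr ⟨l, hl⟩ j * (((β i : ℝ) - γ i) * w j i) := by
        intro i
        rw [hrep l hl i, Finset.mul_sum]
        refine Finset.sum_congr rfl fun j _ => ?_
        ring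
      rw [Finset.sum_congr rfl fun i _ => this i, Finset.sum_comm]
      refine Finset.sum_congr rfl fun j _ => ?_
      rw [Finset.mul_sum]
    rw [h5]
    refine (Finset.abs_sum_le_sum_abs _ _).trans ?_
    have h6 : ∀ j ∈ (Finset.univ : Finset (Fin n)),
        |b.repr ⟨l, hl⟩ j * ∑ i, ((β i : ℝ) - γ i) * w j i| ≤ C3 * ‖l‖ * (κ' * N) := by
      intro j _
      rw [abs_mul]
      exact mul_le_mul (hC3 ⟨l, hl⟩ j) (h1 j) (abs_nonneg _) (by positivity)
    refine (Finset.sum_le_sum h6).trans ?_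
    rw [Finset.sum_const, Finset.card_univ, Fintype.card_fin, nsmul_eq_mul]
    have h7 : κ' * (C3 * (n + 1)) = κ := by
      rw [hκ', ← hK, div_mul_cancel₀ _ hK0.ne']
    have h8 : (0 : ℝ) ≤ C3 * κ' * N * ‖l‖ := by positivity
    calc (n : ℝ) * (C3 * ‖l‖ * (κ' * N)) ≤ ((n : ℝ) + 1) * (C3 * κ' * N * ‖l‖) := by nlinarith
      _ = κ' * (C3 * (n + 1)) * N * ‖l‖ := by ring
      _ = κ * N * ‖l‖ := by rw [h7]
  · refine le_trans ?_ hcard
    rw [hboxc, htc]
    have h1 : (2 * M + 1 : ℝ) ≤ D / κ := by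
      have h2 : (2 * M + 1 : ℝ) ≤ 2 * (C2 / κ') + 3 := by linarith
      refine h2.trans ?_
      have h3 : (1 : ℝ) ≤ 1 / κ' := by
        rw [le_div_iff₀ hκ'0]
        linarith
      have h4 : 2 * (C2 / κ') + 3 ≤ (2 * C2 + 3) * (1 / κ') := by
        have : C2 / κ' = C2 * (1 / κ') := by ring
        rw [this]
        nlinarith
      refine h4.trans (le_of_eq ?_)
      rw [hκ', hD]
      field_simp
    have h5 : (2 * M + 1 : ℝ) ^ n ≤ (D / κ) ^ x := by
      have h6 : (1 : ℝ) ≤ D / κ := by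
        rw [le_div_iff₀ hκ0]
        linarith
      have hMr : (0 : ℝ) ≤ M := by exact_mod_cast hM0
      calc (2 * M + 1 : ℝ) ^ n ≤ (D / κ) ^ n := by gcongr
        _ ≤ (D / κ) ^ x := pow_le_pow_right₀ h6 hW
    have h7 : (1 / D) ^ x * κ ^ x * ((N : ℝ) + 1) ^ Fintype.card ι
        = ((N : ℝ) + 1) ^ Fintype.card ι / (D / κ) ^ x := by
      rw [div_pow, div_pow, one_pow]
      field_simp
    rw [h7]
    have h8 : (0 : ℝ) < (2 * M + 1 : ℝ) ^ n := by
      have hMr : (0 : ℝ) ≤ M := by exact_mod_cast hM0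
      positivity
    gcongr

end Chars

open Chars in
theorem many_chars {ι : Type} [Fintype ι] [DecidableEq ι] (F : Submodule ℝ (ι → ℝ × ℝ)) (x : ℕ)
    (ρ : ι → Fin 3) (h : finrank ℝ (F ⊓ cel Finset.univ ρ : Submodule ℝ _) ≤ x) :
    ∃ c : ℝ, 0 < c ∧ ∀ κ : ℝ, 0 < κ → κ ≤ 1 → ∃ N0 : ℕ, ∀ N ≥ N0,
      ∃ s : Finset (ι → ℤ × ℤ), (∀ a ∈ s, ∀ i, |(a i).1| ≤ N ∧ |(a i).2| ≤ N) ∧
        (∀ a ∈ s, ∀ f ∈ F, |pair a f| ≤ κ * N * ‖f‖) ∧
        Set.InjOn (fun (a : ι → ℤ × ℤ) i => key (ρ i) (a i)) s ∧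
        c * κ ^ x * (N : ℝ) ^ Fintype.card ι ≤ s.card := by
  set E : Submodule ℝ (ι → ℝ × ℝ) := F ⊓ cel Finset.univ ρ with hE
  -- the projection to `E`
  obtain ⟨π0, hπ0⟩ := LinearMap.exists_leftInverse_of_injective E.subtype
    (by rw [LinearMap.ker_eq_bot]; exact Subtype.val_injective)
  let π : (ι → ℝ × ℝ) →ₗ[ℝ] (ι → ℝ × ℝ) := E.subtype ∘ₗ π0
  have hπE : ∀ v, π v ∈ E := fun v => (π0 v).2
  have hπ1 : ∀ e ∈ E, π e = e := by
    intro e he
    have h1 := LinearMap.congr_fun hπ0 ⟨e, he⟩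
    have h2 := congrArg Subtype.val h1
    simpa [π] using h2
  -- the complement
  set G : Submodule ℝ (ι → ℝ × ℝ) := F ⊓ LinearMap.ker π with hG
  have hGT : ∀ g ∈ G, tm ρ g = 0 → g = 0 := by
    intro g hg h1
    have h2 : g ∈ E := ⟨hg.1, mem_cel_of_tm h1⟩
    rw [← hπ1 g h2]
    exact hg.2
  obtain ⟨Cz, hCz⟩ := choose_z ρ G hGT
  -- the lengths
  let vl : (ι → ℝ) →ₗ[ℝ] (ι → ℝ × ℝ) :=
    { toFun := vec ρ
      map_add' := fun l m => by
        funext i
        simp [vec, add_smul]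
      map_smul' := fun c l => by
        funext i
        simp [vec, mul_smul] }
  have hvl : Function.Injective vl := by
    intro l m hlm
    have h1 : ‖l - m‖ = 0 := by
      rw [← norm_vec ρ, vec_sub]
      have h2 : vec ρ l = vec ρ m := hlm
      rw [h2, sub_self, norm_zero]
    exact sub_eq_zero.1 (norm_eq_zero.1 h1)
  let W : Submodule ℝ (ι → ℝ) := E.comap vl
  have hWx : finrank ℝ W ≤ x := by
    refine le_trans ?_ h
    have h1 : Function.Injective (vl.restrict (p := W) (q := E) fun l hl => hl) := by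
      intro l m hlm
      apply Subtype.ext
      apply hvl
      exact congrArg Subtype.val hlm
    exact LinearMap.finrank_le_finrank_of_injective h1
  obtain ⟨c0, hc0, hpig⟩ := pigeon W x hWx
  -- norm of the projection
  obtain ⟨Cp, hCp0, hCp⟩ : ∃ C : ℝ, 1 ≤ C ∧ ∀ v, ‖π v‖ ≤ C * ‖v‖ := by
    let Ψ := LinearMap.toContinuousLinearMap π
    refine ⟨‖Ψ‖ + 1, by linarith [norm_nonneg Ψ], ?_⟩
    intro v
    have h1 : ‖Ψ v‖ ≤ ‖Ψ‖ * ‖v‖ := Ψ.le_opNorm v
    have h2 : ‖π v‖ ≤ ‖Ψ‖ * ‖v‖ := h1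
    nlinarith [norm_nonneg v]
  set K1 : ℝ := 2 * Cp with hK1
  have hK11 : 1 ≤ K1 := by linarith
  set K2 : ℕ := 2 * (Cz + 1) with hK2
  have hK21 : 1 ≤ K2 := by omega
  have hK2r : (1 : ℝ) ≤ K2 := by exact_mod_cast hK21
  refine ⟨c0 * (1 / K1) ^ x * (1 / K2) ^ Fintype.card ι, by positivity, ?_⟩
  intro κ hκ0 hκ1
  refine ⟨max K2 ⌈4 * Fintype.card ι * (1 + Cp) / κ⌉₊, ?_⟩
  intro N hN
  have hN1 : K2 ≤ N := (le_max_left _ _).trans hN
  have hN2 : 4 * Fintype.card ι * (1 + Cp) / κ ≤ N := by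
    have h1 : ⌈4 * Fintype.card ι * (1 + Cp) / κ⌉₊ ≤ N := (le_max_right _ _).trans hN
    exact (Nat.le_ceil _).trans (by exact_mod_cast h1)
  set N' : ℕ := N / K2 with hN'
  have hN'1 : 1 ≤ N' := (Nat.one_le_div_iff (by omega)).2 hN1
  have hN'2 : K2 * N' ≤ N := Nat.mul_div_le N K2
  have hN'3 : (N : ℝ) / K2 ≤ (N' : ℝ) + 1 := by
    rw [div_le_iff₀ (by positivity)]
    have h1 : N < (N / K2 + 1) * K2 := by
      have := Nat.lt_mul_div_succ N (show 0 < K2 by omega)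
      rw [mul_comm]
      exact this
    exact_mod_cast h1.le
  have hN'N : (N' : ℝ) ≤ N := by
    have : N' ≤ N := Nat.div_le_self _ _
    exact_mod_cast this
  obtain ⟨B, hB1, hB2, hB3⟩ := hpig (κ / K1) (by positivity)
    (by rw [div_le_one (by linarith)]; linarith) N' hN'1
  have hBne : B.Nonempty := by
    rw [← Finset.card_pos]
    have h1 : (0 : ℝ) < B.card := lt_of_lt_of_le (by positivity) hB3
    exact_mod_cast h1
  obtain ⟨β0, hβ0⟩ := hBne
  choose! z hz1 hz2 using fun (β : ι → ℕ) (hβ : ∀ i, β i ≤ N') => hCz N' hN'1 β hβ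
  let F1 : (ι → ℕ) → ι → ℤ × ℤ := fun β => ex ρ β (z β) - ex ρ β0 (z β0)
  have hkey : ∀ β i, key (ρ i) (F1 β i) = (β i : ℤ) - β0 i := by
    intro β i
    change key (ρ i) (ex ρ β (z β) i - ex ρ β0 (z β0) i) = _
    rw [key_sub, key_ex, key_ex]
  have hinj : Function.Injective F1 := by
    intro β γ hβγ
    funext i
    have h1 := hkey β i
    rw [hβγ, hkey γ i] at h1
    have h2 : (γ i : ℤ) = β i := by linarith
    exact_mod_cast h2.symm
  refine ⟨B.image F1, ?_, ?_, ?_, ?_⟩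
  · intro a ha i
    obtain ⟨β, hβ, rfl⟩ := Finset.mem_image.1 ha
    have h1 := abs_ex ρ β (z β) i
    have h2 := abs_ex ρ β0 (z β0) i
    have h3 := hz1 β (hB1 β hβ) i
    have h4 := hz1 β0 (hB1 β0 hβ0) i
    have h5 : (β i : ℤ) ≤ N' := by exact_mod_cast hB1 β hβ i
    have h6 : (β0 i : ℤ) ≤ N' := by exact_mod_cast hB1 β0 hβ0 i
    have h7 : ((K2 : ℕ) : ℤ) * N' ≤ N := by exact_mod_cast hN'2
    have h8 : ((K2 : ℕ) : ℤ) * N' = 2 * (N' + Cz * N') := by
      rw [hK2]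
      push_cast
      ring
    constructor
    · change |(ex ρ β (z β) i).1 - (ex ρ β0 (z β0) i).1| ≤ _
      have h9 := abs_sub (ex ρ β (z β) i).1 (ex ρ β0 (z β0) i).1
      linarith [h1.1, h2.1]
    · change |(ex ρ β (z β) i).2 - (ex ρ β0 (z β0) i).2| ≤ _
      have h9 := abs_sub (ex ρ β (z β) i).2 (ex ρ β0 (z β0) i).2
      linarith [h1.2, h2.2]
  · intro a ha f hf
    obtain ⟨β, hβ, rfl⟩ := Finset.mem_image.1 ha
    set e := π f with he
    set g := f - e with hg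
    have hfe : f = g + e := by rw [hg, sub_add_cancel]
    have heE : e ∈ E := hπE f
    have hgG : g ∈ G := by
      refine ⟨F.sub_mem hf heE.1, ?_⟩
      change π g = 0
      rw [hg, map_sub, hπ1 e heE, sub_self]
    have hne : ‖e‖ ≤ Cp * ‖f‖ := hCp f
    have hng : ‖g‖ ≤ (1 + Cp) * ‖f‖ := by
      have := norm_sub_le f e
      linarith
    -- on `G`
    have h1 : |pair (F1 β) g| ≤ 2 * Fintype.card ι * ‖g‖ := by
      change |pair (ex ρ β (z β) - ex ρ β0 (z β0)) g| ≤ _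
      rw [pair_sub_left]
      have h2 := hz2 β (hB1 β hβ) g hgG
      have h3 := hz2 β0 (hB1 β0 hβ0) g hgG
      have h4 := abs_sub (pair (ex ρ β (z β)) g) (pair (ex ρ β0 (z β0)) g)
      linarith
    -- on `E`
    obtain ⟨l, -, hl⟩ := mem_cel.1 heE.2
    have hlW : l ∈ W := by
      change vec ρ l ∈ E
      rw [← hl]
      exact heE
    have h5 : |pair (F1 β) e| ≤ κ / K1 * N' * ‖e‖ := by
      rw [hl, pair_vec, abs_neg, norm_vec]
      have h6 := hB2 β hβ β0 hβ0 l hlW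
      have h7 : ∑ i, (key (ρ i) (F1 β i) : ℝ) * l i = ∑ i, ((β i : ℝ) - β0 i) * l i := by
        refine Finset.sum_congr rfl fun i _ => ?_
        rw [hkey]
        push_cast
        ring
      rw [h7]
      exact h6
    have h8 : pair (F1 β) f = pair (F1 β) g + pair (F1 β) e := by
      conv_lhs => rw [hfe]
      rw [← pairL_apply, map_add, pairL_apply, pairL_apply]
    rw [h8]
    refine (abs_add_le _ _).trans ?_
    have h9 : κ / K1 * N' * ‖e‖ ≤ κ / 2 * N * ‖f‖ := by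
      have h10 : κ / K1 * N' * ‖e‖ ≤ κ / K1 * N * (Cp * ‖f‖) := by
        gcongr
      refine h10.trans (le_of_eq ?_)
      rw [hK1]
      field_simp
    have h11 : 2 * Fintype.card ι * ‖g‖ ≤ κ / 2 * N * ‖f‖ := by
      have h12 : 4 * Fintype.card ι * (1 + Cp) ≤ N * κ := by
        rwa [div_le_iff₀ hκ0] at hN2
      have h13 : 2 * (Fintype.card ι : ℝ) * ‖g‖ ≤ 2 * Fintype.card ι * ((1 + Cp) * ‖f‖) := by
        gcongr
      have h14 := norm_nonneg f
      nlinarith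
    have h15 : κ / 2 * N * ‖f‖ + κ / 2 * N * ‖f‖ = κ * N * ‖f‖ := by ring
    linarith
  · intro a ha b hb hab
    obtain ⟨β, hβ, rfl⟩ := Finset.mem_image.1 (Finset.mem_coe.1 ha)
    obtain ⟨γ, hγ, rfl⟩ := Finset.mem_image.1 (Finset.mem_coe.1 hb)
    have h1 : β = γ := by
      funext i
      have h2 := congrFun hab i
      simp only [hkey] at h2
      have h3 : (β i : ℤ) = γ i := by linarith
      exact_mod_cast h3
    rw [h1]
  · rw [Finset.card_image_of_injective _ hinj]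
    refine le_trans ?_ hB3
    have h1 : c0 * (1 / K1) ^ x * (1 / K2) ^ Fintype.card ι * κ ^ x * (N : ℝ) ^ Fintype.card ι
        = c0 * (κ / K1) ^ x * ((N : ℝ) / K2) ^ Fintype.card ι := by
      rw [div_pow κ, div_pow (N : ℝ), div_pow, div_pow, one_pow, one_pow]
      ring
    rw [h1]
    gcongr

end Pool.Agent.KP
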