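import Pool.Agent.Lib.MP_c95b3b_ag_KP.Defs

/-! Project KP (MP_c95b3b_ag), module KE: local expansions of `x ^ p * (1 - x) ^ r`. -/

namespace Pool.Agent.KP

open Pool.Agent.L3 Module

namespace KE

open Polynomial

/-- the polynomial `X ^ p * (1 - X) ^ r` -/
noncomputable def pol (p r : ℕ) : ℤ[X] := X ^ p * (1 - X) ^ r

theorem natDegree_pol (p r : ℕ) : (pol p r).natDegree ≤ p + r := by
  unfold pol
  refine natDegree_mul_le.trans ?_
  refine Nat.add_le_add (natDegree_X_pow_le p) ?_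
  refine natDegree_pow_le.trans ?_
  have h : (1 - X : ℤ[X]).natDegree ≤ 1 := by
    refine (natDegree_sub_le _ _).trans ?_
    simp
  calc r * (1 - X : ℤ[X]).natDegree ≤ r * 1 := Nat.mul_le_mul_left r h
    _ = r := mul_one r

theorem coeff_low (p r α : ℕ) (h : α < p) : (pol p r).coeff α = 0 := by
  unfold pol
  rw [coeff_X_pow_mul', if_neg (by omega)]

theorem coeff_high (p r α : ℕ) (h : p + r < α) : (pol p r).coeff α = 0 :=
  coeff_eq_zero_of_natDegree_lt (lt_of_le_of_lt (natDegree_pol p r) h)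

theorem eval_pol (p r n : ℕ) (h : p + r ≤ n) (K : Type) [Field K] (x : K) :
    x ^ p * (1 - x) ^ r = ∑ α ∈ Finset.range (n + 1), ((pol p r).coeff α : K) * x ^ α := by
  have h1 : aeval x (pol p r) = x ^ p * (1 - x) ^ r := by
    simp [pol]
  rw [← h1, aeval_eq_sum_range' (lt_of_le_of_lt (natDegree_pol p r) (Nat.lt_succ_of_le h))]
  refine Finset.sum_congr rfl fun α _ => ?_
  rw [zsmul_eq_mul]

end KE

open KE in
theorem expand (j : Fin 3) (N : ℕ) : ∃ e : ℤ × ℤ → ℕ → ℤ,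
    (∀ (a : ℤ × ℤ) (α : ℕ), (α : ℤ) - shift j N < key j a → e a α = 0) ∧
    ∀ a : ℤ × ℤ, |a.1| ≤ N → |a.2| ≤ N → ∀ (K : Type) [Field K] (x : K),
      x ^ (a.1 + N).toNat * (1 - x) ^ (a.2 + N).toNat =
        ∑ α ∈ Finset.range (4 * N + 1), (e a α : K) * loc j (4 * N) α x := by
  fin_cases j
  · refine ⟨fun a α => if |a.1| ≤ N ∧ |a.2| ≤ N then
      (pol (a.1 + N).toNat (a.2 + N).toNat).coeff α else 0, ?_, ?_⟩
    · intro a α h
      simp only [shift, key] at h
      by_cases hb : |a.1| ≤ (N : ℤ) ∧ |a.2| ≤ (N : ℤ)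
      · beta_reduce; rw [if_pos hb]
        apply coeff_low
        have h0 : (α : ℤ) - N < a.1 := h
        omega
      · beta_reduce; rw [if_neg hb]
    · intro a h1 h2 K _ x
      rw [abs_le] at h1 h2
      have hb : |a.1| ≤ (N : ℤ) ∧ |a.2| ≤ (N : ℤ) := ⟨abs_le.2 h1, abs_le.2 h2⟩
      simp only [if_pos hb]
      exact eval_pol _ _ (4 * N) (by omega) K x
  · refine ⟨fun a α => if |a.1| ≤ N ∧ |a.2| ≤ N then
      (pol (a.2 + N).toNat (a.1 + N).toNat).coeff α else 0, ?_, ?_⟩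
    · intro a α h
      simp only [shift, key] at h
      by_cases hb : |a.1| ≤ (N : ℤ) ∧ |a.2| ≤ (N : ℤ)
      · beta_reduce; rw [if_pos hb]
        apply coeff_low
        have h0 : (α : ℤ) - N < a.2 := h
        omega
      · beta_reduce; rw [if_neg hb]
    · intro a h1 h2 K _ x
      rw [abs_le] at h1 h2
      have hb : |a.1| ≤ (N : ℤ) ∧ |a.2| ≤ (N : ℤ) := ⟨abs_le.2 h1, abs_le.2 h2⟩
      simp only [if_pos hb]
      have h3 := eval_pol (a.2 + N).toNat (a.1 + N).toNat (4 * N) (by omega) K (1 - x)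
      rw [sub_sub_cancel, mul_comm] at h3
      exact h3
  · refine ⟨fun a α => if |a.1| ≤ N ∧ |a.2| ≤ N then
      (pol (a.1 + N).toNat (a.2 + N).toNat).coeff (4 * N - α) else 0, ?_, ?_⟩
    · intro a α h
      simp only [shift, key] at h
      by_cases hb : |a.1| ≤ (N : ℤ) ∧ |a.2| ≤ (N : ℤ)
      · beta_reduce; rw [if_pos hb]
        apply coeff_high
        obtain ⟨hb1, hb2⟩ := hb
        rw [abs_le] at hb1 hb2
        have h0 : (α : ℤ) - (2 * N : ℕ) < -(a.1 + a.2) := h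
        push_cast at h0
        omega
      · beta_reduce; rw [if_neg hb]
    · intro a h1 h2 K _ x
      rw [abs_le] at h1 h2
      have hb : |a.1| ≤ (N : ℤ) ∧ |a.2| ≤ (N : ℤ) := ⟨abs_le.2 h1, abs_le.2 h2⟩
      simp only [if_pos hb]
      rw [eval_pol _ _ (4 * N) (by omega) K x, ← Finset.sum_range_reflect]
      refine Finset.sum_congr rfl fun α hα => ?_
      have hα' := Finset.mem_range.1 hα
      have e1 : 4 * N + 1 - 1 - α = 4 * N - α := by omega
      rw [e1]
      rfl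

end Pool.Agent.KP
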