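import Pool.Agent.Lib.MP_c95b3b_ag_KP.Defs

/-! Project KP: independence of characters with distinct keys. -/

namespace Pool.Agent.KP

open Pool.Agent.L3 Module

namespace Indep

/-- uniqueness of expansions in base `L` with small digits -/
theorem base (L : ℤ) : ∀ (n : ℕ) (d : Fin n → ℤ), (∀ i, 2 * |d i| < L) →
    ∑ i, d i * L ^ (i : ℕ) = 0 → ∀ i, d i = 0 := by
  intro n
  induction n with
  | zero => intro d _ _ i; exact i.elim0
  | succ n ih =>
    intro d hd hs
    rw [Fin.sum_univ_succ] at hs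
    have h1 : ∑ i : Fin n, d i.succ * L ^ ((i.succ : Fin (n + 1)) : ℕ) =
        L * ∑ i : Fin n, d i.succ * L ^ (i : ℕ) := by
      rw [Finset.mul_sum]
      refine Finset.sum_congr rfl fun i _ => ?_
      rw [Fin.val_succ, pow_succ]
      ring
    rw [h1, Fin.val_zero, pow_zero, mul_one] at hs
    have h2 : L ∣ d 0 := ⟨-∑ i : Fin n, d i.succ * L ^ (i : ℕ), by linarith⟩
    have h3 : d 0 = 0 := by
      refine Int.eq_zero_of_abs_lt_dvd h2 ?_
      have := hd 0
      have h4 := abs_nonneg (d 0)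
      linarith
    have hL : 0 < L := by
      have := hd 0
      have h4 := abs_nonneg (d 0)
      linarith
    rw [h3, zero_add] at hs
    have h5 := (mul_eq_zero.1 hs).resolve_left hL.ne'
    have h6 := ih (fun i => d i.succ) (fun i => hd i.succ) h5
    intro i
    refine Fin.cases h3 (fun j => h6 j) i

/-- the same for families -/
theorem base' {ι : Type} [Fintype ι] (L : ℤ) (d : ι → ℤ) (hd : ∀ i, 2 * |d i| < L)
    (hs : ∑ i, d i * L ^ ((Fintype.equivFin ι i : ℕ)) = 0) (i : ι) : d i = 0 := by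
  have h1 := base L (Fintype.card ι) (fun j => d ((Fintype.equivFin ι).symm j))
    (fun j => hd _) ?_ (Fintype.equivFin ι i)
  · simpa using h1
  · rw [← hs]
    exact Fintype.sum_equiv (Fintype.equivFin ι).symm _ _ fun j => by simp

theorem prod_zpow {ι : Type} (s : Finset ι) (p : ℚ) (hp : p ≠ 0) (f : ι → ℤ) :
    ∏ i ∈ s, p ^ f i = p ^ ∑ i ∈ s, f i := by
  classical
  induction s using Finset.induction_on with
  | empty => simp
  | insert a s ha ih => rw [Finset.prod_insert ha, Finset.sum_insert ha, zpow_add₀ hp, ih]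

/-- the points of the path -/
noncomputable def pt (P : ℚ) (j : Fin 3) (w : ℕ) : ℚ := ![P ^ w, 1 - P ^ w, (P ^ w)⁻¹] j

theorem norm_pow (P : ℕ) [Fact P.Prime] (w : ℕ) : padicNorm P ((P : ℚ) ^ w) = (P : ℚ) ^ (-(w : ℤ)) := by
  have := map_pow (IsAbsoluteValue.toAbsoluteValue (padicNorm P)) (P : ℚ) w
  simp only [IsAbsoluteValue.toAbsoluteValue_apply] at this
  rw [this, padicNorm.padicNorm_p_of_prime, zpow_neg, zpow_natCast, inv_pow]

theorem norm_sub (P : ℕ) [hP : Fact P.Prime] (w : ℕ) (hw : 0 < w) : padicNorm P (1 - (P : ℚ) ^ w) = 1 := by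
  have h1 : (1 - (P : ℚ) ^ w) = ((1 - (P : ℤ) ^ w : ℤ) : ℚ) := by push_cast; ring
  rw [h1, padicNorm.int_eq_one_iff]
  intro h2
  have h3 : (P : ℤ) ∣ (P : ℤ) ^ w := dvd_pow_self _ hw.ne'
  have h4 : (P : ℤ) ∣ 1 := by
    have := dvd_add h2 h3
    simpa using this
  exact (Nat.prime_iff_prime_int.1 hP.out).not_dvd_one h4

theorem local_norm (P : ℕ) [hP : Fact P.Prime] (j : Fin 3) (w : ℕ) (hw : 0 < w) (N : ℕ) (a : ℤ × ℤ)
    (h1 : |a.1| ≤ N) (h2 : |a.2| ≤ N) :
    padicNorm P (pt P j w) ^ (a.1 + N).toNat * padicNorm P (1 - pt P j w) ^ (a.2 + N).toNat =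
      (P : ℚ) ^ (-((key j a + ![(N : ℤ), N, -2 * N] j) * w)) := by
  have hp : (P : ℚ) ≠ 0 := by exact_mod_cast hP.out.ne_zero
  have e1 : (((a.1 + N).toNat : ℕ) : ℤ) = a.1 + N := Int.toNat_of_nonneg (by
    have := abs_le.1 h1; linarith [this.1])
  have e2 : (((a.2 + N).toNat : ℕ) : ℤ) = a.2 + N := Int.toNat_of_nonneg (by
    have := abs_le.1 h2; linarith [this.1])
  generalize (a.1 + N).toNat = p at e1 ⊢
  generalize (a.2 + N).toNat = r at e2 ⊢
  fin_cases j
  · simp only [pt, key, Fin.zero_eta, Matrix.cons_val_zero, Fin.isValue]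
    rw [norm_pow, norm_sub P w hw, one_pow, mul_one, ← zpow_natCast, ← zpow_mul, e1]
    congr 1
    ring
  · simp only [pt, key, Fin.mk_one, Matrix.cons_val_one, Matrix.cons_val_zero, Fin.isValue]
    rw [norm_sub P w hw, one_pow, one_mul, sub_sub_cancel, norm_pow, ← zpow_natCast, ← zpow_mul, e2]
    congr 1
    ring
  · have e3 : pt P 2 w = ((P : ℚ) ^ w)⁻¹ := rfl
    have e4 : padicNorm P (((P : ℚ) ^ w)⁻¹) = (P : ℚ) ^ (w : ℤ) := by
      have := map_inv₀ (IsAbsoluteValue.toAbsoluteValue (padicNorm P)) ((P : ℚ) ^ w)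
      simp only [IsAbsoluteValue.toAbsoluteValue_apply] at this
      rw [this, norm_pow, ← zpow_neg, neg_neg]
    have e5 : 1 - ((P : ℚ) ^ w)⁻¹ = -((1 - (P : ℚ) ^ w) * ((P : ℚ) ^ w)⁻¹) := by
      field_simp
      ring
    have e6 : padicNorm P (1 - ((P : ℚ) ^ w)⁻¹) = (P : ℚ) ^ (w : ℤ) := by
      rw [e5, padicNorm.neg, padicNorm.mul, norm_sub P w hw, one_mul, e4]
    simp only [Fin.reduceFinMk]
    rw [e3, e4, e6, ← zpow_natCast, ← zpow_mul, ← zpow_natCast, ← zpow_mul, ← zpow_add₀ hp, e1, e2]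
    congr 1
    simp only [key, Matrix.cons_val]
    ring

end Indep

open MvPolynomial in
theorem indep {ι : Type} [Fintype ι] (ρ : ι → Fin 3) (N : ℕ) (s : Finset (ι → ℤ × ℤ))
    (hs : ∀ a ∈ s, ∀ i, |(a i).1| ≤ N ∧ |(a i).2| ≤ N)
    (hk : Set.InjOn (fun (a : ι → ℤ × ℤ) i => key (ρ i) (a i)) s)
    (q : (ι → ℤ × ℤ) → ℤ) (a₀ : ι → ℤ × ℤ) (h0 : a₀ ∈ s) (hq : q a₀ ≠ 0) :
    ∑ a ∈ s, C (q a) * ∏ i, ((X i : MvPolynomial ι ℤ) ^ ((a i).1 + N).toNat *
      (1 - X i) ^ ((a i).2 + N).toNat) ≠ 0 := by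
  classical
  intro hzero
  -- a prime larger than all coefficients
  obtain ⟨P, hPge, hPp⟩ := Nat.exists_infinite_primes (∑ a ∈ s, (q a).natAbs + 1)
  haveI : Fact P.Prime := ⟨hPp⟩
  have hp : (P : ℚ) ≠ 0 := by exact_mod_cast hPp.ne_zero
  have hp1 : (1 : ℚ) < P := by exact_mod_cast hPp.one_lt
  have hqn : ∀ a ∈ s, q a ≠ 0 → padicNorm P (q a : ℚ) = 1 := by
    intro a ha hqa
    rw [padicNorm.int_eq_one_iff]
    intro hd
    have h1 : P ≤ (q a).natAbs := Nat.le_of_dvd (Int.natAbs_pos.2 hqa)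
      (Int.natCast_dvd.1 hd)
    have h2 : (q a).natAbs ≤ ∑ a ∈ s, (q a).natAbs :=
      Finset.single_le_sum (f := fun a => (q a).natAbs) (fun _ _ => Nat.zero_le _) ha
    omega
  -- weights
  let L : ℕ := 8 * N + 3
  let w : ι → ℕ := fun i => L ^ (Fintype.equivFin ι i : ℕ)
  have hw : ∀ i, 0 < w i := fun i => pow_pos (by omega) _
  let x : ι → ℚ := fun i => Indep.pt P (ρ i) (w i)
  let T : (ι → ℤ × ℤ) → ℚ := fun a => (q a : ℚ) *
    ∏ i, (x i ^ ((a i).1 + N).toNat * (1 - x i) ^ ((a i).2 + N).toNat)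
  have hsum : ∑ a ∈ s, T a = 0 := by
    have h1 := congrArg (MvPolynomial.aeval x) hzero
    simp only [map_sum, map_mul, map_prod, map_pow, map_sub, map_one, MvPolynomial.aeval_X,
      map_zero, eq_intCast, map_intCast] at h1
    exact h1
  let om : (ι → ℤ × ℤ) → ℤ := fun a =>
    ∑ i, (key (ρ i) (a i) + ![(N : ℤ), N, -2 * N] (ρ i)) * (w i : ℤ)
  have hT : ∀ a ∈ s, q a ≠ 0 → padicNorm P (T a) = (P : ℚ) ^ (-om a) := by
    intro a ha hqa
    have h1 := map_prod (IsAbsoluteValue.toAbsoluteValue (padicNorm P))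
      (fun i => x i ^ ((a i).1 + N).toNat * (1 - x i) ^ ((a i).2 + N).toNat) Finset.univ
    simp only [map_mul, map_pow, IsAbsoluteValue.toAbsoluteValue_apply] at h1
    show padicNorm P ((q a : ℚ) * _) = _
    rw [padicNorm.mul, hqn a ha hqa, one_mul, h1]
    rw [Finset.prod_congr rfl fun i _ => Indep.local_norm P (ρ i) (w i) (hw i) N (a i)
      (hs a ha i).1 (hs a ha i).2, Indep.prod_zpow _ _ hp, Finset.sum_neg_distrib]
  -- injectivity of om
  have hinj : ∀ a ∈ s, ∀ b ∈ s, om a = om b → a = b := by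
    intro a ha b hb hab
    apply hk ha hb
    funext i
    have hkey : ∀ a ∈ s, ∀ i, |key (ρ i) (a i)| ≤ 2 * N := by
      intro a ha i
      have h1 := abs_le.1 (hs a ha i).1
      have h2 := abs_le.1 (hs a ha i).2
      rw [abs_le]
      generalize ρ i = j
      fin_cases j
      · simp only [key, Fin.zero_eta, Matrix.cons_val_zero]
        constructor <;> linarith [h1.1, h1.2]
      · simp only [key, Fin.mk_one, Matrix.cons_val_one, Matrix.cons_val_zero]
        constructor <;> linarith [h2.1, h2.2]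
      · simp only [key, Fin.reduceFinMk, Matrix.cons_val]
        constructor <;> linarith [h1.1, h1.2, h2.1, h2.2]
    have h1 := Indep.base' (ι := ι) (L : ℤ) (fun i => key (ρ i) (a i) - key (ρ i) (b i)) ?_ ?_ i
    · show key (ρ i) (a i) = key (ρ i) (b i)
      linarith
    · intro i
      have h2 := hkey a ha i
      have h3 := hkey b hb i
      have h4 := abs_sub (key (ρ i) (a i)) (key (ρ i) (b i))
      simp only [L]
      push_cast
      linarith
    · have h2 : om a - om b = 0 := sub_eq_zero.2 hab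
      simp only [om] at h2
      rw [← Finset.sum_sub_distrib] at h2
      rw [← h2]
      refine Finset.sum_congr rfl fun i _ => ?_
      simp only [w]
      push_cast
      ring
  -- minimal term
  let s' := s.filter fun a => q a ≠ 0
  have hs' : s'.Nonempty := ⟨a₀, Finset.mem_filter.2 ⟨h0, hq⟩⟩
  obtain ⟨a₁, ha₁, hmin⟩ := Finset.exists_min_image s' om hs'
  have ha₁' := Finset.mem_filter.1 ha₁
  have hsum' : ∑ a ∈ s', T a = 0 := by
    rw [← hsum]
    refine Finset.sum_subset (Finset.filter_subset _ _) fun a ha hna => ?_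
    have h1 : q a = 0 := by
      by_contra h
      exact hna (Finset.mem_filter.2 ⟨ha, h⟩)
    simp [T, h1]
  rw [← Finset.add_sum_erase _ _ ha₁] at hsum'
  have h1 : padicNorm P (∑ a ∈ s'.erase a₁, T a) < (P : ℚ) ^ (-om a₁) := by
    refine padicNorm.sum_lt' (fun a ha => ?_) (zpow_pos (by positivity) _)
    have ha2 := Finset.mem_of_mem_erase ha
    have ha3 := Finset.mem_filter.1 ha2
    rw [hT a ha3.1 ha3.2]
    refine zpow_lt_zpow_right₀ hp1 ?_
    have h2 := hmin a ha2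
    have h3 : om a ≠ om a₁ := fun h =>
      Finset.ne_of_mem_erase ha (hinj a ha3.1 a₁ ha₁'.1 h)
    omega
  have h2 : ∑ a ∈ s'.erase a₁, T a = -T a₁ := by linarith
  rw [h2, padicNorm.neg, hT a₁ ha₁'.1 ha₁'.2] at h1
  exact lt_irrefl _ h1

end Pool.Agent.KP
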