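import Pool.Agent.Lib.MP_c95b3b_ag_KP.Defs
import Pool.Agent.Lib.MP_c95b3b_ag_KP.Indep
import Pool.Agent.Lib.MP_c95b3b_ag_KP.Expand
import Pool.Agent.Lib.MP_c95b3b_ag_KP.Count
import Pool.Agent.Lib.MP_c95b3b_ag_KP.Chars

/-! Project KP (MP_c95b3b_ag), module KQ: the auxiliary polynomial. -/

namespace Pool.Agent.KP

open Pool.Agent.L3 Module

namespace KQ

/-- `vec` as a linear map -/
def vecL {ι : Type} (ρ : ι → Fin 3) : (ι → ℝ) →ₗ[ℝ] (ι → ℝ × ℝ) where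
  toFun := vec ρ
  map_add' := fun v w => by
    funext i
    simp [vec, add_smul]
  map_smul' := fun c v => by
    funext i
    simp [vec, mul_smul]

theorem vecL_inj {ι : Type} (ρ : ι → Fin 3) : Function.Injective (vecL ρ) := by
  intro v w h
  funext i
  have h1 : vec ρ v i = vec ρ w i := congrFun h i
  rw [vec_apply, vec_apply] at h1
  have h2 : (v i - w i) • ray (ρ i) = 0 := by rw [sub_smul, h1, sub_self]
  rcases smul_eq_zero.mp h2 with h3 | h3
  · linarith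
  · exact absurd h3 (ray_ne_zero _)

/-- the lengths of the members of `F` in the cell -/
def wsp {ι : Type} (F : Submodule ℝ (ι → ℝ × ℝ)) (R : Finset ι) (ρ : ι → Fin 3) :
    Submodule ℝ (ι → ℝ) := (F ⊓ cel R ρ).comap (vecL ρ)

theorem mem_wsp {ι : Type} {F : Submodule ℝ (ι → ℝ × ℝ)} {R : Finset ι} {ρ : ι → Fin 3}
    {w : ι → ℝ} (hw : w ∈ wsp F R ρ) : vec ρ w ∈ F ∧ ∀ i, i ∉ R → w i = 0 := by
  have h : vec ρ w ∈ F ⊓ cel R ρ := hw
  refine ⟨h.1, ?_⟩
  obtain ⟨l, hl, h2⟩ := mem_cel.mp h.2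
  have h3 : w = l := vecL_inj ρ h2
  rw [h3]
  exact hl

theorem finrank_wsp {ι : Type} [Fintype ι] (F : Submodule ℝ (ι → ℝ × ℝ)) (R : Finset ι)
    (ρ : ι → Fin 3) : finrank ℝ (wsp F R ρ) = finrank ℝ (F ⊓ cel R ρ : Submodule ℝ _) := by
  have h1 : (wsp F R ρ).map (vecL ρ) = F ⊓ cel R ρ := by
    unfold wsp
    rw [Submodule.map_comap_eq]
    refine inf_eq_right.mpr ?_
    intro v hv
    obtain ⟨l, _, h2⟩ := mem_cel.mp hv.2
    exact ⟨l, h2.symm⟩
  rw [← h1]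
  exact (Submodule.equivMapOfInjective (vecL ρ) (vecL_inj ρ) (wsp F R ρ)).finrank_eq

/-- a linear system over the integers with more unknowns than equations -/
theorem exists_sol {A B : Type} [Fintype A] [Fintype B] [DecidableEq A] [DecidableEq B]
    (M : A → B → ℤ) (h : Fintype.card A < Fintype.card B) :
    ∃ t : B → ℤ, t ≠ 0 ∧ ∀ a, ∑ b, t b * M a b = 0 := by
  rcases Nat.eq_zero_or_pos (Fintype.card A) with h0 | h0
  · have hB : 0 < Fintype.card B := by omega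
    obtain ⟨b⟩ := Fintype.card_pos_iff.mp hB
    refine ⟨fun _ => 1, fun h1 => ?_, fun a => ?_⟩
    · have := congrFun h1 b
      simp at this
    · exact absurd (Fintype.card_pos_iff.mpr ⟨a⟩) (by omega)
  · obtain ⟨t, h1, h2, _⟩ := Int.Matrix.exists_ne_zero_int_vec_norm_le (Matrix.of M) h h0
    refine ⟨t, h1, fun a => ?_⟩
    have h3 := congrFun h2 a
    simp only [Matrix.mulVec, dotProduct, Matrix.of_apply, Pi.zero_apply] at h3
    rw [← h3]
    exact Finset.sum_congr rfl fun b _ => mul_comm _ _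

/-- the choice of the parameters -/
theorem params (C c A : ℝ) (hC : 0 < C) (hc : 0 < c) (hA : 0 ≤ A) (x m : ℕ) (hxm : x + 1 ≤ m) :
    ∃ κ : ℝ, 0 < κ ∧ κ ≤ 1 ∧ ∀ N : ℕ, 1 ≤ N →
      C * ((A + 1) * κ * N) ^ (x + 1) * (((4 * N : ℕ) : ℝ) + 1) ^ (m - (x + 1)) <
        c * κ ^ x * (N : ℝ) ^ m := by
  have hD : 0 < C * (A + 1) ^ (x + 1) * 5 ^ m := by positivity
  refine ⟨min 1 (c / (2 * (C * (A + 1) ^ (x + 1) * 5 ^ m))), ?_, min_le_left _ _, ?_⟩
  · positivity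
  intro N hN
  set κ := min 1 (c / (2 * (C * (A + 1) ^ (x + 1) * 5 ^ m))) with hκ
  have hκ0 : 0 < κ := by positivity
  have hκ1 : κ * (2 * (C * (A + 1) ^ (x + 1) * 5 ^ m)) ≤ c := by
    have h1 : κ ≤ c / (2 * (C * (A + 1) ^ (x + 1) * 5 ^ m)) := min_le_right _ _
    exact (le_div_iff₀ (by positivity)).mp h1
  have hN' : (1 : ℝ) ≤ N := by exact_mod_cast hN
  have hN0 : (0 : ℝ) < N := by linarith
  have h5 : (((4 * N : ℕ) : ℝ) + 1) ^ (m - (x + 1)) ≤ (5 * N) ^ (m - (x + 1)) := by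
    refine pow_le_pow_left₀ (by positivity) ?_ _
    push_cast
    linarith
  have h55 : (5 : ℝ) ^ (m - (x + 1)) ≤ 5 ^ m := by
    refine pow_le_pow_right₀ (by norm_num) (by omega)
  calc C * ((A + 1) * κ * N) ^ (x + 1) * (((4 * N : ℕ) : ℝ) + 1) ^ (m - (x + 1))
      ≤ C * ((A + 1) * κ * N) ^ (x + 1) * (5 * N) ^ (m - (x + 1)) := by gcongr
    _ = (C * (A + 1) ^ (x + 1) * 5 ^ (m - (x + 1)) * κ) * κ ^ x * (N : ℝ) ^ m := by
        have h6 : (N : ℝ) ^ m = (N : ℝ) ^ (x + 1) * (N : ℝ) ^ (m - (x + 1)) := by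
          rw [← pow_add]
          congr 1
          omega
        rw [h6, mul_pow, mul_pow, mul_pow, pow_succ κ x]
        ring
    _ ≤ (C * (A + 1) ^ (x + 1) * 5 ^ m * κ) * κ ^ x * (N : ℝ) ^ m := by gcongr
    _ < c * κ ^ x * (N : ℝ) ^ m := by
        have h7 : C * (A + 1) ^ (x + 1) * 5 ^ m * κ < c := by
          nlinarith [mul_pos hD hκ0]
        have h8 : 0 < κ ^ x * (N : ℝ) ^ m := by positivity
        nlinarith [mul_lt_mul_of_pos_right h7 h8]

end KQ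

open MvPolynomial in
theorem exists_Q {ι : Type} [Fintype ι] [DecidableEq ι] (F : Submodule ℝ (ι → ℝ × ℝ)) (x : ℕ)
    (ρ' : ι → Fin 3) (h1 : finrank ℝ (F ⊓ cel Finset.univ ρ' : Submodule ℝ _) ≤ x)
    (R : Finset ι) (ρ : ι → Fin 3) (h2 : x < finrank ℝ (F ⊓ cel R ρ : Submodule ℝ _))
    (A : ℝ) (hA : 0 ≤ A) :
    ∃ (κ : ℝ) (N : ℕ) (s : Finset (ι → ℤ × ℤ)) (q : (ι → ℤ × ℤ) → ℤ) (c : (ι → ℕ) → ℤ)
      (Q : MvPolynomial ι ℤ), 0 < κ ∧ κ ≤ 1 ∧ 1 ≤ N ∧ Q ≠ 0 ∧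
      (∀ a ∈ s, (∀ i, |(a i).1| ≤ N ∧ |(a i).2| ≤ N) ∧ ∀ f ∈ F, |pair a f| ≤ κ * N * ‖f‖) ∧
      (∀ (K : Type) [Field K] (U : ι → K), aeval U Q = ∑ a ∈ s, (q a : K) *
        ∏ i, (U i ^ ((a i).1 + N).toNat * (1 - U i) ^ ((a i).2 + N).toNat)) ∧
      (∀ (K : Type) [Field K] (U : ι → K),
        aeval U Q = ∑ α ∈ Fintype.piFinset fun _ : ι => Finset.range (4 * N + 1),
          (c α : K) * ∏ i, loc (ρ i) (4 * N) (α i) (U i)) ∧
      ∀ α, c α ≠ 0 → ∀ (l : ι → ℝ) (f : ι → ℝ × ℝ) (μ : ℝ), f ∈ F → 0 ≤ μ →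
        (∀ i, 0 ≤ l i) → (∀ i ∈ R, μ ≤ l i) →
        A * κ * N * μ - κ * N * ‖f‖ - 2 * Fintype.card ι * N * ‖vec ρ l - f‖ ≤
          ∑ i, ((α i : ℝ) - shift (ρ i) N) * l i := by
  classical
  have hfr : x + 1 ≤ finrank ℝ (KQ.wsp F R ρ) := by
    rw [KQ.finrank_wsp]
    exact h2
  have hxm : x + 1 ≤ Fintype.card ι := by
    have h3 := Submodule.finrank_le (KQ.wsp F R ρ)
    rw [Module.finrank_fintype_fun_eq_card] at h3
    omega
  obtain ⟨C₀, hC₀, hcount⟩ := count (KQ.wsp F R ρ) (x + 1) hfr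
  obtain ⟨c₀, hc₀, hchar⟩ := many_chars F x ρ' h1
  obtain ⟨κ, hκ0, hκ1, hκ⟩ := KQ.params C₀ c₀ A hC₀ hc₀ hA x (Fintype.card ι) hxm
  obtain ⟨N0, hN0⟩ := hchar κ hκ0 hκ1
  obtain ⟨N1, hN1⟩ := exists_nat_ge (1 / κ)
  obtain ⟨N, hNa, hNb, hNc⟩ : ∃ N : ℕ, N0 ≤ N ∧ 1 ≤ N ∧ N1 ≤ N :=
    ⟨max N0 (max 1 N1), le_max_left _ _, (le_max_left _ _).trans (le_max_right _ _),
      (le_max_right _ _).trans (le_max_right _ _)⟩
  obtain ⟨s, hs1, hs2, hs3, hs4⟩ := hN0 N hNa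
  have hNr : (1 : ℝ) ≤ N := by exact_mod_cast hNb
  have hT : 1 ≤ (A + 1) * κ * N := by
    have h3 : 1 ≤ κ * N := by
      have h4 : 1 / κ ≤ N := hN1.trans (by exact_mod_cast hNc)
      rw [div_le_iff₀ hκ0] at h4
      linarith
    nlinarith [mul_nonneg hA (zero_le_one.trans h3)]
  -- the killed indices
  set Kil : Finset (ι → Fin (4 * N + 1)) := Finset.univ.filter fun α =>
    ∀ w ∈ KQ.wsp F R ρ, |∑ i, (((α i : ℕ) : ℝ) - (shift (ρ i) N : ℝ)) * w i| ≤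
      ((A + 1) * κ * N) * ‖w‖ with hKil
  have hcard : Kil.card < s.card := by
    have h3 := hcount (4 * N) ((A + 1) * κ * N) (fun i => (shift (ρ i) N : ℝ)) hT
    have h4 := hκ N hNb
    have h5 : ((Kil.card : ℕ) : ℝ) < s.card := by
      refine lt_of_le_of_lt (le_of_eq_of_le ?_ h3) (lt_of_lt_of_le h4 hs4)
      rw [hKil]
      refine congrArg (fun m : Finset (ι → Fin (4 * N + 1)) => ((m.card : ℕ) : ℝ)) ?_
      ext α
      simp only [Finset.mem_filter, Finset.mem_univ]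
    exact_mod_cast h5
  choose e he1 he2 using fun i => expand (ρ i) N
  obtain ⟨t, ht0, ht⟩ := KQ.exists_sol
    (fun (α : {α // α ∈ Kil}) (a : {a // a ∈ s}) => ∏ i, e i (a.1 i) (α.1 i : ℕ))
    (by simpa [Fintype.card_coe] using hcard)
  set q : (ι → ℤ × ℤ) → ℤ := fun a => if h : a ∈ s then t ⟨a, h⟩ else 0 with hq
  have hqs : ∀ a : {a // a ∈ s}, q a.1 = t a := by
    intro a
    simp only [hq]
    rw [dif_pos a.2]
  have hqsum : ∀ g : (ι → ℤ × ℤ) → ℤ, ∑ a ∈ s, q a * g a = ∑ a : {a // a ∈ s}, t a * g a.1 := by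
    intro g
    rw [← Finset.sum_attach]
    rw [Finset.univ_eq_attach]
    refine Finset.sum_congr rfl fun a _ => ?_
    rw [hqs a]
  obtain ⟨a₀, ha₀⟩ : ∃ a, t a ≠ 0 := by
    by_contra hcon
    push Not at hcon
    exact ht0 (funext hcon)
  have hq₀ : q a₀.1 ≠ 0 := by rw [hqs]; exact ha₀
  set c : (ι → ℕ) → ℤ := fun α =>
    if (∀ i, α i < 4 * N + 1) then ∑ a ∈ s, q a * ∏ i, e i (a i) (α i) else 0 with hc
  set Q : MvPolynomial ι ℤ := ∑ a ∈ s, MvPolynomial.C (q a) * ∏ i,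
    ((X i : MvPolynomial ι ℤ) ^ ((a i).1 + N).toNat * (1 - X i) ^ ((a i).2 + N).toNat) with hQ
  have hae : ∀ (K : Type) [Field K] (U : ι → K), aeval U Q = ∑ a ∈ s, (q a : K) *
      ∏ i, (U i ^ ((a i).1 + N).toNat * (1 - U i) ^ ((a i).2 + N).toNat) := by
    intro K _ U
    rw [hQ, map_sum]
    refine Finset.sum_congr rfl fun a _ => ?_
    rw [map_mul, map_prod]
    congr 1
    · simp
    · refine Finset.prod_congr rfl fun i _ => ?_
      simp
  refine ⟨κ, N, s, q, c, Q, hκ0, hκ1, hNb, indep ρ' N s hs1 hs3 q a₀.1 a₀.2 hq₀,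
    fun a ha => ⟨hs1 a ha, hs2 a ha⟩, hae, ?_, ?_⟩
  · intro K _ U
    rw [hae K U]
    have h3 : ∀ a ∈ s, (q a : K) * ∏ i, (U i ^ ((a i).1 + N).toNat *
        (1 - U i) ^ ((a i).2 + N).toNat) =
        ∑ α ∈ Fintype.piFinset fun _ : ι => Finset.range (4 * N + 1),
          (q a : K) * ((∏ i, (e i (a i) (α i) : K)) * ∏ i, loc (ρ i) (4 * N) (α i) (U i)) := by
      intro a ha
      rw [← Finset.mul_sum]
      congr 1
      rw [Finset.prod_congr rfl fun i _ => he2 i (a i) (hs1 a ha i).1 (hs1 a ha i).2 K (U i)]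
      rw [Finset.prod_univ_sum]
      refine Finset.sum_congr rfl fun α _ => ?_
      rw [Finset.prod_mul_distrib]
    rw [Finset.sum_congr rfl h3, Finset.sum_comm]
    refine Finset.sum_congr rfl fun α hα => ?_
    have hα' : ∀ i, α i < 4 * N + 1 := by
      intro i
      have := Fintype.mem_piFinset.mp hα i
      simpa using this
    simp only [hc]
    rw [if_pos hα']
    push_cast
    rw [Finset.sum_mul]
    refine Finset.sum_congr rfl fun a _ => ?_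
    ring
  · intro α hα l f μ hf hμ hl hlR
    have hα' : ∀ i, α i < 4 * N + 1 := by
      by_contra hcon
      apply hα
      simp only [hc]
      rw [if_neg hcon]
    have hcα : c α = ∑ a ∈ s, q a * ∏ i, e i (a i) (α i) := by
      simp only [hc]
      rw [if_pos hα']
    -- a is not killed
    set β : ι → Fin (4 * N + 1) := fun i => ⟨α i, hα' i⟩ with hβ
    have hnk : β ∉ Kil := by
      intro hk
      apply hα
      rw [hcα, hqsum]
      exact ht ⟨β, hk⟩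
    obtain ⟨w₀, hw₀, hw₀'⟩ : ∃ w ∈ KQ.wsp F R ρ, ((A + 1) * κ * N) * ‖w‖ <
        |∑ i, ((α i : ℝ) - (shift (ρ i) N : ℝ)) * w i| := by
      by_contra hcon
      push Not at hcon
      apply hnk
      rw [hKil]
      simp only [Finset.mem_filter, Finset.mem_univ, true_and]
      exact hcon
    have hw₀n : 0 < ‖w₀‖ := by
      rw [norm_pos_iff]
      rintro rfl
      simp at hw₀'
    obtain ⟨w, hw, hwn, hwT⟩ : ∃ w ∈ KQ.wsp F R ρ, ‖w‖ = 1 ∧ ((A + 1) * κ * N) <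
        ∑ i, ((α i : ℝ) - (shift (ρ i) N : ℝ)) * w i := by
      have h3 : ∀ r : ℝ, ∑ i, ((α i : ℝ) - (shift (ρ i) N : ℝ)) * (r • w₀) i =
          r * ∑ i, ((α i : ℝ) - (shift (ρ i) N : ℝ)) * w₀ i := by
        intro r
        rw [Finset.mul_sum]
        refine Finset.sum_congr rfl fun i _ => ?_
        simp only [Pi.smul_apply, smul_eq_mul]
        ring
      have h4 : ((A + 1) * κ * N) < ‖w₀‖⁻¹ *
          |∑ i, ((α i : ℝ) - (shift (ρ i) N : ℝ)) * w₀ i| := by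
        rw [inv_mul_eq_div, lt_div_iff₀ hw₀n]
        exact hw₀'
      rcases le_or_gt 0 (∑ i, ((α i : ℝ) - (shift (ρ i) N : ℝ)) * w₀ i) with h5 | h5
      · refine ⟨‖w₀‖⁻¹ • w₀, Submodule.smul_mem _ _ hw₀, ?_, ?_⟩
        · rw [norm_smul, norm_inv, norm_norm, inv_mul_cancel₀ hw₀n.ne']
        · rw [h3]
          rwa [abs_of_nonneg h5] at h4
      · refine ⟨(-‖w₀‖⁻¹) • w₀, Submodule.smul_mem _ _ hw₀, ?_, ?_⟩
        · rw [norm_smul, norm_neg, norm_inv, norm_norm, inv_mul_cancel₀ hw₀n.ne']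
        · rw [h3]
          rw [abs_of_neg h5] at h4
          linarith
    obtain ⟨hwF, hwR⟩ := KQ.mem_wsp hw
    -- a character which occurs
    obtain ⟨a, ha, hqa⟩ : ∃ a ∈ s, q a * ∏ i, e i (a i) (α i) ≠ 0 := by
      by_contra hcon
      push Not at hcon
      apply hα
      rw [hcα]
      exact Finset.sum_eq_zero hcon
    have hkey : ∀ i, (key (ρ i) (a i) : ℝ) ≤ (α i : ℝ) - (shift (ρ i) N : ℝ) := by
      intro i
      have h3 : e i (a i) (α i) ≠ 0 := by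
        intro h0
        apply hqa
        rw [Finset.prod_eq_zero (Finset.mem_univ i) h0, mul_zero]
      have h4 : ¬ ((α i : ℤ) - shift (ρ i) N < key (ρ i) (a i)) := fun h5 => h3 (he1 i _ _ h5)
      have h5 := not_lt.mp h4
      exact_mod_cast h5
    have hpos : ∀ i, 0 ≤ l i - μ * w i := by
      intro i
      by_cases hi : i ∈ R
      · have h3 : |w i| ≤ 1 := by
          rw [← hwn]
          exact norm_le_pi_norm w i
        have h4 := (abs_le.mp h3).2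
        nlinarith [hlR i hi]
      · rw [hwR i hi, mul_zero, sub_zero]
        exact hl i
    have hmain : ∑ i, (key (ρ i) (a i) : ℝ) * (l i - μ * w i) ≤
        ∑ i, ((α i : ℝ) - (shift (ρ i) N : ℝ)) * (l i - μ * w i) :=
      Finset.sum_le_sum fun i _ => mul_le_mul_of_nonneg_right (hkey i) (hpos i)
    have e1 : ∑ i, (key (ρ i) (a i) : ℝ) * (l i - μ * w i) =
        - pair a (vec ρ l) + μ * pair a (vec ρ w) := by
      rw [pair_vec, pair_vec, neg_neg, mul_neg, Finset.mul_sum, ← sub_eq_add_neg,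
        ← Finset.sum_sub_distrib]
      refine Finset.sum_congr rfl fun i _ => ?_
      ring
    have e2 : ∑ i, ((α i : ℝ) - (shift (ρ i) N : ℝ)) * (l i - μ * w i) =
        ∑ i, ((α i : ℝ) - (shift (ρ i) N : ℝ)) * l i -
          μ * ∑ i, ((α i : ℝ) - (shift (ρ i) N : ℝ)) * w i := by
      rw [Finset.mul_sum, ← Finset.sum_sub_distrib]
      refine Finset.sum_congr rfl fun i _ => ?_
      ring
    have b1 : |pair a (vec ρ l)| ≤ κ * N * ‖f‖ + 2 * Fintype.card ι * N * ‖vec ρ l - f‖ := by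
      have h3 : pair a (vec ρ l) = pair a f + pair a (vec ρ l - f) := by
        rw [pair_sub]
        ring
      rw [h3]
      exact (abs_add_le _ _).trans (add_le_add (hs2 a ha f hf) (abs_pair_le a _ N (hs1 a ha)))
    have b2 : |pair a (vec ρ w)| ≤ κ * N := by
      have h3 := hs2 a ha _ hwF
      rwa [norm_vec, hwn, mul_one] at h3
    have b3 := (abs_le.mp b1).2
    have b4 := (abs_le.mp b2).1
    have b5 : μ * (-(κ * N)) ≤ μ * pair a (vec ρ w) := mul_le_mul_of_nonneg_left b4 hμ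
    have b6 : μ * ((A + 1) * κ * N) ≤ μ * ∑ i, ((α i : ℝ) - (shift (ρ i) N : ℝ)) * w i :=
      mul_le_mul_of_nonneg_left hwT.le hμ
    rw [e1, e2] at hmain
    nlinarith [hmain, b3, b5, b6]

end Pool.Agent.KP
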