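import Pool.Agent.Lib.MP_c95b3b_ag_KP.Defs

/-! Project KP (MP_c95b3b_ag): bounds at one place. -/

namespace Pool.Agent.KP

open Pool.Agent.L3 Module

namespace Bounds

variable {ι : Type} {K : Type} [Field K] {S : Subring K} (P : Places K S)

theorem lg_prod (w : P.Pl) (s : Finset ι) (t : ι → K) (ht : ∀ i ∈ s, t i ≠ 0) :
    P.lg w (∏ i ∈ s, t i) = ∑ i ∈ s, P.lg w (t i) := by
  classical
  induction s using Finset.induction_on with
  | empty => simpa using P.lg_one w
  | insert a s ha ih =>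
    rw [Finset.prod_insert ha, Finset.sum_insert ha,
      P.lg_mul w (ht a (Finset.mem_insert_self a s)), ih]
    · intro i hi
      exact ht i (Finset.mem_insert_of_mem hi)
    · refine Finset.prod_ne_zero_iff.2 fun i hi => ht i (Finset.mem_insert_of_mem hi)

theorem le_exp_of_log_le {x B : ℝ} (hx : 0 < x) (h : Real.log x ≤ B) : x ≤ Real.exp B := by
  calc x = Real.exp (Real.log x) := (Real.exp_log hx).symm
    _ ≤ Real.exp B := Real.exp_le_exp.2 h

/-- the bound of a sum of terms at one place -/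
theorem lg_sum_le (w : P.Pl) (s : Finset ι) (c : ι → ℤ) (t : ι → K) (z : K) (hz : z ≠ 0)
    (hzs : z = ∑ a ∈ s, (c a : K) * t a) (B : ℝ)
    (h : ∀ a ∈ s, c a ≠ 0 → t a ≠ 0 ∧ P.lg w (t a) ≤ B) :
    P.lg w z ≤ B + Real.log (1 + ∑ a ∈ s, |(c a : ℝ)|) * P.arch w := by
  have hs0 : 0 ≤ ∑ a ∈ s, |(c a : ℝ)| := Finset.sum_nonneg fun a _ => abs_nonneg _
  rcases w with i | j
  · rw [P.arch_inl, mul_one, P.lg_inl]
    have hz0 : 0 < ‖P.σ i z‖ := by
      rw [norm_pos_iff]
      simpa using hz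
    have h1 : ‖P.σ i z‖ ≤ (1 + ∑ a ∈ s, |(c a : ℝ)|) * Real.exp B := by
      rw [hzs, map_sum]
      refine (norm_sum_le _ _).trans ?_
      have h2 : ∀ a ∈ s, ‖P.σ i ((c a : K) * t a)‖ ≤ |(c a : ℝ)| * Real.exp B := by
        intro a ha
        by_cases hc : c a = 0
        · simp [hc]
        · obtain ⟨h3, h4⟩ := h a ha hc
          rw [P.lg_inl] at h4
          rw [map_mul, norm_mul, map_intCast, Complex.norm_intCast]
          apply mul_le_mul_of_nonneg_left _ (abs_nonneg _)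
          exact le_exp_of_log_le (by rw [norm_pos_iff]; simpa using h3) h4
      refine (Finset.sum_le_sum h2).trans ?_
      rw [← Finset.sum_mul]
      exact mul_le_mul_of_nonneg_right (by linarith) (Real.exp_pos B).le
    calc Real.log ‖P.σ i z‖ ≤ Real.log ((1 + ∑ a ∈ s, |(c a : ℝ)|) * Real.exp B) :=
          Real.log_le_log hz0 h1
      _ = Real.log (1 + ∑ a ∈ s, |(c a : ℝ)|) + B := by
          rw [Real.log_mul (by linarith) (Real.exp_pos B).ne', Real.log_exp]
      _ = B + Real.log (1 + ∑ a ∈ s, |(c a : ℝ)|) := add_comm _ _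
  · rw [P.arch_inr, mul_zero, add_zero, P.lg_inr]
    have hz0 : 0 < P.v j z := (P.v j).pos hz
    have h1 : P.v j z ≤ Real.exp B := by
      rw [hzs]
      apply P.v_sum_le j s _ (Real.exp_pos B).le
      intro a ha
      by_cases hc : c a = 0
      · simp only [hc, Int.cast_zero, zero_mul, map_zero]
        exact (Real.exp_pos B).le
      · obtain ⟨h3, h4⟩ := h a ha hc
        rw [P.lg_inr] at h4
        rw [map_mul]
        have h5 : P.v j (t a) ≤ Real.exp B := le_exp_of_log_le ((P.v j).pos h3) h4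
        calc P.v j (c a : K) * P.v j (t a) ≤ 1 * Real.exp B :=
              mul_le_mul (P.v_int j _) h5 ((P.v j).nonneg _) zero_le_one
          _ = Real.exp B := one_mul _
    calc Real.log (P.v j z) ≤ Real.log (Real.exp B) := Real.log_le_log hz0 h1
      _ = B := Real.log_exp B

/-- the terms near a corner -/
theorem loc_ne_zero (j : Fin 3) (d α : ℕ) (x : K) (hx : x ≠ 0 ∧ x ≠ 1) : loc j d α x ≠ 0 := by
  have h1 : 1 - x ≠ 0 := sub_ne_zero.2 hx.2.symm
  fin_cases j
  · simpa [loc] using fun h => absurd h hx.1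
  · simpa [loc] using fun h => absurd h h1
  · simpa [loc] using fun h => absurd h hx.1

/-- the error at one coordinate -/
theorem loc_bound (w : P.Pl) (j : Fin 3) (N α : ℕ) (hα : α ≤ 4 * N) (x : K) (l : ℝ) :
    P.lg w (loc j (4 * N) α x) ≤ N * (P.lg w x + P.lg w (1 - x)) -
      ((α : ℝ) - shift j N) * l + 6 * N * ‖P.lv w x - l • ray j‖ := by
  have hN : (0 : ℝ) ≤ N := Nat.cast_nonneg N
  have hα0 : (0 : ℝ) ≤ α := Nat.cast_nonneg α
  have hα' : (α : ℝ) ≤ 4 * N := by exact_mod_cast hα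
  set e := P.lv w x - l • ray j with he
  have e1 : |e.1| ≤ ‖e‖ := norm_fst_le e
  have e2 : |e.2| ≤ ‖e‖ := norm_snd_le e
  have hE : 0 ≤ ‖e‖ := norm_nonneg e
  have key : ∀ a b : ℝ, |a| ≤ 3 * N → |b| ≤ N → a * e.1 + b * e.2 ≤ 6 * N * ‖e‖ ∧
      b * e.1 + a * e.2 ≤ 6 * N * ‖e‖ := by
    intro a b ha hb
    have k1 : ∀ c d : ℝ, ∀ u : ℝ, |c| ≤ d → |u| ≤ ‖e‖ → c * u ≤ d * ‖e‖ := by
      intro c d u hc hu
      calc c * u ≤ |c * u| := le_abs_self _
        _ = |c| * |u| := abs_mul _ _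
        _ ≤ d * ‖e‖ := mul_le_mul hc hu (abs_nonneg _) ((abs_nonneg _).trans hc)
    have hNe : 0 ≤ N * ‖e‖ := mul_nonneg hN hE
    constructor
    · have := k1 a _ e.1 ha e1
      have := k1 b _ e.2 hb e2
      nlinarith
    · have := k1 b _ e.1 hb e1
      have := k1 a _ e.2 ha e2
      nlinarith
  fin_cases j
  · have h1 : e.1 = P.lg w x + l := by simp [he, ray, Places.lv]
    have h2 : e.2 = P.lg w (1 - x) := by simp [he, ray, Places.lv]
    have hl : P.lg w (loc 0 (4 * N) α x) = α * P.lg w x := by simp [loc, P.lg_pow]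
    have hs : (shift 0 N : ℝ) = N := by simp [shift]
    have hk := (key ((α : ℝ) - N) (-N) (by rw [abs_le]; constructor <;> linarith)
      (by rw [abs_neg, abs_of_nonneg hN])).1
    change P.lg w (loc 0 (4 * N) α x) ≤ N * (P.lg w x + P.lg w (1 - x)) -
      ((α : ℝ) - shift 0 N) * l + 6 * N * ‖e‖
    rw [hl, hs]
    rw [h1, h2] at hk
    linarith
  · have h1 : e.1 = P.lg w x := by simp [he, ray, Places.lv]
    have h2 : e.2 = P.lg w (1 - x) + l := by simp [he, ray, Places.lv]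
    have hl : P.lg w (loc 1 (4 * N) α x) = α * P.lg w (1 - x) := by simp [loc, P.lg_pow]
    have hs : (shift 1 N : ℝ) = N := by simp [shift]
    have hk := (key ((α : ℝ) - N) (-N) (by rw [abs_le]; constructor <;> linarith)
      (by rw [abs_neg, abs_of_nonneg hN])).2
    change P.lg w (loc 1 (4 * N) α x) ≤ N * (P.lg w x + P.lg w (1 - x)) -
      ((α : ℝ) - shift 1 N) * l + 6 * N * ‖e‖
    rw [hl, hs]
    rw [h1, h2] at hk
    linarith
  · have h1 : e.1 = P.lg w x - l := by simp [he, ray, Places.lv]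
    have h2 : e.2 = P.lg w (1 - x) - l := by simp [he, ray, Places.lv]
    have hl : P.lg w (loc 2 (4 * N) α x) = (4 * N - α) * P.lg w x := by
      simp [loc, P.lg_pow, Nat.cast_sub hα]
    have hs : (shift 2 N : ℝ) = 2 * N := by simp [shift]
    have hk := (key (3 * N - (α : ℝ)) (-N) (by rw [abs_le]; constructor <;> linarith)
      (by rw [abs_neg, abs_of_nonneg hN])).1
    change P.lg w (loc 2 (4 * N) α x) ≤ N * (P.lg w x + P.lg w (1 - x)) -
      ((α : ℝ) - shift 2 N) * l + 6 * N * ‖e‖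
    rw [hl, hs]
    rw [h1, h2] at hk
    linarith

end Bounds

section
open MvPolynomial
variable {ι : Type} [Fintype ι] {K : Type} [Field K] {S : Subring K} (P : Places K S) (U : ι → K)

open Classical in
theorem bound_all (hU : ∀ i, U i ≠ 0 ∧ U i ≠ 1) (N : ℕ) (s : Finset (ι → ℤ × ℤ))
    (q : (ι → ℤ × ℤ) → ℤ) (z : K) (hz : z ≠ 0)
    (hzq : z = ∑ a ∈ s, (q a : K) *
      ∏ i, (U i ^ ((a i).1 + N).toNat * (1 - U i) ^ ((a i).2 + N).toNat))
    (κ : ℝ) (f : ι → ℝ × ℝ) (hs : ∀ a ∈ s, (∀ i, |(a i).1| ≤ N ∧ |(a i).2| ≤ N) ∧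
      |pair a f| ≤ κ * N * ‖f‖) (w : P.Pl) :
    P.lg w z - N * ∑ i, (P.lg w (U i) + P.lg w (1 - U i)) ≤
      κ * N * ‖f‖ + 2 * Fintype.card ι * N * ‖lvv P U w - f‖ +
        Real.log (1 + ∑ a ∈ s, |(q a : ℝ)|) * P.arch w := by
  have hU1 : ∀ i, 1 - U i ≠ 0 := fun i => sub_ne_zero.2 (hU i).2.symm
  have key := Bounds.lg_sum_le P w s q _ z hz hzq
    (N * ∑ i, (P.lg w (U i) + P.lg w (1 - U i)) + (κ * N * ‖f‖ +
      2 * Fintype.card ι * N * ‖lvv P U w - f‖)) (by
    intro a ha _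
    refine ⟨Finset.prod_ne_zero_iff.2 fun i _ =>
      mul_ne_zero (pow_ne_zero _ (hU i).1) (pow_ne_zero _ (hU1 i)), ?_⟩
    rw [Bounds.lg_prod P w _ _ fun i _ =>
      mul_ne_zero (pow_ne_zero _ (hU i).1) (pow_ne_zero _ (hU1 i))]
    obtain ⟨h1, h2⟩ := hs a ha
    have h3 : ∑ i, P.lg w (U i ^ ((a i).1 + N).toNat * (1 - U i) ^ ((a i).2 + N).toNat) =
        N * ∑ i, (P.lg w (U i) + P.lg w (1 - U i)) + pair a (lvv P U w) := by
      unfold pair
      rw [Finset.mul_sum, ← Finset.sum_add_distrib]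
      refine Finset.sum_congr rfl fun i _ => ?_
      rw [P.lg_mul w (pow_ne_zero _ (hU i).1) (pow_ne_zero _ (hU1 i)), P.lg_pow, P.lg_pow]
      have e1 : ((((a i).1 + N).toNat : ℕ) : ℝ) = (a i).1 + N := by
        have : ((((a i).1 + N).toNat : ℕ) : ℤ) = (a i).1 + N :=
          Int.toNat_of_nonneg (by have := (abs_le.1 (h1 i).1).1; linarith)
        exact_mod_cast this
      have e2 : ((((a i).2 + N).toNat : ℕ) : ℝ) = (a i).2 + N := by
        have : ((((a i).2 + N).toNat : ℕ) : ℤ) = (a i).2 + N :=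
          Int.toNat_of_nonneg (by have := (abs_le.1 (h1 i).2).1; linarith)
        exact_mod_cast this
      rw [e1, e2]
      change _ = _ + (((a i).1 : ℝ) * P.lg w (U i) + ((a i).2 : ℝ) * P.lg w (1 - U i))
      ring
    rw [h3]
    have h4 := abs_pair_le a (lvv P U w - f) N h1
    rw [pair_sub] at h4
    have h5 := le_abs_self (pair a f)
    have h6 := le_abs_self (pair a (lvv P U w) - pair a f)
    linarith)
  linarith

open Classical in
theorem bound_near (hU : ∀ i, U i ≠ 0 ∧ U i ≠ 1) (N : ℕ) (ρ : ι → Fin 3) (c : (ι → ℕ) → ℤ)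
    (z : K) (hz : z ≠ 0)
    (hzc : z = ∑ α ∈ Fintype.piFinset fun _ : ι => Finset.range (4 * N + 1),
      (c α : K) * ∏ i, loc (ρ i) (4 * N) (α i) (U i))
    (l : ι → ℝ) (M : ℝ) (hM : ∀ α, c α ≠ 0 → M ≤ ∑ i, ((α i : ℝ) - shift (ρ i) N) * l i)
    (w : P.Pl) :
    P.lg w z - N * ∑ i, (P.lg w (U i) + P.lg w (1 - U i)) ≤
      -M + 6 * Fintype.card ι * N * ‖lvv P U w - vec ρ l‖ +
        Real.log (1 + ∑ α ∈ Fintype.piFinset fun _ : ι => Finset.range (4 * N + 1),
          |(c α : ℝ)|) * P.arch w := by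
  have key := Bounds.lg_sum_le P w _ c _ z hz hzc
    (N * ∑ i, (P.lg w (U i) + P.lg w (1 - U i)) + (-M +
      6 * Fintype.card ι * N * ‖lvv P U w - vec ρ l‖)) (by
    intro α hα hc
    have h0 : ∀ i ∈ (Finset.univ : Finset ι), loc (ρ i) (4 * N) (α i) (U i) ≠ 0 :=
      fun i _ => Bounds.loc_ne_zero _ _ _ _ (hU i)
    refine ⟨Finset.prod_ne_zero_iff.2 h0, ?_⟩
    rw [Bounds.lg_prod P w _ _ h0]
    have h1 : ∀ i ∈ (Finset.univ : Finset ι), P.lg w (loc (ρ i) (4 * N) (α i) (U i)) ≤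
        N * (P.lg w (U i) + P.lg w (1 - U i)) - ((α i : ℝ) - shift (ρ i) N) * l i +
          6 * N * ‖lvv P U w - vec ρ l‖ := by
      intro i _
      have hαi : α i ≤ 4 * N := by
        have := Fintype.mem_piFinset.1 hα i
        exact Nat.lt_succ_iff.1 (Finset.mem_range.1 this)
      refine (Bounds.loc_bound P w (ρ i) N (α i) hαi (U i) (l i)).trans ?_
      have h2 : ‖P.lv w (U i) - l i • ray (ρ i)‖ ≤ ‖lvv P U w - vec ρ l‖ :=
        norm_le_pi_norm (lvv P U w - vec ρ l) i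
      have h3 : (6 : ℝ) * N * ‖P.lv w (U i) - l i • ray (ρ i)‖ ≤
          6 * N * ‖lvv P U w - vec ρ l‖ :=
        mul_le_mul_of_nonneg_left h2 (by positivity)
      linarith
    refine (Finset.sum_le_sum h1).trans ?_
    rw [Finset.sum_add_distrib, Finset.sum_sub_distrib, ← Finset.mul_sum, Finset.sum_const,
      Finset.card_univ, nsmul_eq_mul]
    have h4 := hM α hc
    have h5 : (Fintype.card ι : ℝ) * (6 * N * ‖lvv P U w - vec ρ l‖) =
        6 * Fintype.card ι * N * ‖lvv P U w - vec ρ l‖ := by ring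
    rw [h5]
    linarith)
  linarith

end

end Pool.Agent.KP
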