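import Pool.Agent.Lib.MP_c95b3b_ag_KP.Defs
import Pool.Agent.Lib.MP_c95b3b_ag_KP.ExistsQ
import Pool.Agent.Lib.MP_c95b3b_ag_KP.Bounds

/-! Project KP (MP_c95b3b_ag), module KS: no mass in bad cells. -/

namespace Pool.Agent.KP

open Pool.Agent.L3 Module

namespace NoMass

section
variable {ι : Type} [Fintype ι] {K : Type} [Field K] {S : Subring K} (P : Places K S) (U : ι → K)

theorem mem_S (hU : ∀ i, UU S (U i)) (N : ℕ) (s : Finset (ι → ℤ × ℤ)) (q : (ι → ℤ × ℤ) → ℤ) :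
    (∑ a ∈ s, (q a : K) *
      ∏ i, (U i ^ ((a i).1 + N).toNat * (1 - U i) ^ ((a i).2 + N).toNat)) ∈ S := by
  refine S.sum_mem fun a _ => S.mul_mem (intCast_mem S _) (S.prod_mem fun i _ => ?_)
  exact S.mul_mem (S.pow_mem (hU i).mem _) (S.pow_mem (hU i).mem1 _)

theorem avg_G (hU : ∀ i, UU S (U i)) (N : ℝ) (z : K) (hz : z ∈ S) (h0 : z ≠ 0) :
    0 ≤ P.avg (fun w => P.lg w z - N * ∑ i, (P.lg w (U i) + P.lg w (1 - U i))) := by
  rw [P.avg_sub, P.avg_mul, P.avg_sum]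
  have h1 : ∀ i ∈ (Finset.univ : Finset ι),
      P.avg (fun w => P.lg w (U i) + P.lg w (1 - U i)) = 0 := by
    intro i _
    rw [P.avg_add, (hU i).avg_lg P, (hU i).avg_lg1 P, add_zero]
  rw [Finset.sum_eq_zero h1, mul_zero, sub_zero]
  exact P.avg_lg_nonneg hz h0

theorem log_nonneg_aux {α : Type} (s : Finset α) (g : α → ℝ) :
    0 ≤ Real.log (1 + ∑ a ∈ s, |g a|) := by
  apply Real.log_nonneg
  have := Finset.sum_nonneg (s := s) (fun a _ => abs_nonneg (g a))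
  linarith

end

end NoMass

open Classical in
theorem no_mass {ι : Type} [Fintype ι] [DecidableEq ι] (F : Submodule ℝ (ι → ℝ × ℝ)) (x : ℕ)
    (ρ' : ι → Fin 3) (h1 : finrank ℝ (F ⊓ cel Finset.univ ρ' : Submodule ℝ _) ≤ x)
    (R : Finset ι) (ρ : ι → Fin 3) (h2 : x < finrank ℝ (F ⊓ cel R ρ : Submodule ℝ _))
    (r ε B : ℝ) (hr : 0 < r) (hε : 0 < ε) :
    ∃ (δ H0 : ℝ) (Q : MvPolynomial ι ℤ), 0 < δ ∧ Q ≠ 0 ∧
      ∀ (K : Type) [Field K] (S : Subring K) (P : Places K S) (U : ι → K)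
        (f : P.Pl → ι → ℝ × ℝ) (H : ℝ) (V : P.Pl → Prop),
        (∀ i, UU S (U i)) → MvPolynomial.aeval U Q ≠ 0 → H0 ≤ H →
        P.avg (fun w => ‖lvv P U w‖) ≤ B * H → (∀ w, f w ∈ F) →
        P.avg (fun w => ‖lvv P U w - f w‖) ≤ δ * H →
        (∀ w, V w → ∃ l : ι → ℝ, (∀ i, 0 ≤ l i) ∧ (∀ i ∈ R, r * ‖lvv P U w‖ ≤ l i) ∧
          ‖lvv P U w - vec ρ l‖ ≤ 2 * P.arch w) →
        P.avg (fun w => if V w then ‖lvv P U w‖ else 0) ≤ ε * H := by
  rename_i hdec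
  obtain rfl : hdec = fun a b => Classical.propDecidable (a = b) := Subsingleton.elim _ _
  obtain ⟨B', hB'1, hB'B⟩ : ∃ B' : ℝ, 1 ≤ B' ∧ B ≤ B' := ⟨max B 1, le_max_right _ _, le_max_left _ _⟩
  have hrε : 0 < r * ε := mul_pos hr hε
  have hA0 : 0 < 3 * (B' + 1) / (r * ε) := by positivity
  obtain ⟨A, hAdef⟩ : ∃ A : ℝ, A = 3 * (B' + 1) / (r * ε) := ⟨_, rfl⟩
  have hA : 0 < A := hAdef ▸ hA0
  obtain ⟨κ, N, s, q, c, Q, hκ, hκ1, hN, hQ0, hs, hQs, hQc, hlast⟩ :=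
    exists_Q F x ρ' h1 R ρ h2 A hA.le
  obtain ⟨m, hm⟩ : ∃ m : ℝ, m = (Fintype.card ι : ℝ) := ⟨_, rfl⟩
  have hm0 : 0 ≤ m := hm ▸ Nat.cast_nonneg _
  have hN1 : (1 : ℝ) ≤ N := by exact_mod_cast hN
  have hN0 : (0 : ℝ) < N := by linarith
  obtain ⟨C1, hC1⟩ : ∃ C1 : ℝ, C1 = Real.log (1 + ∑ a ∈ s, |(q a : ℝ)|) := ⟨_, rfl⟩
  obtain ⟨C2, hC2⟩ : ∃ C2 : ℝ, C2 = Real.log (1 + ∑ α ∈ Fintype.piFinset fun _ : ι =>
    Finset.range (4 * N + 1), |(c α : ℝ)|) := ⟨_, rfl⟩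
  have hC10 : 0 ≤ C1 := hC1 ▸ NoMass.log_nonneg_aux _ _
  have hC20 : 0 ≤ C2 := hC2 ▸ NoMass.log_nonneg_aux _ _
  obtain ⟨C3, hC3⟩ : ∃ C3 : ℝ, C3 = C1 + C2 + 16 * m * N := ⟨_, rfl⟩
  have hmN : 0 ≤ m * N := mul_nonneg hm0 hN0.le
  have hC30 : 0 ≤ C3 := by rw [hC3]; nlinarith
  have hκN : 0 < κ * N := mul_pos hκ hN0
  refine ⟨κ / (1 + 2 * m), max 1 (C3 / (κ * N)), Q, by positivity, hQ0, ?_⟩
  intro K _ S P U f H V hU hz hH hB hf hδ hV
  have hH1 : 1 ≤ H := (le_max_left _ _).trans hH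
  have hH0 : 0 < H := by linarith
  have hC3H : C3 ≤ κ * N * H := by
    have := (le_max_right _ _).trans hH
    rw [div_le_iff₀ hκN] at this
    linarith
  obtain ⟨z, hzdef⟩ : ∃ z : K, z = MvPolynomial.aeval U Q := ⟨_, rfl⟩
  have hz0 : z ≠ 0 := by rw [hzdef]; exact hz
  have hzS : z ∈ S := by
    rw [hzdef, hQs K U]
    exact NoMass.mem_S U hU N s q
  have hU' : ∀ i, U i ≠ 0 ∧ U i ≠ 1 := fun i => ⟨(hU i).ne0, (hU i).ne1⟩
  -- the bound at a place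
  have key : ∀ w, P.lg w z - N * ∑ i, (P.lg w (U i) + P.lg w (1 - U i)) ≤
      ((-(A * κ * N * r)) * (if V w then ‖lvv P U w‖ else 0) + κ * N * ‖lvv P U w‖) +
        ((κ + 2 * m) * N * ‖lvv P U w - f w‖ + C3 * P.arch w) := by
    intro w
    have har := P.arch_nonneg w
    have hf1 : ‖f w‖ ≤ ‖lvv P U w‖ + ‖lvv P U w - f w‖ := by
      have : f w = lvv P U w - (lvv P U w - f w) := by abel
      calc ‖f w‖ = ‖lvv P U w - (lvv P U w - f w)‖ := by rw [← this]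
        _ ≤ _ := norm_sub_le _ _
    have hf2 : κ * N * ‖f w‖ ≤ κ * N * (‖lvv P U w‖ + ‖lvv P U w - f w‖) :=
      mul_le_mul_of_nonneg_left hf1 hκN.le
    by_cases hVw : V w
    · obtain ⟨l, hl0, hlR, hln⟩ := hV w hVw
      have hb := bound_near P U hU' N ρ c z hz0 (hzdef.trans (hQc K U)) l
        (A * κ * N * (r * ‖lvv P U w‖) - κ * N * ‖f w‖ - 2 * Fintype.card ι * N * ‖vec ρ l - f w‖)
        (fun α hα => hlast α hα l (f w) (r * ‖lvv P U w‖) (hf w)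
          (mul_nonneg hr.le (norm_nonneg _)) hl0 hlR) w
      rw [← hm, ← hC2] at hb
      rw [if_pos hVw]
      have h3 : ‖vec ρ l - f w‖ ≤ 2 * P.arch w + ‖lvv P U w - f w‖ := by
        have : vec ρ l - f w = (lvv P U w - f w) - (lvv P U w - vec ρ l) := by abel
        rw [this]
        refine (norm_sub_le _ _).trans ?_
        linarith
      have h4 : m * N * ‖vec ρ l - f w‖ ≤ m * N * (2 * P.arch w + ‖lvv P U w - f w‖) :=
        mul_le_mul_of_nonneg_left h3 hmN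
      have h5 : m * N * ‖lvv P U w - vec ρ l‖ ≤ m * N * (2 * P.arch w) :=
        mul_le_mul_of_nonneg_left hln hmN
      have h6 : 0 ≤ C1 * P.arch w := mul_nonneg hC10 har
      rw [hC3]
      nlinarith [hb, hf2, h4, h5, h6]
    · have hb := bound_all P U hU' N s q z hz0 (hzdef.trans (hQs K U)) κ (f w)
        (fun a ha => ⟨(hs a ha).1, (hs a ha).2 (f w) (hf w)⟩) w
      rw [← hm, ← hC1] at hb
      rw [if_neg hVw]
      have h6 : 0 ≤ C2 * P.arch w := mul_nonneg hC20 har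
      have h7 : 0 ≤ m * N * P.arch w := mul_nonneg hmN har
      rw [hC3]
      nlinarith [hb, hf2, h6, h7]
  have hG := NoMass.avg_G P U hU N z hzS hz0
  have h8 := hG.trans (P.avg_mono key)
  rw [P.avg_add, P.avg_add, P.avg_add, P.avg_mul, P.avg_mul, P.avg_mul, P.avg_const_arch] at h8
  obtain ⟨mass, hmass⟩ : ∃ t : ℝ, t = P.avg (fun w => if V w then ‖lvv P U w‖ else 0) := ⟨_, rfl⟩
  rw [← hmass] at h8 ⊢
  have hB2 : P.avg (fun w => ‖lvv P U w‖) ≤ B' * H :=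
    hB.trans (mul_le_mul_of_nonneg_right hB'B hH0.le)
  have h9 : κ * N * P.avg (fun w => ‖lvv P U w‖) ≤ κ * N * (B' * H) :=
    mul_le_mul_of_nonneg_left hB2 hκN.le
  have h12m : 0 < 1 + 2 * m := by linarith
  have h10 : (κ + 2 * m) * N * P.avg (fun w => ‖lvv P U w - f w‖) ≤ κ * N * H := by
    have h11 : 0 ≤ P.avg (fun w => ‖lvv P U w - f w‖) := P.avg_nonneg fun w => norm_nonneg _
    calc (κ + 2 * m) * N * P.avg (fun w => ‖lvv P U w - f w‖)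
        ≤ (1 + 2 * m) * N * (κ / (1 + 2 * m) * H) := by
          apply mul_le_mul _ hδ h11 (by positivity)
          exact mul_le_mul_of_nonneg_right (by linarith) hN0.le
      _ = κ * N * H := by
          field_simp
  have h13 : A * κ * N * r * mass ≤ κ * N * H * (B' + 2) := by linarith
  have h14 : A * r * mass ≤ H * (B' + 2) := by
    have h15 : (κ * N) * (A * r * mass) ≤ (κ * N) * (H * (B' + 2)) := by linarith
    exact le_of_mul_le_mul_left h15 hκN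
  have h16 : A * r * ε = 3 * (B' + 1) := by
    rw [hAdef]
    field_simp
  have h17 : (A * r) * mass ≤ (A * r) * (ε * H) := by
    have : (A * r) * (ε * H) = 3 * (B' + 1) * H := by rw [← h16]; ring
    rw [this]
    refine h14.trans ?_
    nlinarith
  exact le_of_mul_le_mul_left h17 (mul_pos hA hr)

end Pool.Agent.KP
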