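import Pool.Agent.Lib.MP_c95b3b_ag_KP.Limit
import Pool.Agent.Lib.MP_c95b3b_ag_KP.NoMass
import Pool.Agent.Lib.MP_c95b3b_ag_L3.VA

/-! Project KP (MP_c95b3b_ag), module KD: covering by cells. -/

namespace Pool.Agent.KP

open Pool.Agent.L3 Module

namespace KD

/-- the vector of logarithms is near the vector with the lengths `t` -/
theorem near {ι : Type} [Fintype ι] {K : Type} [Field K] {S : Subring K} (P : Places K S)
    (U : ι → K) (w : P.Pl) (ρ : ι → Fin 3) (t : ι → ℝ)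
    (h : ∀ i, ‖P.lv w (U i) - t i • ray (ρ i)‖ ≤ 2 * P.arch w) :
    ‖lvv P U w - vec ρ t‖ ≤ 2 * P.arch w := by
  rw [pi_norm_le_iff_of_nonneg (mul_nonneg zero_le_two (P.arch_nonneg w))]
  exact h

/-- the truncated vector lies in the cell and is near the vector of logarithms -/
theorem trunc {ι : Type} [Fintype ι] [DecidableEq ι] {K : Type} [Field K] {S : Subring K}
    (P : Places K S) (U : ι → K) (w : P.Pl) (ρ : ι → Fin 3) (t : ι → ℝ) (R : Finset ι) (c : ℝ)
    (hc : 0 ≤ c) (ht : ∀ i, 0 ≤ t i)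
    (h : ∀ i, ‖P.lv w (U i) - t i • ray (ρ i)‖ ≤ 2 * P.arch w) (hR : ∀ i, i ∉ R → t i ≤ c) :
    vec ρ (fun i => if i ∈ R then t i else 0) ∈ cel R ρ ∧
      ‖lvv P U w - vec ρ (fun i => if i ∈ R then t i else 0)‖ ≤ 2 * P.arch w + c := by
  have ha := mul_nonneg zero_le_two (P.arch_nonneg w)
  refine ⟨⟨_, fun i hi => if_neg hi, rfl⟩, ?_⟩
  rw [pi_norm_le_iff_of_nonneg (by linarith)]
  intro i
  rw [Pi.sub_apply, vec_apply]
  show ‖P.lv w (U i) - _‖ ≤ _
  split_ifs with hi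
  · exact (h i).trans (by linarith)
  · rw [zero_smul, sub_zero]
    have h1 : P.lv w (U i) = (P.lv w (U i) - t i • ray (ρ i)) + t i • ray (ρ i) := by abel
    rw [h1]
    refine (norm_add_le _ _).trans (add_le_add (h i) ?_)
    rw [norm_smul, norm_ray, mul_one, Real.norm_of_nonneg (ht i)]
    exact hR i hi

end KD

open Classical in
theorem cover {ι : Type} [Fintype ι] [DecidableEq ι] (F : Submodule ℝ (ι → ℝ × ℝ)) (x : ℕ)
    (ρ' : ι → Fin 3) (h1 : finrank ℝ (F ⊓ cel Finset.univ ρ' : Submodule ℝ _) ≤ x)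
    (η ε B : ℝ) (hη : 0 < η) (hε : 0 < ε) :
    ∃ (δ H0 : ℝ) (𝒬 : Finset (MvPolynomial ι ℤ)), 0 < δ ∧ (∀ Q ∈ 𝒬, Q ≠ 0) ∧
      ∀ (K : Type) [Field K] (S : Subring K) (P : Places K S) (U : ι → K)
        (f : P.Pl → ι → ℝ × ℝ) (H : ℝ),
        (∀ i, UU S (U i)) → (∀ Q ∈ 𝒬, MvPolynomial.aeval U Q ≠ 0) → H0 ≤ H →
        P.avg (fun w => ‖lvv P U w‖) ≤ B * H → (∀ w, f w ∈ F) →
        P.avg (fun w => ‖lvv P U w - f w‖) ≤ δ * H →
        P.avg (fun w => if ∀ v ∈ Good F x, η * (‖lvv P U w‖ + H * P.arch w) ≤ ‖lvv P U w - v‖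
          then ‖lvv P U w‖ else 0) ≤ ε * H := by
  -- the constant of the distances
  choose C' hC1' hC' using fun p : Finset ι × (ι → Fin 3) => dist_inf F (cel p.1 p.2)
  obtain ⟨p1, hp1⟩ := Finite.exists_max C'
  obtain ⟨C, hCdef⟩ : ∃ C, C = C' p1 := ⟨_, rfl⟩
  have hC1 : 1 ≤ C := hCdef ▸ hC1' p1
  have hC : ∀ p : Finset ι × (ι → Fin 3), ∀ v ∈ cel p.1 p.2, ∀ f ∈ F,
      ∃ u ∈ F ⊓ cel p.1 p.2, ‖v - u‖ ≤ C * ‖v - f‖ := by
    intro p v hv f hf
    obtain ⟨u, hu, h⟩ := hC' p v hv f hf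
    refine ⟨u, hu, h.trans ?_⟩
    rw [hCdef]
    exact mul_le_mul_of_nonneg_right (hp1 p) (norm_nonneg _)
  obtain ⟨r, hrdef⟩ : ∃ r, r = η / (8 * (1 + C)) := ⟨_, rfl⟩
  have h1C : 0 < 1 + C := by linarith
  have hr : 0 < r := by
    rw [hrdef]
    positivity
  have hr8 : 8 * (1 + C) * r = η := by
    rw [hrdef]
    field_simp
  obtain ⟨n, hn⟩ : ∃ n : ℝ, n = Fintype.card (Finset ι × (ι → Fin 3)) := ⟨_, rfl⟩
  have hn0 : 0 < n := by
    rw [hn]
    exact_mod_cast Fintype.card_pos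
  -- the data of the bad pairs
  have key : ∀ p : Finset ι × (ι → Fin 3), ∃ (δ H0 : ℝ) (Q : MvPolynomial ι ℤ), 0 < δ ∧ Q ≠ 0 ∧
      (x < finrank ℝ (F ⊓ cel p.1 p.2 : Submodule ℝ _) →
      ∀ (K : Type) [Field K] (S : Subring K) (P : Places K S) (U : ι → K)
        (f : P.Pl → ι → ℝ × ℝ) (H : ℝ) (V : P.Pl → Prop),
        (∀ i, UU S (U i)) → MvPolynomial.aeval U Q ≠ 0 → H0 ≤ H →
        P.avg (fun w => ‖lvv P U w‖) ≤ B * H → (∀ w, f w ∈ F) →
        P.avg (fun w => ‖lvv P U w - f w‖) ≤ δ * H →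
        (∀ w, V w → ∃ l : ι → ℝ, (∀ i, 0 ≤ l i) ∧ (∀ i ∈ p.1, r * ‖lvv P U w‖ ≤ l i) ∧
          ‖lvv P U w - vec p.2 l‖ ≤ 2 * P.arch w) →
        P.avg (fun w => if V w then ‖lvv P U w‖ else 0) ≤ ε / (2 * n) * H) := by
    intro p
    by_cases hp : x < finrank ℝ (F ⊓ cel p.1 p.2 : Submodule ℝ _)
    · obtain ⟨δ, H0, Q, hδ, hQ, h⟩ := no_mass F x ρ' h1 p.1 p.2 hp r (ε / (2 * n)) B hr
        (by positivity)
      exact ⟨δ, H0, Q, hδ, hQ, fun _ => h⟩
    · exact ⟨1, 0, 1, one_pos, one_ne_zero, fun h => absurd h hp⟩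
  choose δ' H0' Q hδ' hQ hmass using key
  obtain ⟨p2, hp2⟩ := Finite.exists_min δ'
  obtain ⟨p3, hp3⟩ := Finite.exists_max H0'
  refine ⟨min (δ' p2) (ε * r / 2), max (max (H0' p3) 0) (2 * (1 + C) / η),
    Finset.univ.image Q, lt_min (hδ' p2) (by positivity), ?_, ?_⟩
  · intro q hq
    obtain ⟨p, -, rfl⟩ := Finset.mem_image.1 hq
    exact hQ p
  intro K _ S P U f H hU hQU hH hB hf hδ
  have hH0 : 0 ≤ H := ((le_max_right _ _).trans (le_max_left _ _)).trans hH
  have hH1 : 2 * (1 + C) ≤ η * H := by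
    have := (le_max_right _ _).trans hH
    rwa [div_le_iff₀ hη, mul_comm H η] at this
  have hH2 : ∀ p, H0' p ≤ H := fun p =>
    ((hp3 p).trans (le_max_left _ _)).trans ((le_max_left _ _).trans hH)
  have hδ1 : ∀ p, P.avg (fun w => ‖lvv P U w - f w‖) ≤ δ' p * H := fun p =>
    hδ.trans (mul_le_mul_of_nonneg_right ((min_le_left _ _).trans (hp2 p)) hH0)
  have hδ2 : P.avg (fun w => ‖lvv P U w - f w‖) ≤ ε * r / 2 * H :=
    hδ.trans (mul_le_mul_of_nonneg_right (min_le_right _ _) hH0)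
  choose j t ht hj using fun (i : ι) (w : P.Pl) => VA.point P (hU i) w
  let ρw : P.Pl → ι → Fin 3 := fun w i => j i w
  let Rw : P.Pl → Finset ι := fun w => Finset.univ.filter fun i => r * ‖lvv P U w‖ ≤ t i w
  let bad : Finset (Finset ι × (ι → Fin 3)) :=
    Finset.univ.filter fun p => x < finrank ℝ (F ⊓ cel p.1 p.2 : Submodule ℝ _)
  let T : Finset ι × (ι → Fin 3) → P.Pl → ℝ := fun p w =>
    if (Rw w, ρw w) = p then ‖lvv P U w‖ else 0
  have hT0 : ∀ p w, 0 ≤ T p w := by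
    intro p w
    simp only [T]
    split_ifs
    · exact norm_nonneg _
    · exact le_rfl
  have hTavg : ∀ p ∈ bad, P.avg (T p) ≤ ε / (2 * n) * H := by
    intro p hp
    have h := hmass p (Finset.mem_filter.1 hp).2 K S P U f H (fun w => (Rw w, ρw w) = p) hU
      (hQU _ (Finset.mem_image_of_mem _ (Finset.mem_univ p))) (hH2 p) hB hf (hδ1 p) (by
        rintro w rfl
        refine ⟨fun i => t i w, fun i => ht i w, fun i hi => (Finset.mem_filter.1 hi).2, ?_⟩
        exact KD.near P U w _ _ fun i => hj i w)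
    convert h using 4
  have hpt : ∀ w, (if ∀ v ∈ Good F x, η * (‖lvv P U w‖ + H * P.arch w) ≤ ‖lvv P U w - v‖
          then ‖lvv P U w‖ else 0) ≤ ∑ p ∈ bad, T p w + 1 / r * ‖lvv P U w - f w‖ := by
    intro w
    have hS : 0 ≤ ∑ p ∈ bad, T p w := Finset.sum_nonneg fun p _ => hT0 p w
    have hN : 0 ≤ 1 / r * ‖lvv P U w - f w‖ := by positivity
    split_ifs with hw
    swap
    · linarith
    by_cases hb : x < finrank ℝ (F ⊓ cel (Rw w) (ρw w) : Submodule ℝ _)
    · have hm : (Rw w, ρw w) ∈ bad := Finset.mem_filter.2 ⟨Finset.mem_univ _, hb⟩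
      have h2 := Finset.single_le_sum (fun p _ => hT0 p w) hm
      have h3 : T (Rw w, ρw w) w = ‖lvv P U w‖ := if_pos rfl
      linarith
    · by_contra hlt
      push Not at hlt hb
      have hfw : ‖lvv P U w - f w‖ < r * ‖lvv P U w‖ := by
        have : 1 / r * ‖lvv P U w - f w‖ < ‖lvv P U w‖ := by linarith
        rw [div_mul_eq_mul_div, one_mul, div_lt_iff₀ hr] at this
        linarith
      have hpos : 0 < ‖lvv P U w‖ := by
        by_contra h0
        push Not at h0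
        have := mul_nonpos_of_nonneg_of_nonpos hr.le h0
        have := norm_nonneg (lvv P U w - f w)
        linarith
      obtain ⟨hv, hvn⟩ := KD.trunc P U w (ρw w) (fun i => t i w) (Rw w) (r * ‖lvv P U w‖)
        (by positivity) (fun i => ht i w) (fun i => hj i w) (by
          intro i hi
          have : ¬ (r * ‖lvv P U w‖ ≤ t i w) := fun h =>
            hi (Finset.mem_filter.2 ⟨Finset.mem_univ _, h⟩)
          exact (not_le.1 this).le)
      obtain ⟨u, hu, hun⟩ := hC (Rw w, ρw w) _ hv (f w) (hf w)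
      have hg := hw u ⟨_, _, hu, hb⟩
      set v := vec (ρw w) (fun i => if i ∈ Rw w then t i w else 0) with hvdef
      have e1 : ‖lvv P U w - u‖ ≤ ‖lvv P U w - v‖ + ‖v - u‖ := by
        have : lvv P U w - u = (lvv P U w - v) + (v - u) := by abel
        rw [this]
        exact norm_add_le _ _
      have e2 : ‖v - f w‖ ≤ ‖lvv P U w - v‖ + ‖lvv P U w - f w‖ := by
        have : v - f w = -(lvv P U w - v) + (lvv P U w - f w) := by abel
        rw [this]
        refine (norm_add_le _ _).trans ?_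
        rw [norm_neg]
      have e3 : C * ‖v - f w‖ ≤ C * (‖lvv P U w - v‖ + ‖lvv P U w - f w‖) :=
        mul_le_mul_of_nonneg_left e2 (by linarith)
      have e4 : (1 + C) * ‖lvv P U w - v‖ ≤ (1 + C) * (2 * P.arch w + r * ‖lvv P U w‖) :=
        mul_le_mul_of_nonneg_left hvn h1C.le
      have e5 : C * ‖lvv P U w - f w‖ ≤ (1 + C) * (r * ‖lvv P U w‖) := by
        have := norm_nonneg (lvv P U w - f w)
        nlinarith
      have e6 : 2 * (1 + C) * P.arch w ≤ η * H * P.arch w :=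
        mul_le_mul_of_nonneg_right hH1 (P.arch_nonneg w)
      have e7 : 8 * ((1 + C) * (r * ‖lvv P U w‖)) = η * ‖lvv P U w‖ := by
        rw [← hr8]
        ring
      have e8 : 0 < η * ‖lvv P U w‖ := by positivity
      nlinarith
  calc P.avg (fun w => if ∀ v ∈ Good F x, η * (‖lvv P U w‖ + H * P.arch w) ≤ ‖lvv P U w - v‖
          then ‖lvv P U w‖ else 0)
      ≤ P.avg (fun w => ∑ p ∈ bad, T p w + 1 / r * ‖lvv P U w - f w‖) := P.avg_mono hpt
    _ = ∑ p ∈ bad, P.avg (T p) + 1 / r * P.avg (fun w => ‖lvv P U w - f w‖) := by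
        rw [P.avg_add, P.avg_sum, P.avg_mul]
    _ ≤ n * (ε / (2 * n) * H) + 1 / r * (ε * r / 2 * H) := by
        refine add_le_add ?_ (mul_le_mul_of_nonneg_left hδ2 (by positivity))
        refine (Finset.sum_le_sum hTavg).trans ?_
        rw [Finset.sum_const, nsmul_eq_mul]
        refine mul_le_mul_of_nonneg_right ?_ (by positivity)
        rw [hn]
        exact_mod_cast Finset.card_le_univ bad
    _ = ε * H := by
        field_simp
        ring

end Pool.Agent.KP
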