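import Pool.Agent.Lib.MP_c95b3b_ag_KP.Defs

/-! Project KP (MP_c95b3b_ag): choice of rays (Rado type lemma). -/

namespace Pool.Agent.KP

open Pool.Agent.L3 Module

namespace Rado

variable {ι : Type}

/-- families supported on `I` whose component at `i` lies in the line of `ray j` if `s i = some j` -/
def part (s : ι → Option (Fin 3)) (I : Finset ι) : Submodule ℝ (ι → ℝ × ℝ) where
  carrier := {v | (∀ i, i ∉ I → v i = 0) ∧ ∀ i j, s i = some j → ∃ t : ℝ, v i = t • ray j}
  add_mem' := fun {v w} hv hw => by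
    refine ⟨fun i hi => ?_, fun i j hij => ?_⟩
    · have h1 : v i = 0 := hv.1 i hi
      have h2 : w i = 0 := hw.1 i hi
      simp [h1, h2]
    · obtain ⟨t, ht⟩ := hv.2 i j hij
      obtain ⟨u, hu⟩ := hw.2 i j hij
      exact ⟨t + u, by simp [ht, hu, add_smul]⟩
  zero_mem' := ⟨fun i _ => rfl, fun i j _ => ⟨0, by simp⟩⟩
  smul_mem' := fun c v hv => by
    refine ⟨fun i hi => ?_, fun i j hij => ?_⟩
    · have h1 : v i = 0 := hv.1 i hi
      simp [h1]
    · obtain ⟨t, ht⟩ := hv.2 i j hij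
      exact ⟨c * t, by simp [ht, mul_smul]⟩

theorem mem_part {s : ι → Option (Fin 3)} {I : Finset ι} {v : ι → ℝ × ℝ} :
    v ∈ part s I ↔ (∀ i, i ∉ I → v i = 0) ∧ ∀ i j, s i = some j → ∃ t : ℝ, v i = t • ray j := Iff.rfl

/-- dimension of the component at `i` -/
def rk (s : ι → Option (Fin 3)) (i : ι) : ℕ := if s i = none then 2 else 1

/-- the condition of the induction -/
def Cond (F : Submodule ℝ (ι → ℝ × ℝ)) (x : ℕ) (s : ι → Option (Fin 3)) : Prop :=
  ∀ I : Finset ι, finrank ℝ (F ⊓ part s I : Submodule ℝ _) + I.card ≤ ∑ i ∈ I, rk s i + x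

/-- the lines of `ray 0` and `ray 1` meet in `0` -/
theorem ray_indep {v : ℝ × ℝ} (h0 : ∃ t : ℝ, v = t • ray 0) (h1 : ∃ t : ℝ, v = t • ray 1) :
    v = 0 := by
  obtain ⟨t, rfl⟩ := h0
  obtain ⟨u, hu⟩ := h1
  have h2 := congrArg Prod.fst hu
  simp [ray] at h2
  simp [h2]

variable [DecidableEq ι]

theorem part_update_le (s : ι → Option (Fin 3)) (a : ι) (ha : s a = none) (j : Fin 3)
    (I : Finset ι) : part (Function.update s a (some j)) I ≤ part s I := by
  intro v hv
  refine ⟨hv.1, fun i j' hij => ?_⟩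
  have hne : i ≠ a := by
    rintro rfl
    rw [ha] at hij
    exact absurd hij (by simp)
  exact hv.2 i j' (by rw [Function.update_of_ne hne]; exact hij)

theorem part_mono (s : ι → Option (Fin 3)) {I I' : Finset ι} (h : I ⊆ I') :
    part s I ≤ part s I' := fun _ hv => ⟨fun i hi => hv.1 i fun h' => hi (h h'), hv.2⟩

theorem rk_update (s : ι → Option (Fin 3)) (a : ι) (j : Fin 3) (I : Finset ι) (haI : a ∈ I) :
    ∑ i ∈ I, rk (Function.update s a (some j)) i = ∑ i ∈ I.erase a, rk s i + 1 := by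
  rw [← Finset.sum_erase_add _ _ haI]
  congr 1
  · refine Finset.sum_congr rfl fun i hi => ?_
    rw [rk, rk, Function.update_of_ne (Finset.ne_of_mem_erase hi)]
  · simp [rk]

theorem rk_update' (s : ι → Option (Fin 3)) (a : ι) (j : Fin 3) (I : Finset ι) (haI : a ∉ I) :
    ∑ i ∈ I, rk (Function.update s a (some j)) i = ∑ i ∈ I, rk s i := by
  refine Finset.sum_congr rfl fun i hi => ?_
  have hne : i ≠ a := by rintro rfl; exact haI hi
  rw [rk, rk, Function.update_of_ne hne]

variable [Fintype ι]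

/-- failure of the condition after a replacement -/
theorem fail {F : Submodule ℝ (ι → ℝ × ℝ)} {x : ℕ} {s : ι → Option (Fin 3)} (hs : Cond F x s)
    (a : ι) (ha : s a = none) (j : Fin 3) (hn : ¬ Cond F x (Function.update s a (some j))) :
    ∃ I : Finset ι, a ∈ I ∧ ∑ i ∈ I.erase a, rk s i + x + 2 ≤
      finrank ℝ (F ⊓ part (Function.update s a (some j)) I : Submodule ℝ _) + I.card := by
  unfold Cond at hn
  push Not at hn
  obtain ⟨I, hI⟩ := hn
  have haI : a ∈ I := by
    by_contra haI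
    rw [rk_update' s a j I haI] at hI
    have h1 := hs I
    have h2 : finrank ℝ (F ⊓ part (Function.update s a (some j)) I : Submodule ℝ _) ≤
        finrank ℝ (F ⊓ part s I : Submodule ℝ _) :=
      Submodule.finrank_mono (inf_le_inf_left F (part_update_le s a ha j I))
    omega
  refine ⟨I, haI, ?_⟩
  rw [rk_update s a j I haI] at hI
  omega

theorem step {F : Submodule ℝ (ι → ℝ × ℝ)} {x : ℕ} {s : ι → Option (Fin 3)} (hs : Cond F x s)
    (a : ι) (ha : s a = none) : ∃ j : Fin 3, Cond F x (Function.update s a (some j)) := by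
  by_contra hcon
  push Not at hcon
  obtain ⟨I, haI, h1⟩ := fail hs a ha 0 (hcon 0)
  obtain ⟨I', haI', h1'⟩ := fail hs a ha 1 (hcon 1)
  set A : Submodule ℝ (ι → ℝ × ℝ) := F ⊓ part (Function.update s a (some 0)) I with hA
  set A' : Submodule ℝ (ι → ℝ × ℝ) := F ⊓ part (Function.update s a (some 1)) I' with hA'
  have hinf : A ⊓ A' ≤ F ⊓ part s ((I ∩ I').erase a) := by
    rintro v ⟨⟨hvF, hv⟩, ⟨_, hv'⟩⟩
    have hva : v a = 0 := by
      refine ray_indep (hv.2 a 0 (by simp)) (hv'.2 a 1 (by simp))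
    refine ⟨hvF, fun i hi => ?_, ((part_update_le s a ha 0 I) hv).2⟩
    by_cases hia : i = a
    · rw [hia]; exact hva
    · by_cases hiI : i ∈ I
      · have : i ∉ I' := by
          intro h'
          exact hi (Finset.mem_erase.2 ⟨hia, Finset.mem_inter.2 ⟨hiI, h'⟩⟩)
        exact hv'.1 i this
      · exact hv.1 i hiI
  have hsup : A ⊔ A' ≤ F ⊓ part s (I ∪ I') := by
    refine sup_le (inf_le_inf_left F ?_) (inf_le_inf_left F ?_)
    · exact (part_update_le s a ha 0 I).trans (part_mono s Finset.subset_union_left)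
    · exact (part_update_le s a ha 1 I').trans (part_mono s Finset.subset_union_right)
  have h2 := Submodule.finrank_mono hinf
  have h3 := Submodule.finrank_mono hsup
  have h4 := Submodule.finrank_sup_add_finrank_inf_eq A A'
  have h5 := hs ((I ∩ I').erase a)
  have h6 := hs (I ∪ I')
  have haI2 : a ∈ I ∩ I' := Finset.mem_inter.2 ⟨haI, haI'⟩
  have haI3 : a ∈ I ∪ I' := Finset.mem_union_left _ haI
  have h7 := Finset.card_union_add_card_inter I I'
  have h8 : ((I ∩ I').erase a).card + 1 = (I ∩ I').card := Finset.card_erase_add_one haI2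
  have h9 : ∑ i ∈ I.erase a, rk s i + 2 = ∑ i ∈ I, rk s i := by
    rw [← Finset.sum_erase_add _ _ haI]
    simp [rk, ha]
  have h9' : ∑ i ∈ I'.erase a, rk s i + 2 = ∑ i ∈ I', rk s i := by
    rw [← Finset.sum_erase_add _ _ haI']
    simp [rk, ha]
  have h10 : ∑ i ∈ (I ∩ I').erase a, rk s i + 2 = ∑ i ∈ I ∩ I', rk s i := by
    rw [← Finset.sum_erase_add _ _ haI2]
    simp [rk, ha]
  have h11 : ∑ i ∈ I ∪ I', rk s i + ∑ i ∈ I ∩ I', rk s i = ∑ i ∈ I, rk s i + ∑ i ∈ I', rk s i :=
    Finset.sum_union_inter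
  omega

theorem exists_treated {F : Submodule ℝ (ι → ℝ × ℝ)} {x : ℕ}
    (h : Cond F x (fun _ => none)) (T : Finset ι) :
    ∃ s : ι → Option (Fin 3), Cond F x s ∧ ∀ i ∈ T, s i ≠ none := by
  induction T using Finset.induction_on with
  | empty => exact ⟨_, h, by simp⟩
  | insert a T _ ih =>
    obtain ⟨s, hs, hT⟩ := ih
    by_cases ha : s a = none
    · obtain ⟨j, hj⟩ := step hs a ha
      refine ⟨_, hj, fun i hi => ?_⟩
      by_cases hia : i = a
      · rw [hia]; simp
      · rw [Function.update_of_ne hia]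
        exact hT i ((Finset.mem_insert.1 hi).resolve_left hia)
    · refine ⟨s, hs, fun i hi => ?_⟩
      rcases Finset.mem_insert.1 hi with rfl | hi
      · exact ha
      · exact hT i hi

end Rado

theorem rado {ι : Type} [Fintype ι] [DecidableEq ι] (F : Submodule ℝ (ι → ℝ × ℝ)) (x : ℕ)
    (h : ∀ I : Finset ι, finrank ℝ (F ⊓ supp I : Submodule ℝ _) ≤ I.card + x) :
    ∃ ρ : ι → Fin 3, finrank ℝ (F ⊓ cel Finset.univ ρ : Submodule ℝ _) ≤ x := by
  have h0 : Rado.Cond F x (fun _ => none) := by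
    intro I
    have h1 : Rado.part (fun _ => none) I ≤ supp I := fun v hv => hv.1
    have h2 : finrank ℝ (F ⊓ Rado.part (fun _ => none) I : Submodule ℝ _) ≤
        finrank ℝ (F ⊓ supp I : Submodule ℝ _) := Submodule.finrank_mono (inf_le_inf_left F h1)
    have h3 := h I
    have h4 : ∑ i ∈ I, Rado.rk (fun _ : ι => (none : Option (Fin 3))) i = 2 * I.card := by
      simp [Rado.rk, mul_comm]
    omega
  obtain ⟨s, hs, hT⟩ := Rado.exists_treated h0 Finset.univ
  have hsome : ∀ i, ∃ j, s i = some j := fun i => Option.ne_none_iff_exists'.1 (hT i (by simp))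
  choose ρ hρ using hsome
  refine ⟨ρ, ?_⟩
  have h1 : cel Finset.univ ρ ≤ Rado.part s Finset.univ := by
    rintro v ⟨l, _, rfl⟩
    refine ⟨fun i hi => absurd (Finset.mem_univ i) hi, fun i j hij => ?_⟩
    have : j = ρ i := by
      have := (hρ i).symm.trans hij
      exact (Option.some.inj this).symm
    exact ⟨l i, by rw [this]; rfl⟩
  have h2 : finrank ℝ (F ⊓ cel Finset.univ ρ : Submodule ℝ _) ≤
      finrank ℝ (F ⊓ Rado.part s Finset.univ : Submodule ℝ _) :=
    Submodule.finrank_mono (inf_le_inf_left F h1)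
  have h3 := hs Finset.univ
  have h4 : ∑ i, Rado.rk s i = (Finset.univ : Finset ι).card := by
    have : ∀ i, Rado.rk s i = 1 := fun i => by simp [Rado.rk, hρ i]
    simp [this]
  omega

end Pool.Agent.KP
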