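import Pool.Agent.Lib.MP_c95b3b_ag_KP.Defs
import Pool.Agent.Lib.MP_c95b3b_ag_KP.Rado
import Pool.Agent.Lib.MP_c95b3b_ag_KP.Cover

/-! Project KP, module KA: there is some mass. -/

namespace Pool.Agent.KP

open Pool.Agent.L3 Module

namespace Big

theorem good_zero {ι : Type} [Fintype ι] (F : Submodule ℝ (ι → ℝ × ℝ))
    {v : ι → ℝ × ℝ} (hv : v ∈ Good F 0) : v = 0 := by
  obtain ⟨R, ρ, hv, hf⟩ := hv
  have h1 : (F ⊓ cel R ρ : Submodule ℝ _) = ⊥ := by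
    apply Submodule.finrank_eq_zero.1
    omega
  rw [h1] at hv
  exact (Submodule.mem_bot ℝ).1 hv

end Big

theorem big {ι : Type} [Fintype ι] [DecidableEq ι] (F : Submodule ℝ (ι → ℝ × ℝ))
    (hF : ∀ I : Finset ι, finrank ℝ (F ⊓ supp I : Submodule ℝ _) ≤ I.card) (B : ℝ) :
    ∃ (δ H0 : ℝ) (𝒬 : Finset (MvPolynomial ι ℤ)), 0 < δ ∧ (∀ Q ∈ 𝒬, Q ≠ 0) ∧
      ∀ (K : Type) [Field K] (S : Subring K) (P : Places K S) (U : ι → K)
        (f : P.Pl → ι → ℝ × ℝ) (H : ℝ),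
        (∀ i, UU S (U i)) → (∀ Q ∈ 𝒬, MvPolynomial.aeval U Q ≠ 0) → H0 ≤ H → 0 < H →
        P.avg (fun w => ‖lvv P U w‖) ≤ B * H → (∀ w, f w ∈ F) →
        P.avg (fun w => ‖lvv P U w - f w‖) ≤ δ * H →
        P.avg (fun w => ‖lvv P U w‖) < H := by
  obtain ⟨ρ', hρ'⟩ := rado F 0 (fun I => by simpa using hF I)
  obtain ⟨δ, H0, 𝒬, hδ, h𝒬, hmain⟩ := cover F 0 ρ' hρ' (1 / 4) (1 / 4) B (by norm_num)
    (by norm_num)
  refine ⟨δ, H0, 𝒬, hδ, h𝒬, ?_⟩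
  intro K _ S P U f H hU hQ hH0 hH hB hf hd
  classical
  have h1 := hmain K S P U f H hU hQ hH0 hB hf hd
  have h2 : P.avg (fun w => ‖lvv P U w‖) ≤
      P.avg (fun w => (if ∀ v ∈ Good F 0, 1 / 4 * (‖lvv P U w‖ + H * P.arch w) ≤
        ‖lvv P U w - v‖ then ‖lvv P U w‖ else 0) + H / 3 * P.arch w) := by
    apply Places.avg_mono
    intro w
    have h3 : 0 ≤ H / 3 * P.arch w := mul_nonneg (by positivity) (P.arch_nonneg w)
    by_cases hc : ∀ v ∈ Good F 0, 1 / 4 * (‖lvv P U w‖ + H * P.arch w) ≤ ‖lvv P U w - v‖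
    · rw [if_pos hc]
      linarith
    · rw [if_neg hc]
      push Not at hc
      obtain ⟨v, hv, hlt⟩ := hc
      rw [Big.good_zero F hv, sub_zero] at hlt
      linarith
  rw [Places.avg_add, Places.avg_const_arch] at h2
  linarith

end Pool.Agent.KP
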