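import Pool.Agent.Lib.MP_c95b3b_ag_KP.Defs

/-!
# KP, module KX: the maximiser and a dimension bound
-/

namespace Pool.Agent.KP

open Pool.Agent.L3 Module

namespace KX

/-- rank formula for the restriction of a linear map to a submodule -/
theorem rank {V V1 : Type} [AddCommGroup V] [Module ℝ V] [FiniteDimensional ℝ V]
    [AddCommGroup V1] [Module ℝ V1] (f : V →ₗ[ℝ] V1) (E : Submodule ℝ V) :
    finrank ℝ (E.map f) + finrank ℝ (E ⊓ LinearMap.ker f : Submodule ℝ V) = finrank ℝ E := by
  have h := (f.domRestrict E).finrank_range_add_finrank_ker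
  rw [LinearMap.range_domRestrict] at h
  have h2 : finrank ℝ (LinearMap.ker (f.domRestrict E)) =
      finrank ℝ (E ⊓ LinearMap.ker f : Submodule ℝ V) := by
    have e : LinearMap.ker (f.domRestrict E) = (LinearMap.ker f).comap E.subtype := by
      ext x
      simp
    have e2 : ((LinearMap.ker f).comap E.subtype).map E.subtype = E ⊓ LinearMap.ker f :=
      Submodule.map_comap_subtype _ _
    rw [e, ← e2]
    exact (LinearEquiv.finrank_eq (Submodule.equivSubtypeMap E _))
  rw [h2] at h
  exact h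

variable {ι : Type}

theorem ker_restr (I : Finset ι) :
    LinearMap.ker (LinearMap.funLeft ℝ (ℝ × ℝ) (Subtype.val : {i // i ∉ I} → ι)) = supp I := by
  ext v
  rw [LinearMap.mem_ker, mem_supp]
  constructor
  · intro h i hi
    exact congrFun h ⟨i, hi⟩
  · intro h
    funext i
    exact h i.1 i.2

theorem supp_mono {I J : Finset ι} (h : I ⊆ J) : supp I ≤ supp J :=
  fun _ hv i hi => hv i fun h1 => hi (h h1)

end KX

theorem maximiser {ι : Type} [Fintype ι] [DecidableEq ι] (F : Submodule ℝ (ι → ℝ × ℝ)) :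
    ∃ I : Finset ι,
      (∀ J : Finset {i // i ∉ I}, finrank ℝ
        (F.map (LinearMap.funLeft ℝ (ℝ × ℝ) (Subtype.val : {i // i ∉ I} → ι)) ⊓ supp J :
          Submodule ℝ _) ≤ J.card) ∧
      (I = Finset.univ → Fintype.card ι ≤ finrank ℝ F ∧
        ∀ I' : Finset ι, finrank ℝ (F ⊓ supp I' : Submodule ℝ _) ≤
          I'.card + (finrank ℝ F - Fintype.card ι)) := by
  obtain ⟨I, -, hI⟩ := Finset.exists_max_image (Finset.univ : Finset (Finset ι))
    (fun I : Finset ι => (finrank ℝ (F ⊓ supp I : Submodule ℝ _) : ℤ) - I.card)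
    ⟨∅, Finset.mem_univ _⟩
  refine ⟨I, ?_, ?_⟩
  · intro J
    set r := LinearMap.funLeft ℝ (ℝ × ℝ) (Subtype.val : {i // i ∉ I} → ι) with hr
    set I' : Finset ι := I ∪ J.map (Function.Embedding.subtype _) with hI'
    have hcard : I'.card = I.card + J.card := by
      rw [hI', Finset.card_union_of_disjoint, Finset.card_map]
      rw [Finset.disjoint_left]
      intro i hi hi2
      rw [Finset.mem_map] at hi2
      obtain ⟨x, -, hx⟩ := hi2
      apply x.2
      have hx' : (x : ι) = i := hx
      rw [hx']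
      exact hi
    have hle : F.map r ⊓ supp J ≤ (F ⊓ supp I').map r := by
      rintro w ⟨⟨f, hf, rfl⟩, hw⟩
      refine ⟨f, ⟨hf, ?_⟩, rfl⟩
      intro i hi
      have hiI : i ∉ I := fun h => hi (Finset.mem_union_left _ h)
      have hiJ : (⟨i, hiI⟩ : {i // i ∉ I}) ∉ J := by
        intro h
        apply hi
        refine Finset.mem_union_right _ ?_
        rw [Finset.mem_map]
        exact ⟨⟨i, hiI⟩, h, rfl⟩
      exact hw ⟨i, hiI⟩ hiJ
    have hrank := KX.rank r (F ⊓ supp I')
    have hker : (F ⊓ supp I') ⊓ LinearMap.ker r = F ⊓ supp I := by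
      rw [hr, KX.ker_restr, inf_assoc, inf_eq_right.2 (KX.supp_mono Finset.subset_union_left)]
    rw [hker] at hrank
    have h1 := Submodule.finrank_mono hle
    have h2 := hI I' (Finset.mem_univ _)
    rw [hcard] at h2
    push_cast at h2
    omega
  · intro hIu
    have htop : supp (Finset.univ : Finset ι) = ⊤ := by
      rw [eq_top_iff]
      intro v _ i hi
      exact absurd (Finset.mem_univ i) hi
    have hle : ∀ I' : Finset ι, (finrank ℝ (F ⊓ supp I' : Submodule ℝ _) : ℤ) - I'.card ≤
        (finrank ℝ F : ℤ) - Fintype.card ι := by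
      intro I'
      have h := hI I' (Finset.mem_univ _)
      rw [hIu, htop, inf_top_eq, Finset.card_univ] at h
      exact h
    have h0 := hle ∅
    rw [Finset.card_empty] at h0
    have h00 : Fintype.card ι ≤ finrank ℝ F := by
      omega
    refine ⟨h00, ?_⟩
    intro I'
    have h := hle I'
    omega

theorem dim_bound {V V0 V1 : Type} [AddCommGroup V] [Module ℝ V] [FiniteDimensional ℝ V]
    [AddCommGroup V0] [Module ℝ V0] [AddCommGroup V1] [Module ℝ V1]
    (p0 : V →ₗ[ℝ] V0) (p1 : V →ₗ[ℝ] V1) (E : Submodule ℝ V) (G : Submodule ℝ V1)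
    (hG : G ≤ E.map p1) :
    finrank ℝ ((E ⊓ G.comap p1).map p0) + finrank ℝ (E.map p1) ≤ finrank ℝ E + finrank ℝ G := by
  have h1 := KX.rank p1 E
  have h2 := KX.rank p1 (E ⊓ G.comap p1)
  have h3 := KX.rank p0 (E ⊓ G.comap p1)
  have : FiniteDimensional ℝ G := Submodule.finiteDimensional_of_le hG
  have h4 : finrank ℝ ((E ⊓ G.comap p1).map p1) ≤ finrank ℝ G := by
    refine Submodule.finrank_mono ?_
    rintro w ⟨f, ⟨-, hf⟩, rfl⟩
    exact hf
  have h5 : finrank ℝ ((E ⊓ G.comap p1) ⊓ LinearMap.ker p1 : Submodule ℝ V) ≤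
      finrank ℝ (E ⊓ LinearMap.ker p1 : Submodule ℝ V) :=
    Submodule.finrank_mono (inf_le_inf_right _ inf_le_left)
  omega

end Pool.Agent.KP
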