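import Pool.Agent.Lib.MP_c95b3b_ag_KP.CoreA

/-! Project KP (MP_c95b3b_ag), module KF, part 2: the embeddings near few subspaces. -/

namespace Pool.Agent.KP

open Pool.Agent.L3 Module

theorem markov {K : Type} [Field K] {S : Subring K} (P : Places K S) (f : P.Pl → ℝ)
    (hf : ∀ w, 0 ≤ f w) (t : ℝ) (ht : 0 < t) (h : P.avg f ≤ t / 4) (s : Finset (Fin P.D))
    (hs : ∀ i ∈ s, t ≤ f (.inl i)) : 4 * (s.card : ℝ) ≤ P.D := by
  have h1 := P.sum_le_of_avg_le h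
  have h2 := P.sum_inl_le hf
  have h3 : ∑ i ∈ s, f (.inl i) ≤ ∑ i, f (.inl i) :=
    Finset.sum_le_sum_of_subset_of_nonneg (Finset.subset_univ s) fun i _ _ => hf _
  have h4 := Finset.card_nsmul_le_sum s (fun i => f (.inl i)) t hs
  rw [nsmul_eq_mul] at h4
  have h5 : t * (4 * (s.card : ℝ)) ≤ t * P.D := by nlinarith
  exact le_of_mul_le_mul_left h5 ht

theorem zero_mem_Good {ι : Type} [Fintype ι] (F : Submodule ℝ (ι → ℝ × ℝ)) (x : ℕ) :
    (0 : ι → ℝ × ℝ) ∈ Good F x := by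
  refine ⟨∅, fun _ => 0, Submodule.zero_mem _, ?_⟩
  have h : F ⊓ cel ∅ (fun _ => 0) = (⊥ : Submodule ℝ (ι → ℝ × ℝ)) := by
    rw [eq_bot_iff]
    intro v hv
    obtain ⟨l, hl, rfl⟩ := hv.2
    rw [Submodule.mem_bot]
    funext i
    simp [vec, hl i]
  rw [h, finrank_bot]
  exact Nat.zero_le _

section
variable {k : ℕ} {B c : ℝ} {Γ : Finset (Fin k → ℝ × ℝ)} (d : Dat k B c Γ) (C : Finset (Fin k))

/-- the vectors outside `C` of the elements of `E0` over a cell -/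
noncomputable def cut (E0 : Submodule ℝ (Fin k → ℝ × ℝ)) (R : Finset {i // i ∈ C})
    (ρ : {i // i ∈ C} → Fin 3) : Submodule ℝ ({i // i ∉ C} → ℝ × ℝ) :=
  (E0 ⊓ (E0.map (pr1 C) ⊓ cel R ρ).comap (pr1 C)).map (pr0 C)

theorem Dat.embed (E0 : Submodule ℝ (Fin k → ℝ × ℝ)) (x : ℕ) (CF : ℝ) (hCF : 0 ≤ CF)
    (hlift : ∀ e ∈ E0, ∃ e' ∈ E0, pr1 C e' = pr1 C e ∧ ‖e'‖ ≤ CF * ‖pr1 C e‖)
    (w : d.P.Pl) (e : Fin k → ℝ × ℝ) (he0 : e ∈ E0) (ε W G0 η : ℝ) (hε : 0 ≤ ε) (hη : 0 ≤ η)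
    (he : ‖d.vv C w - e‖ ≤ ε * ‖d.vv C w‖) (hW : ‖d.vv C w‖ ≤ W) (hG : ‖d.g w‖ ≤ G0)
    (v : {i // i ∈ C} → ℝ × ℝ) (hv : v ∈ Good (E0.map (pr1 C)) x)
    (hlt : ‖pr1 C (lvv d.P d.U w) - v‖ ≤ η * (‖pr1 C (lvv d.P d.U w)‖ + d.H)) :
    ∃ (R : Finset {i // i ∈ C}) (ρ : {i // i ∈ C} → Fin 3),
      finrank ℝ (E0.map (pr1 C) ⊓ cel R ρ : Submodule ℝ _) ≤ x ∧ ∃ b ∈ cut C E0 R ρ,
        ‖pr0 C (lvv d.P d.U w) - pr0 C (d.g w) - b‖ ≤
          ε * W + CF * (ε * W + G0 / d.H + η * (W + G0 / d.H + 1)) := by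
  have hH0 := d.hH0
  obtain ⟨R, ρ, hvm, hfin⟩ := hv
  refine ⟨R, ρ, hfin, ?_⟩
  have hvm' : d.H⁻¹ • v ∈ E0.map (pr1 C) ⊓ cel R ρ := Submodule.smul_mem _ _ hvm
  obtain ⟨a, ha, hav⟩ := hvm'.1
  obtain ⟨e', he', h1, h2⟩ := hlift (e - a) (E0.sub_mem he0 ha)
  have h3 : pr1 C (e - e') = d.H⁻¹ • v := by
    rw [map_sub, h1, map_sub, sub_sub_cancel, hav]
  refine ⟨pr0 C (e - e'), ⟨e - e', ⟨E0.sub_mem he0 he', ?_⟩, rfl⟩, ?_⟩
  · change pr1 C (e - e') ∈ E0.map (pr1 C) ⊓ cel R ρ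
    rw [h3]
    exact hvm'
  have h4 : pr0 C (lvv d.P d.U w) - pr0 C (d.g w) - pr0 C (e - e') =
      pr0 C ((d.vv C w - e) + e') := by
    rw [← d.pr0_vv C w, ← map_sub]
    congr 1
    abel
  rw [h4]
  refine (norm_pr0_le C _).trans ((norm_add_le _ _).trans (add_le_add ?_ ?_))
  · exact he.trans (mul_le_mul_of_nonneg_left hW hε)
  · refine h2.trans (mul_le_mul_of_nonneg_left ?_ hCF)
    have h5 := d.near C w e ε he
    have h6 : ‖pr1 C (lvv d.P d.U w)‖ ≤ d.H * ‖d.vv C w‖ + ‖d.g w‖ := by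
      rw [d.pr1_vv C w]
      refine (norm_add_le _ _).trans (add_le_add ?_ (norm_pr1_le C _))
      rw [norm_smul, Real.norm_of_nonneg hH0.le]
      exact mul_le_mul_of_nonneg_left (norm_pr1_le C _) hH0.le
    have h7 : d.H * ‖pr1 C (e - a)‖ ≤ ‖pr1 C (lvv d.P d.U w) - d.H • pr1 C e‖ +
        ‖pr1 C (lvv d.P d.U w) - v‖ := by
      have h8 : d.H • pr1 C (e - a) = (pr1 C (lvv d.P d.U w) - v) -
          (pr1 C (lvv d.P d.U w) - d.H • pr1 C e) := by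
        rw [map_sub, hav, smul_sub, smul_smul, mul_inv_cancel₀ hH0.ne', one_smul]
        abel
      have h9 : ‖d.H • pr1 C (e - a)‖ = d.H * ‖pr1 C (e - a)‖ := by
        rw [norm_smul, Real.norm_of_nonneg hH0.le]
      rw [← h9, h8]
      exact (norm_sub_le _ _).trans (le_of_eq (add_comm _ _))
    have h10 : d.H * (ε * ‖d.vv C w‖) ≤ d.H * (ε * W) :=
      mul_le_mul_of_nonneg_left (mul_le_mul_of_nonneg_left hW hε) hH0.le
    have h11 : η * (‖pr1 C (lvv d.P d.U w)‖ + d.H) ≤ η * ((d.H * W + G0) + d.H) := by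
      refine mul_le_mul_of_nonneg_left ?_ hη
      have := mul_le_mul_of_nonneg_left hW hH0.le
      linarith
    have h12 : d.H * ‖pr1 C (e - a)‖ ≤
        d.H * (ε * W + G0 / d.H + η * (W + G0 / d.H + 1)) := by
      have h13 : d.H * (ε * W + G0 / d.H + η * (W + G0 / d.H + 1)) =
          d.H * (ε * W) + G0 + η * ((d.H * W + G0) + d.H) := by
        field_simp
      rw [h13]
      linarith
    exact le_of_mul_le_mul_left h12 hH0

open Classical in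
theorem Dat.half (F : Submodule ℝ ({i // i ∈ C} → ℝ × ℝ)) (x : ℕ) (η W : ℝ) (hη : 0 < η)
    (hW : 0 < W) (h1 : d.P.avg (fun w => ‖d.vv C w‖) ≤ W / 4)
    (h2 : d.P.avg (fun w => if ∀ v ∈ Good F x, η * (‖lvv d.P (d.U ∘ Subtype.val :
      {i // i ∈ C} → d.K) w‖ + d.H * d.P.arch w) ≤ ‖lvv d.P (d.U ∘ Subtype.val) w - v‖
          then ‖lvv d.P (d.U ∘ Subtype.val : {i // i ∈ C} → d.K) w‖ else 0) ≤ η / 4 * d.H) :
    ∃ s : Finset (Fin d.P.D), (d.P.D : ℝ) ≤ 2 * s.card ∧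
      ∀ i ∈ s, ‖d.vv C (.inl i)‖ ≤ W ∧ ∃ v ∈ Good F x,
        ‖pr1 C (lvv d.P d.U (.inl i)) - v‖ ≤ η * (‖pr1 C (lvv d.P d.U (.inl i))‖ + d.H) := by
  have hH0 := d.hH0
  set bad : d.P.Pl → Prop := fun w => ∀ v ∈ Good F x, η * (‖lvv d.P (d.U ∘ Subtype.val :
      {i // i ∈ C} → d.K) w‖ + d.H * d.P.arch w) ≤ ‖lvv d.P (d.U ∘ Subtype.val) w - v‖ with hbad
  set s1 : Finset (Fin d.P.D) := Finset.univ.filter fun i => W ≤ ‖d.vv C (.inl i)‖ with hs1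
  set s2 : Finset (Fin d.P.D) := Finset.univ.filter fun i => bad (.inl i) with hs2
  have c1 : 4 * (s1.card : ℝ) ≤ d.P.D :=
    markov d.P (fun w => ‖d.vv C w‖) (fun _ => norm_nonneg _) W hW h1 s1 fun i hi =>
      (Finset.mem_filter.mp hi).2
  have c2 : 4 * (s2.card : ℝ) ≤ d.P.D := by
    refine markov d.P (fun w => if bad w then ‖lvv d.P (d.U ∘ Subtype.val :
      {i // i ∈ C} → d.K) w‖ else 0) (fun w => ?_) (η * d.H) (mul_pos hη hH0) ?_ s2 ?_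
    · split_ifs
      · exact norm_nonneg _
      · exact le_rfl
    · refine h2.trans (le_of_eq (by ring))
    · intro i hi
      have h3 : bad (.inl i) := (Finset.mem_filter.mp hi).2
      rw [if_pos h3]
      have h4 := h3 0 (zero_mem_Good F x)
      rw [sub_zero, d.P.arch_inl, mul_one] at h4
      have h5 := norm_nonneg (lvv d.P (d.U ∘ Subtype.val : {i // i ∈ C} → d.K) (.inl i))
      nlinarith [mul_nonneg hη.le h5]
  refine ⟨(s1 ∪ s2)ᶜ, ?_, ?_⟩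
  · have h3 : (((s1 ∪ s2)ᶜ).card : ℝ) = d.P.D - ((s1 ∪ s2).card : ℝ) := by
      rw [Finset.card_compl, Fintype.card_fin, Nat.cast_sub]
      exact (Finset.card_le_univ _).trans (by simp)
    have h4 : ((s1 ∪ s2).card : ℝ) ≤ s1.card + s2.card := by
      exact_mod_cast Finset.card_union_le s1 s2
    rw [h3]
    linarith
  · intro i hi
    rw [Finset.mem_compl, Finset.mem_union, not_or] at hi
    refine ⟨?_, ?_⟩
    · by_contra h
      exact hi.1 (Finset.mem_filter.mpr ⟨Finset.mem_univ _, (not_le.mp h).le⟩)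
    · by_contra h
      push Not at h
      refine hi.2 (Finset.mem_filter.mpr ⟨Finset.mem_univ _, fun v hv => ?_⟩)
      rw [d.P.arch_inl, mul_one]
      exact (h v hv).le

end

end Pool.Agent.KP
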