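import Pool.Agent.Lib.MP_c95b3b_ag_KP.TPrime
import Pool.Agent.Lib.MP_c95b3b_ag_KP.Big
import Pool.Agent.Lib.MP_c95b3b_ag_KP.Quot
import Pool.Agent.Lib.MP_c95b3b_ag_KP.CoreB

/-! Project KP (MP_c95b3b_ag), module KF: special points with heights on two levels. -/

namespace Pool.Agent.KP

open Pool.Agent.L3 Module

section
variable {k : ℕ} {B c : ℝ} {Γ : Finset (Fin k → ℝ × ℝ)} (𝒰 : Ultrafilter ℕ)
  (D : ℕ → Dat k B c Γ)

theorem gen_comp (hgen : ∀ Q : MvPolynomial (Fin k) ℤ, Q ≠ 0 →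
      ∀ᶠ n in (𝒰 : Filter ℕ), MvPolynomial.aeval (D n).U Q ≠ 0) {ι : Type} (f : ι → Fin k)
    (hf : Function.Injective f) (𝒬 : Finset (MvPolynomial ι ℤ)) (h𝒬 : ∀ Q ∈ 𝒬, Q ≠ 0) :
    ∀ᶠ n in (𝒰 : Filter ℕ), ∀ Q ∈ 𝒬, MvPolynomial.aeval ((D n).U ∘ f) Q ≠ 0 := by
  rw [Filter.eventually_all_finset]
  intro Q hQ
  have h1 : MvPolynomial.rename f Q ≠ 0 := by
    intro h
    exact h𝒬 Q hQ (MvPolynomial.rename_injective f hf (by rw [h, map_zero]))
  filter_upwards [hgen _ h1] with n hn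
  rwa [MvPolynomial.aeval_rename] at hn

/-- approximation of the scaled vectors by vectors of the limit -/
theorem approx (C : Finset (Fin k)) (E0 : Submodule ℝ (Fin k → ℝ × ℝ))
    (hlim : ∀ ε : ℝ, 0 < ε → ∀ᶠ n in (𝒰 : Filter ℕ), ∀ e ∈ (D n).E.map (scale C (D n).H⁻¹),
      ∃ e0 ∈ E0, ‖e - e0‖ ≤ ε * ‖e‖) (ε : ℝ) (hε : 0 < ε) :
    ∀ᶠ n in (𝒰 : Filter ℕ), ∃ e : (D n).P.Pl → Fin k → ℝ × ℝ, (∀ w, e w ∈ E0) ∧
      ∀ w, ‖(D n).vv C w - e w‖ ≤ ε * ‖(D n).vv C w‖ := by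
  filter_upwards [hlim ε hε] with n hn
  choose e he using fun w => hn _ ((D n).vv_mem C w)
  exact ⟨e, fun w => (he w).1, fun w => (he w).2⟩

/-- the case where the limit is not large enough -/
theorem core_big (hgen : ∀ Q : MvPolynomial (Fin k) ℤ, Q ≠ 0 →
      ∀ᶠ n in (𝒰 : Filter ℕ), MvPolynomial.aeval (D n).U Q ≠ 0)
    (C : Finset (Fin k)) (M : ℝ) (hM : 0 ≤ M) (hB : 0 ≤ B) (hc : 0 ≤ c)
    (hC1 : ∀ᶠ n in (𝒰 : Filter ℕ), ∀ i ∈ C,
      (D n).H ≤ (D n).P.avg (fun w => ‖(D n).P.lv w ((D n).U i)‖) ∧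
        (D n).P.avg (fun w => ‖(D n).P.lv w ((D n).U i)‖) ≤ B * (D n).H)
    (hC0 : ∀ᶠ n in (𝒰 : Filter ℕ), ∀ i, i ∉ C →
      (D n).P.avg (fun w => ‖(D n).P.lv w ((D n).U i)‖) ≤ M)
    (hH : ∀ T : ℝ, ∀ᶠ n in (𝒰 : Filter ℕ), T ≤ (D n).H)
    (E0 : Submodule ℝ (Fin k → ℝ × ℝ))
    (hlim : ∀ ε : ℝ, 0 < ε → ∀ᶠ n in (𝒰 : Filter ℕ), ∀ e ∈ (D n).E.map (scale C (D n).H⁻¹),
      ∃ e0 ∈ E0, ‖e - e0‖ ≤ ε * ‖e‖)
    (I : Finset {i // i ∈ C})
    (hI : ∀ J : Finset {i // i ∉ I}, finrank ℝ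
        ((E0.map (pr1 C)).map (LinearMap.funLeft ℝ (ℝ × ℝ)
          (Subtype.val : {i // i ∉ I} → {i // i ∈ C})) ⊓ supp J :
          Submodule ℝ _) ≤ J.card) : I = Finset.univ := by
  classical
  by_contra hne
  obtain ⟨j, hj⟩ : ∃ j, j ∉ I := by
    by_contra h
    push Not at h
    exact hne (Finset.eq_univ_iff_forall.mpr h)
  set F2 := (E0.map (pr1 C)).map (LinearMap.funLeft ℝ (ℝ × ℝ)
          (Subtype.val : {i // i ∉ I} → {i // i ∈ C})) with hF2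
  obtain ⟨δ, H0, 𝒬, hδ, h𝒬, hbig⟩ := big F2 hI (Fintype.card {i // i ∉ I} * B)
  set V : ℝ := k * (B + M) + c with hV
  have hV0 : 0 ≤ V := by positivity
  set f2 : {i // i ∉ I} → Fin k := fun i => i.1.1 with hf2
  have hf2i : Function.Injective f2 := fun a b h => Subtype.ext (Subtype.ext h)
  have hε : 0 < δ / (2 * (V + 1)) := by positivity
  obtain ⟨n, ⟨e, he0, he⟩, hn2, hn3, hn4, hn5⟩ := ((approx 𝒰 D C E0 hlim _ hε).and
    ((gen_comp 𝒰 D hgen f2 hf2i 𝒬 h𝒬).and (hC1.and (hC0.and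
      (hH (max 1 (max H0 (2 * c / δ)))))))).exists
  have hH1 : 1 ≤ (D n).H := (le_max_left _ _).trans hn5
  have hH2 : H0 ≤ (D n).H := ((le_max_left _ _).trans (le_max_right _ _)).trans hn5
  have hH3 : 2 * c / δ ≤ (D n).H := ((le_max_right _ _).trans (le_max_right _ _)).trans hn5
  have hH4 : 2 * c ≤ δ * (D n).H := by
    rw [div_le_iff₀ hδ] at hH3
    linarith
  have hVn := (D n).avg_vv_le C hH1 hB M hM (fun i hi => (hn3 i hi).2) hn4
  have hnear := (D n).avg_near C e _ V δ hε.le he hVn (by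
    have : 2 * (δ / (2 * (V + 1)) * V) = δ * (V / (V + 1)) := by
      field_simp
    rw [this]
    have h2 : V / (V + 1) ≤ 1 := by
      rw [div_le_one (by positivity)]
      linarith
    nlinarith) hH4
  have hfin := hbig (D n).K (D n).S (D n).P ((D n).U ∘ f2)
    (fun w => ((D n).H • pr1 C (e w)) ∘ Subtype.val) (D n).H (fun i => (D n).uu _) hn2 hH2
    (D n).hH0 ?_ ?_ ?_
  · have h1 := le_avg_lvv (D n).P ((D n).U ∘ f2) ⟨j, hj⟩
    have h2 := (hn3 j.1 j.2).1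
    exact absurd hfin (not_lt.mpr (h2.trans h1))
  · have h1 := avg_lvv_le (D n).P ((D n).U ∘ f2) (B * (D n).H) (fun i => (hn3 _ i.1.2).2)
    rw [mul_assoc]
    exact h1
  · intro w
    refine Submodule.mem_map_of_mem (f := LinearMap.funLeft ℝ (ℝ × ℝ)
          (Subtype.val : {i // i ∉ I} → {i // i ∈ C})) ?_
    exact Submodule.smul_mem _ _ (Submodule.mem_map_of_mem (he0 w))
  · refine le_trans ((D n).P.avg_mono fun w => ?_) hnear
    exact norm_comp_le (Subtype.val : {i // i ∉ I} → {i // i ∈ C})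
      (pr1 C (lvv (D n).P (D n).U w) - (D n).H • pr1 C (e w))

/-- large heights are impossible -/
theorem core_large (hgen : ∀ Q : MvPolynomial (Fin k) ℤ, Q ≠ 0 →
      ∀ᶠ n in (𝒰 : Filter ℕ), MvPolynomial.aeval (D n).U Q ≠ 0)
    (C : Finset (Fin k)) (M : ℝ) (hM : 0 ≤ M) (hB : 0 ≤ B)
    (hC1 : ∀ᶠ n in (𝒰 : Filter ℕ), ∀ i ∈ C,
      (D n).H ≤ (D n).P.avg (fun w => ‖(D n).P.lv w ((D n).U i)‖) ∧
        (D n).P.avg (fun w => ‖(D n).P.lv w ((D n).U i)‖) ≤ B * (D n).H)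
    (hC0 : ∀ᶠ n in (𝒰 : Filter ℕ), ∀ i, i ∉ C →
      (D n).P.avg (fun w => ‖(D n).P.lv w ((D n).U i)‖) ≤ M)
    (hH : ∀ T : ℝ, ∀ᶠ n in (𝒰 : Filter ℕ), T ≤ (D n).H) : False := by
  classical
  have hk : 0 < k := lt_of_le_of_lt (Nat.zero_le _) (D 0).hE
  have hc : 0 ≤ c := ((D 0).P.avg_nonneg fun w => norm_nonneg _).trans (D 0).hg
  obtain ⟨E0, hE0, hlim⟩ := exists_limit 𝒰 (k - 1) (fun n => (D n).E.map (scale C (D n).H⁻¹))
    (fun n => by
      have h1 := Submodule.finrank_map_le (scale C (D n).H⁻¹) (D n).E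
      have h2 := (D n).hE
      omega)
  -- the limit is large
  obtain ⟨I, hI, hI'⟩ := maximiser (E0.map (pr1 C))
  obtain ⟨hm1, hrado⟩ := hI' (core_big 𝒰 D hgen C M hM hB hc hC1 hC0 hH E0 hlim I hI)
  set F := E0.map (pr1 C) with hF
  set x := finrank ℝ F - Fintype.card {i // i ∈ C} with hx
  obtain ⟨ρ', hρ'⟩ := rado F x hrado
  have hcard : Fintype.card {i // i ∈ C} + Fintype.card {i // i ∉ C} = k := by
    rw [← Fintype.card_sum, Fintype.card_congr (Equiv.sumCompl (fun i => i ∈ C)),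
      Fintype.card_fin]
  have hFE : finrank ℝ F ≤ finrank ℝ E0 := Submodule.finrank_map_le _ _
  have hcut : ∀ (R : Finset {i // i ∈ C}) (ρ : {i // i ∈ C} → Fin 3),
      finrank ℝ (F ⊓ cel R ρ : Submodule ℝ _) ≤ x →
      finrank ℝ (cut C E0 R ρ) < Fintype.card {i // i ∉ C} := by
    intro R ρ h
    have h1 := dim_bound (pr0 C) (pr1 C) E0 (F ⊓ cel R ρ) inf_le_left
    have h2 : finrank ℝ (cut C E0 R ρ) = finrank ℝ
      ((E0 ⊓ (F ⊓ cel R ρ).comap (pr1 C)).map (pr0 C) : Submodule ℝ _) := rfl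
    rw [← h2, ← hF] at h1
    omega
  have hpos : 0 < Fintype.card {i // i ∉ C} := by omega
  have : Nonempty {i // i ∉ C} := Fintype.card_pos_iff.mp hpos
  -- Theorem T
  let T : Type := ↥Γ × Finset {i // i ∈ C} × ({i // i ∈ C} → Fin 3)
  obtain ⟨ηT, hηT, 𝒬T, h𝒬T, hT⟩ := T_main' (ι := {i // i ∉ C}) (Fintype.card T)
    (Fintype.card {i // i ∉ C} * M)
  obtain ⟨CF, hCF1, hlift⟩ := exists_lift (pr1 C) E0
  set V : ℝ := k * (B + M) + c with hV
  have hV0 : 0 ≤ V := by positivity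
  set W : ℝ := 4 * (V + 1) with hW
  have hW0 : 0 < W := by positivity
  set G0 : ℝ := ∑ γ ∈ Γ, ‖γ‖ with hG0
  have hG0' : 0 ≤ G0 := Finset.sum_nonneg fun _ _ => norm_nonneg _
  have hCF0 : 0 < CF := lt_of_lt_of_le one_pos hCF1
  set η : ℝ := ηT / (4 * CF * (W + 2)) with hη
  have hη0 : 0 < η := by positivity
  obtain ⟨δ, H0, 𝒬, hδ, h𝒬, hcov⟩ := cover F x ρ' hρ' η (η / 4)
    (Fintype.card {i // i ∈ C} * B) hη0 (by positivity)
  set ε : ℝ := min (δ / (2 * (V + 1))) (ηT / (4 * CF * (W + 1))) with hε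
  have hε0 : 0 < ε := lt_min (by positivity) (by positivity)
  obtain ⟨n, ⟨e, he0, he⟩, hn2, hnT, hn3, hn4, hn5⟩ := ((approx 𝒰 D C E0 hlim _ hε0).and
    ((gen_comp 𝒰 D hgen (Subtype.val : {i // i ∈ C} → Fin k) Subtype.val_injective 𝒬 h𝒬).and
    ((gen_comp 𝒰 D hgen (Subtype.val : {i // i ∉ C} → Fin k) Subtype.val_injective 𝒬T h𝒬T).and
    (hC1.and (hC0.and
      (hH (max (max 1 G0) (max (max H0 (4 * CF * G0 / ηT)) (2 * c / δ))))))))).exists
  have hHa : 1 ≤ (D n).H := ((le_max_left _ _).trans (le_max_left _ _)).trans hn5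
  have hHb : G0 ≤ (D n).H := ((le_max_right _ _).trans (le_max_left _ _)).trans hn5
  have hHc : H0 ≤ (D n).H :=
    (((le_max_left _ _).trans (le_max_left _ _)).trans (le_max_right _ _)).trans hn5
  have hHd : 4 * CF * G0 / ηT ≤ (D n).H :=
    (((le_max_right _ _).trans (le_max_left _ _)).trans (le_max_right _ _)).trans hn5
  have hHe : 2 * c / δ ≤ (D n).H := ((le_max_right _ _).trans (le_max_right _ _)).trans hn5
  have hHe' : 2 * c ≤ δ * (D n).H := by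
    rw [div_le_iff₀ hδ] at hHe
    linarith
  have hHpos := (D n).hH0
  have hVn := (D n).avg_vv_le C hHa hB M hM (fun i hi => (hn3 i hi).2) hn4
  have hnear := (D n).avg_near C e _ V δ hε0.le he hVn (by
    have h1 : ε * V ≤ δ / (2 * (V + 1)) * V := mul_le_mul_of_nonneg_right (min_le_left _ _) hV0
    have h2 : 2 * (δ / (2 * (V + 1)) * V) = δ * (V / (V + 1)) := by
      field_simp
    have h3 : V / (V + 1) ≤ 1 := by
      rw [div_le_one (by positivity)]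
      linarith
    nlinarith) hHe'
  have hcovn := hcov (D n).K (D n).S (D n).P ((D n).U ∘ Subtype.val)
    (fun w => (D n).H • pr1 C (e w)) (D n).H (fun i => (D n).uu _) hn2 hHc ?_ ?_ hnear
  rotate_left
  · have h1 := avg_lvv_le (D n).P ((D n).U ∘ (Subtype.val : {i // i ∈ C} → Fin k))
      (B * (D n).H) (fun i => (hn3 _ i.2).2)
    rw [mul_assoc]
    exact h1
  · exact fun w => Submodule.smul_mem _ _ (Submodule.mem_map_of_mem (he0 w))
  obtain ⟨s, hs, hsg⟩ := (D n).half C F x η W hη0 hW0 (hVn.trans (by rw [hW]; linarith)) hcovn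
  -- conclusion
  let eq := Fintype.equivFin T
  let Ef : T → Submodule ℝ ({i // i ∉ C} → ℝ × ℝ) := fun t =>
    if finrank ℝ (F ⊓ cel t.2.1 t.2.2 : Submodule ℝ _) ≤ x then cut C E0 t.2.1 t.2.2 else ⊥
  let pf : T → {i // i ∉ C} → ℝ × ℝ := fun t => pr0 C t.1.1
  have hfin := hT (D n).K (D n).S (D n).P ((D n).U ∘ Subtype.val)
    (fun i => (D n).uu _) (avg_lvv_le (D n).P ((D n).U ∘ (Subtype.val : {i // i ∉ C} → Fin k))
      M (fun i => hn4 _ i.2)) (fun l => pf (eq.symm l)) (fun l => Ef (eq.symm l)) s ?_ hs ?_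
  · obtain ⟨Q, hQ, hQ0⟩ := hfin
    exact hnT Q hQ hQ0
  · intro l
    by_cases h : finrank ℝ (F ⊓ cel (eq.symm l).2.1 (eq.symm l).2.2 : Submodule ℝ _) ≤ x
    · have h1 : Ef (eq.symm l) = cut C E0 (eq.symm l).2.1 (eq.symm l).2.2 := if_pos h
      rw [h1]
      exact hcut _ _ h
    · have h1 : Ef (eq.symm l) = ⊥ := if_neg h
      rw [h1, finrank_bot]
      exact hpos
  · intro i hi
    obtain ⟨h1, v, hv, h2⟩ := hsg i hi
    have hgi := (D n).hgΓ i
    have hgn : ‖(D n).g (.inl i)‖ ≤ G0 :=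
      Finset.single_le_sum (f := fun γ : Fin k → ℝ × ℝ => ‖γ‖) (fun _ _ => norm_nonneg _) hgi
    obtain ⟨R, ρ, hR, b, hb, h3⟩ := (D n).embed C E0 x CF hCF0.le hlift (.inl i) (e (.inl i))
      (he0 _) ε W G0 η hε0.le hη0.le (he _) h1 hgn v hv h2
    refine ⟨eq ⟨⟨(D n).g (.inl i), hgi⟩, R, ρ⟩, b, ?_, ?_⟩
    · have h4 : Ef (eq.symm (eq ⟨⟨(D n).g (.inl i), hgi⟩, R, ρ⟩)) = cut C E0 R ρ := by
        rw [Equiv.symm_apply_apply]
        exact if_pos hR
      rw [h4]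
      exact hb
    · have h4 : pf (eq.symm (eq ⟨⟨(D n).g (.inl i), hgi⟩, R, ρ⟩)) = pr0 C ((D n).g (.inl i)) := by
        rw [Equiv.symm_apply_apply]
      rw [h4]
      refine h3.trans ?_
      have hG1 : G0 / (D n).H ≤ 1 := by
        rw [div_le_one hHpos]
        exact hHb
      have hG2 : CF * (G0 / (D n).H) ≤ ηT / 4 := by
        rw [div_le_iff₀ hηT] at hHd
        rw [mul_div_assoc', div_le_div_iff₀ hHpos (by norm_num)]
        linarith
      have hε1 : CF * (ε * (W + 1)) ≤ ηT / 4 := by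
        have h4 : CF * (ε * (W + 1)) ≤ CF * (ηT / (4 * CF * (W + 1)) * (W + 1)) := by
          gcongr
          exact min_le_right _ _
        refine h4.trans (le_of_eq ?_)
        field_simp
      have hη1 : CF * (η * (W + 2)) = ηT / 4 := by
        rw [hη]
        field_simp
      have h5 : CF * (η * (W + G0 / (D n).H + 1)) ≤ CF * (η * (W + 2)) :=
        mul_le_mul_of_nonneg_left (mul_le_mul_of_nonneg_left (by linarith) hη0.le) hCF0.le
      have h6 : ε * W ≤ CF * (ε * (W + 1)) := by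
        have h7 : ε * W ≤ ε * (W + 1) := by nlinarith
        have h8 : (0:ℝ) ≤ ε * (W + 1) := by positivity
        nlinarith
      have h9 : CF * (ε * W) ≤ CF * (ε * (W + 1)) :=
        mul_le_mul_of_nonneg_left (mul_le_mul_of_nonneg_left (by linarith) hε0.le) hCF0.le
      nlinarith

end

theorem core (k : ℕ) (B c : ℝ) (Γ : Finset (Fin k → ℝ × ℝ)) (𝒰 : Ultrafilter ℕ)
    (D : ℕ → Dat k B c Γ)
    (hgen : ∀ Q : MvPolynomial (Fin k) ℤ, Q ≠ 0 →
      ∀ᶠ n in (𝒰 : Filter ℕ), MvPolynomial.aeval (D n).U Q ≠ 0) : False := by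
  classical
  have hk : 0 < k := lt_of_le_of_lt (Nat.zero_le _) (D 0).hE
  set A : ℕ → Fin k → ℝ := fun n i => (D n).P.avg (fun w => ‖(D n).P.lv w ((D n).U i)‖) with hA
  set C : Finset (Fin k) := Finset.univ.filter fun i =>
    ∀ M : ℝ, ∀ᶠ n in (𝒰 : Filter ℕ), M < A n i with hC
  have h0 : ∀ i, ∃ M : ℝ, i ∉ C → ∀ᶠ n in (𝒰 : Filter ℕ), A n i ≤ M := by
    intro i
    by_cases hi : i ∈ C
    · exact ⟨0, fun h => absurd hi h⟩
    · have h1 : ¬ ∀ M : ℝ, ∀ᶠ n in (𝒰 : Filter ℕ), M < A n i := fun h =>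
        hi (Finset.mem_filter.mpr ⟨Finset.mem_univ _, h⟩)
      rw [not_forall] at h1
      obtain ⟨M, hM⟩ := h1
      refine ⟨M, fun _ => ?_⟩
      rw [← Ultrafilter.eventually_not] at hM
      filter_upwards [hM] with n hn
      exact not_lt.mp hn
  choose M hM using h0
  set M' : ℝ := ∑ i, |M i| with hM'
  have hM0 : 0 ≤ M' := Finset.sum_nonneg fun _ _ => abs_nonneg _
  have hC0 : ∀ᶠ n in (𝒰 : Filter ℕ), ∀ i, i ∉ C → A n i ≤ M' := by
    rw [Filter.eventually_all]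
    intro i
    by_cases hi : i ∈ C
    · exact Filter.Eventually.of_forall fun n h => absurd hi h
    · filter_upwards [hM i hi] with n hn _
      refine hn.trans ((le_abs_self _).trans ?_)
      exact Finset.single_le_sum (f := fun i => |M i|) (fun _ _ => abs_nonneg _)
        (Finset.mem_univ i)
  rcases C.eq_empty_or_nonempty with hCe | ⟨j, hj⟩
  · -- bounded heights
    have : Nonempty (Fin k) := ⟨⟨0, hk⟩⟩
    obtain ⟨η, hη, 𝒬, h𝒬, hT⟩ := T_main' (ι := Fin k) (Fintype.card ↥Γ)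
      (Fintype.card (Fin k) * M')
    obtain ⟨n, hn1, hn2⟩ := (hC0.and (gen_comp 𝒰 D hgen (fun i => i)
      (fun _ _ h => h) 𝒬 h𝒬)).exists
    let eq := Fintype.equivFin ↥Γ
    obtain ⟨Q, hQ, hQ0⟩ := hT (D n).K (D n).S (D n).P (D n).U (D n).uu
      (avg_lvv_le _ _ _ fun i => hn1 i (by rw [hCe]; exact Finset.notMem_empty i))
      (fun l => (eq.symm l).1) (fun _ => (D n).E) Finset.univ
      (fun l => by rw [Fintype.card_fin]; exact (D n).hE)
      (by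
        rw [Finset.card_univ, Fintype.card_fin]
        have := (D n).P.D_cast_pos
        linarith)
      (fun i _ => ⟨eq ⟨_, (D n).hgΓ i⟩, _, (D n).mem (.inl i), by
        rw [Equiv.symm_apply_apply, sub_self, norm_zero]
        exact hη.le⟩)
    exact hn2 Q hQ hQ0
  · -- large heights
    have hj' : ∀ i ∈ C, ∀ T : ℝ, ∀ᶠ n in (𝒰 : Filter ℕ), T < A n i := fun i hi =>
      (Finset.mem_filter.mp hi).2
    have hC1 : ∀ᶠ n in (𝒰 : Filter ℕ), ∀ i ∈ C, (D n).H ≤ A n i ∧ A n i ≤ B * (D n).H := by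
      rw [Filter.eventually_all_finset]
      intro i hi
      filter_upwards [hj' i hi B] with n hn
      rcases (D n).hH i with h | h
      · exact absurd hn (not_lt.mpr h)
      · exact h
    have hB : 0 < B := by
      obtain ⟨n, hn1, hn2⟩ := (hC1.and (hj' j hj 0)).exists
      have h1 := (hn1 j hj).2
      have h2 := (D n).hH0
      by_contra h
      nlinarith
    refine core_large 𝒰 D hgen C M' hM0 hB.le hC1 hC0 fun T => ?_
    filter_upwards [hC1, hj' j hj (B * T)] with n hn1 hn2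
    have h1 := (hn1 j hj).2
    have h2 : B * T < B * (D n).H := lt_of_lt_of_le hn2 h1
    exact (lt_of_mul_lt_mul_left h2 hB.le).le

theorem two_level (k : ℕ) (B c : ℝ) (Γ : Finset (Fin k → ℝ × ℝ)) :
    ∃ 𝒬 : Finset (MvPolynomial (Fin k) ℤ), (∀ Q ∈ 𝒬, Q ≠ 0) ∧
      ∀ D : Dat k B c Γ, ∃ Q ∈ 𝒬, MvPolynomial.aeval D.U Q = 0 := by
  classical
  by_contra hcon
  push Not at hcon
  have hcount : Countable {Q : MvPolynomial (Fin k) ℤ // Q ≠ 0} := by
    have : Countable (MvPolynomial (Fin k) ℤ) := by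
      rw [← Cardinal.mk_le_aleph0_iff]
      exact MvPolynomial.cardinalMk_le_max.trans (by simp)
    infer_instance
  have hne : Nonempty {Q : MvPolynomial (Fin k) ℤ // Q ≠ 0} := ⟨⟨1, one_ne_zero⟩⟩
  obtain ⟨e, he⟩ := exists_surjective_nat {Q : MvPolynomial (Fin k) ℤ // Q ≠ 0}
  have h1 : ∀ n : ℕ, ∃ D : Dat k B c Γ, ∀ m ≤ n, MvPolynomial.aeval D.U (e m).1 ≠ 0 := by
    intro n
    obtain ⟨D, hD⟩ := hcon ((Finset.range (n + 1)).image fun m => (e m).1) (by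
      intro Q hQ
      obtain ⟨m, _, rfl⟩ := Finset.mem_image.mp hQ
      exact (e m).2)
    refine ⟨D, fun m hm => hD _ (Finset.mem_image.mpr ⟨m, ?_, rfl⟩)⟩
    exact Finset.mem_range.mpr (Nat.lt_succ_of_le hm)
  choose D hD using h1
  refine core k B c Γ (Filter.hyperfilter ℕ) D fun Q hQ => ?_
  obtain ⟨m, hm⟩ := he ⟨Q, hQ⟩
  have h2 : ∀ᶠ n in Filter.atTop, m ≤ n := Filter.eventually_ge_atTop m
  have h3 : (↑(Filter.hyperfilter ℕ) : Filter ℕ) ≤ Filter.atTop := by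
    rw [← Nat.cofinite_eq_atTop]
    exact Filter.hyperfilter_le_cofinite
  filter_upwards [h3 h2] with n hn
  have h4 := hD n m hn
  rwa [hm] at h4

end Pool.Agent.KP
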