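import Mathlib
import Pool.Agent.Lib.MP_c95b3b_ag_L3.FB
import Pool.Agent.Lib.MP_c95b3b_ag_KP.Place1b

/-! Project KP (MP_c95b3b_ag): the set-up for points over number fields, with the lower bound for
the mass by the height. -/

namespace Pool.Agent.L3

open Module

open FB in
theorem setup' (k : ℕ) (K0 : Type) [Field K0] [NumberField K0] (a b : Fin k → K0)
    (ha : ∀ i, a i ≠ 0) (hb : ∀ i, b i ≠ 0) : ∃ c : ℝ, ∃ Γ : Finset (Fin k → ℝ × ℝ),
    (∀ γ ∈ Γ, ‖γ‖ ≤ c) ∧
    ∀ (K : Type) [Field K] [NumberField K] [Algebra K0 K] (r : ℕ) (x y : Fin k → K),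
      Special r (fun i => algebraMap K0 K (a i)) (fun i => algebraMap K0 K (b i)) x y →
      ∃ (R : Subring K) (P : Places K R) (g : P.Pl → Fin k → ℝ × ℝ)
        (E : Submodule ℝ (Fin k → ℝ × ℝ)),
        (∀ i, UU R (algebraMap K0 K (a i) * x i)) ∧ P.avg (fun w => ‖g w‖) ≤ c ∧
        (∀ i, g (.inl i) ∈ Γ) ∧ Module.finrank ℝ E + r ≤ 2 * k ∧
        (∀ w, (fun i => P.lv w (algebraMap K0 K (a i) * x i)) - g w ∈ E) ∧
        (∀ i, P.avg (fun w => ‖P.lv w (algebraMap K0 K (a i) * x i)‖) ≤
          c + 4 * (Height.logHeight₁ (x i) / Module.finrank ℚ K)) ∧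
        ∀ i, Height.logHeight₁ (x i) / Module.finrank ℚ K ≤
          c + P.avg (fun w => ‖P.lv w (algebraMap K0 K (a i) * x i)‖) := by
  classical
  -- the constants
  choose fa hfa0 hfa using fun i => exists_poly (ha i)
  choose fb hfb0 hfb using fun i => exists_poly (hb i)
  choose Ca hCa using fun i => avg_abs_lg_le (fa i) (hfa0 i)
  choose Cb hCb using fun i => avg_abs_lg_le (fb i) (hfb0 i)
  set Γ : Finset (Fin k → ℝ × ℝ) := (Finset.univ : Finset (K0 →+* ℂ)).image
    (fun σ => fun i => (Real.log ‖σ (a i)‖, Real.log ‖σ (b i)‖)) with hΓ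
  set S : ℝ := ∑ i, (|Ca i| + |Cb i|) with hS
  have hS0 : 0 ≤ S := Finset.sum_nonneg fun i _ => by positivity
  set T : ℝ := ∑ γ ∈ Γ, ‖γ‖ with hT
  have hT0 : 0 ≤ T := Finset.sum_nonneg fun i _ => norm_nonneg _
  have hlog2 : 0 < Real.log 2 := Real.log_pos (by norm_num)
  refine ⟨4 * S + 2 * Real.log 2 + T, Γ, ?_, ?_⟩
  · intro γ hγ
    have h1 : ‖γ‖ ≤ T := Finset.single_le_sum (f := fun γ => ‖γ‖) (fun i _ => norm_nonneg _) hγ
    linarith
  intro K _ _ _ r x y hsp
  obtain ⟨hxy, Λ, hr, hΛ⟩ := hsp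
  set a' : Fin k → K := fun i => algebraMap K0 K (a i) with ha'
  set b' : Fin k → K := fun i => algebraMap K0 K (b i) with hb'
  have ha0 : ∀ i, a' i ≠ 0 := fun i => by
    simpa [ha'] using ha i
  have hb0 : ∀ i, b' i ≠ 0 := fun i => by
    simpa [hb'] using hb i
  have hx0 : ∀ i, x i ≠ 0 := fun i => (hxy i).1
  have hy0 : ∀ i, y i ≠ 0 := fun i => (hxy i).2.1
  have hone : ∀ i, 1 - a' i * x i = b' i * y i := fun i => by
    have := (hxy i).2.2
    rw [← this]
    simp only [ha', hb']
    ring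
  set X : Finset K := (Finset.univ.image (fun i => a' i * x i) ∪
    Finset.univ.image (fun i => b' i * y i)) ∪ Finset.univ.image x with hX
  have hXa : ∀ i, a' i * x i ∈ X := fun i => Finset.mem_union_left _
    (Finset.mem_union_left _ (Finset.mem_image_of_mem _ (Finset.mem_univ i)))
  have hXb : ∀ i, b' i * y i ∈ X := fun i => Finset.mem_union_left _
    (Finset.mem_union_right _ (Finset.mem_image_of_mem _ (Finset.mem_univ i)))
  have hXx : ∀ i, x i ∈ X := fun i => Finset.mem_union_right _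
    (Finset.mem_image_of_mem _ (Finset.mem_univ i))
  have hX0 : ∀ z ∈ X, z ≠ 0 := by
    intro z hz
    rcases Finset.mem_union.1 hz with h | h
    · rcases Finset.mem_union.1 h with h | h
      · obtain ⟨i, -, rfl⟩ := Finset.mem_image.1 h
        exact mul_ne_zero (ha0 i) (hx0 i)
      · obtain ⟨i, -, rfl⟩ := Finset.mem_image.1 h
        exact mul_ne_zero (hb0 i) (hy0 i)
    · obtain ⟨i, -, rfl⟩ := Finset.mem_image.1 h
      exact hx0 i
  set R : Subring K := Subring.closure ((X : Set K) ∪ {y | ∃ x ∈ X, y = x⁻¹}) with hR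
  obtain ⟨P, hPD, hPH, hPX⟩ : ∃ P : Places K R, P.D = Module.finrank ℚ K ∧
      (∀ x : K, P.avg (fun w => max 0 (P.lg w x)) ≤
        Height.logHeight₁ x / Module.finrank ℚ K) ∧
      ∀ x ∈ X, Height.logHeight₁ x / Module.finrank ℚ K ≤
        P.avg (fun w => max 0 (P.lg w x)) := Pool.Agent.KP.exists_places' K X hX0
  have hmem : ∀ z ∈ X, z ∈ R := fun z hz => Subring.subset_closure (Or.inl hz)
  have hinv : ∀ z ∈ X, z⁻¹ ∈ R := fun z hz => Subring.subset_closure (Or.inr ⟨z, hz, rfl⟩)
  have hUU : ∀ i, UU R (a' i * x i) := by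
    intro i
    refine ⟨mul_ne_zero (ha0 i) (hx0 i), ?_, hmem _ (hXa i), hinv _ (hXa i), ?_⟩
    · intro h
      have h1 := hone i
      rw [h, sub_self] at h1
      exact mul_ne_zero (hb0 i) (hy0 i) h1.symm
    · rw [hone i]
      exact hinv _ (hXb i)
  have hroot : ∀ i, Polynomial.aeval (a' i) (fa i) = 0 := by
    intro i
    simp only [ha']
    rw [Polynomial.aeval_algebraMap_apply, hfa i, map_zero]
  have hrootb : ∀ i, Polynomial.aeval (b' i) (fb i) = 0 := by
    intro i
    simp only [hb']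
    rw [Polynomial.aeval_algebraMap_apply, hfb i, map_zero]
  have hsumle : ∀ i, |Ca i| + |Cb i| ≤ S := fun i =>
    Finset.single_le_sum (f := fun i => |Ca i| + |Cb i|) (fun i _ => by positivity)
      (Finset.mem_univ i)
  refine ⟨R, P, fun w i => (P.lg w (a' i), P.lg w (b' i)), annih k Λ, hUU, ?_, ?_, ?_, ?_, ?_, ?_⟩
  · -- average of g
    have h1 : P.avg (fun w => ‖(fun i => (P.lg w (a' i), P.lg w (b' i)) : Fin k → ℝ × ℝ)‖) ≤
        P.avg (fun w => ∑ i, (|P.lg w (a' i)| + |P.lg w (b' i)|)) := by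
      refine P.avg_mono fun w => ?_
      have h0 : 0 ≤ ∑ i, (|P.lg w (a' i)| + |P.lg w (b' i)|) :=
        Finset.sum_nonneg fun i _ => by positivity
      rw [pi_norm_le_iff_of_nonneg h0]
      intro i
      have h2 : |P.lg w (a' i)| + |P.lg w (b' i)| ≤ ∑ i, (|P.lg w (a' i)| + |P.lg w (b' i)|) :=
        Finset.single_le_sum (f := fun i => |P.lg w (a' i)| + |P.lg w (b' i)|)
          (fun i _ => by positivity) (Finset.mem_univ i)
      refine le_trans ?_ h2
      rw [Prod.norm_def]
      exact max_le_add_of_nonneg (norm_nonneg _) (norm_nonneg _)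
    rw [P.avg_sum] at h1
    have h3 : ∑ i, P.avg (fun w => |P.lg w (a' i)| + |P.lg w (b' i)|) ≤ S := by
      rw [hS]
      refine Finset.sum_le_sum fun i _ => ?_
      rw [P.avg_add]
      exact add_le_add ((hCa i K R P _ (hroot i)).trans (le_abs_self _))
        ((hCb i K R P _ (hrootb i)).trans (le_abs_self _))
    linarith
  · intro i
    rw [hΓ]
    exact Finset.mem_image.2 ⟨(P.σ i).comp (algebraMap K0 K), Finset.mem_univ _, rfl⟩
  · exact finrank_annih k r Λ hr
  · intro w m hm
    have h1 := hΛ m hm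
    have h2 : P.lg w (∏ i, x i ^ (m i).1 * y i ^ (m i).2) = 0 := by rw [h1, P.lg_one]
    rw [lg_prod P w _ _ (fun i _ => mul_ne_zero (zpow_ne_zero _ (hx0 i)) (zpow_ne_zero _ (hy0 i)))]
      at h2
    rw [← h2]
    refine Finset.sum_congr rfl fun i _ => ?_
    rw [P.lg_mul w (zpow_ne_zero _ (hx0 i)) (zpow_ne_zero _ (hy0 i)), P.lg_zpow, P.lg_zpow]
    simp only [Pi.sub_apply, Prod.fst_sub, Prod.snd_sub, P.lv_fst, P.lv_snd]
    have h3 : P.lg w (a' i * x i) = P.lg w (a' i) + P.lg w (x i) := P.lg_mul w (ha0 i) (hx0 i)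
    have h4 : P.lg w (1 - a' i * x i) = P.lg w (b' i) + P.lg w (y i) := by
      rw [hone i]
      exact P.lg_mul w (hb0 i) (hy0 i)
    rw [show algebraMap K0 K (a i) = a' i from rfl, h3, h4]
    ring
  · intro i
    have h1 := avg_norm_lv_le P (hUU i)
    have h2 : P.avg (fun w => max 0 (P.lg w (a' i * x i))) ≤
        |Ca i| + Height.logHeight₁ (x i) / Module.finrank ℚ K := by
      have h3 : P.avg (fun w => max 0 (P.lg w (a' i * x i))) ≤
          P.avg (fun w => |P.lg w (a' i)| + max 0 (P.lg w (x i))) := by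
        refine P.avg_mono fun w => ?_
        rw [P.lg_mul w (ha0 i) (hx0 i)]
        refine max_le ?_ ?_
        · have := abs_nonneg (P.lg w (a' i))
          have := le_max_left 0 (P.lg w (x i))
          linarith
        · have := le_abs_self (P.lg w (a' i))
          have := le_max_right 0 (P.lg w (x i))
          linarith
      rw [P.avg_add] at h3
      have h4 := (hCa i K R P _ (hroot i)).trans (le_abs_self _)
      have h5 := hPH (x i)
      linarith
    have h6 := hsumle i
    have h7 := abs_nonneg (Cb i)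
    have h8 : P.avg (fun w => ‖P.lv w (a' i * x i)‖) ≤
        4 * S + 2 * Real.log 2 + T + 4 * (Height.logHeight₁ (x i) / Module.finrank ℚ K) := by
      linarith
    exact h8
  · intro i
    have h1 := hPX (x i) (hXx i)
    have h2 : P.avg (fun w => max 0 (P.lg w (x i))) ≤
        |Ca i| + P.avg (fun w => ‖P.lv w (a' i * x i)‖) := by
      have h3 : P.avg (fun w => max 0 (P.lg w (x i))) ≤
          P.avg (fun w => |P.lg w (a' i)| + ‖P.lv w (a' i * x i)‖) := by
        refine P.avg_mono fun w => ?_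
        have h4 := P.abs_lg_le_norm_lv w (a' i * x i)
        rw [P.lg_mul w (ha0 i) (hx0 i)] at h4
        have h5 := abs_le.1 h4
        have h6 := neg_abs_le (P.lg w (a' i))
        have h7 := abs_nonneg (P.lg w (a' i))
        refine max_le ?_ ?_
        · have := norm_nonneg (P.lv w (a' i * x i))
          linarith
        · have := le_abs_self (P.lg w (a' i) + P.lg w (x i))
          linarith
      rw [P.avg_add] at h3
      have h4 := (hCa i K R P _ (hroot i)).trans (le_abs_self _)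
      linarith
    have h6 := hsumle i
    have h7 := abs_nonneg (Cb i)
    have h8 : Height.logHeight₁ (x i) / Module.finrank ℚ K ≤
        4 * S + 2 * Real.log 2 + T + P.avg (fun w => ‖P.lv w (a' i * x i)‖) := by
      linarith
    exact h8

end Pool.Agent.L3
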