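import Pool.Agent.Lib.MP_c95b3b_ag_L3.Defs

/-! Project KP (MP_c95b3b_ag): special points of products of lines with heights on two levels.
Definitions and basic properties. -/

namespace Pool.Agent.KP

open Pool.Agent.L3 Module

section
variable {ι : Type}

/-- families of vectors supported on `I` -/
def supp (I : Finset ι) : Submodule ℝ (ι → ℝ × ℝ) where
  carrier := {v | ∀ i, i ∉ I → v i = 0}
  add_mem' := fun {v w} hv hw i hi => by
    have h1 : v i = 0 := hv i hi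
    have h2 : w i = 0 := hw i hi
    simp [h1, h2]
  zero_mem' := fun i _ => rfl
  smul_mem' := fun c v hv i hi => by
    have h1 : v i = 0 := hv i hi
    simp [h1]

/-- the family with the lengths `l` in the directions `ray (ρ i)` -/
def vec (ρ : ι → Fin 3) (l : ι → ℝ) : ι → ℝ × ℝ := fun i => l i • ray (ρ i)

/-- families supported on `I` with components in the lines of the rays `ρ` -/
def cel (I : Finset ι) (ρ : ι → Fin 3) : Submodule ℝ (ι → ℝ × ℝ) where
  carrier := {v | ∃ l : ι → ℝ, (∀ i, i ∉ I → l i = 0) ∧ v = vec ρ l}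
  add_mem' := fun {v w} hv hw => by
    obtain ⟨l, hl, rfl⟩ := hv
    obtain ⟨m, hm, rfl⟩ := hw
    refine ⟨l + m, fun i hi => by simp [hl i hi, hm i hi], ?_⟩
    funext i
    simp [vec, add_smul]
  zero_mem' := ⟨0, fun i _ => rfl, by funext i; simp [vec]⟩
  smul_mem' := fun c v hv => by
    obtain ⟨l, hl, rfl⟩ := hv
    refine ⟨c • l, fun i hi => by simp [hl i hi], ?_⟩
    funext i
    simp [vec, mul_smul]

/-- the exponent of `x ^ a.1 * (1 - x) ^ a.2` at the corner `j` -/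
def key (j : Fin 3) (a : ℤ × ℤ) : ℤ := ![a.1, a.2, -(a.1 + a.2)] j

/-- the local powers at the corner `j` -/
def loc {K : Type} [Field K] (j : Fin 3) (d α : ℕ) (x : K) : K := ![x ^ α, (1 - x) ^ α, x ^ (d - α)] j

/-- the normalisation at the corner `j` -/
def shift (j : Fin 3) (N : ℕ) : ℕ := ![N, N, 2 * N] j

variable [Fintype ι]

/-- pairing of exponents with vectors -/
noncomputable def pair (a : ι → ℤ × ℤ) (v : ι → ℝ × ℝ) : ℝ :=
  ∑ i, (((a i).1 : ℝ) * (v i).1 + ((a i).2 : ℝ) * (v i).2)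

/-- the vectors of the small cells of `F` -/
def Good (F : Submodule ℝ (ι → ℝ × ℝ)) (x : ℕ) : Set (ι → ℝ × ℝ) :=
  {v | ∃ (R : Finset ι) (ρ : ι → Fin 3), v ∈ F ⊓ cel R ρ ∧
    finrank ℝ (F ⊓ cel R ρ : Submodule ℝ _) ≤ x}

/-- the vector of logarithms at the place `w` -/
noncomputable def lvv {K : Type} [Field K] {S : Subring K} (P : Places K S) (U : ι → K)
    (w : P.Pl) : ι → ℝ × ℝ := fun i => P.lv w (U i)

end


/-! ## Basic properties -/

theorem mem_supp {ι : Type} {I : Finset ι} {v : ι → ℝ × ℝ} :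
    v ∈ supp I ↔ ∀ i, i ∉ I → v i = 0 := Iff.rfl

theorem mem_cel {ι : Type} {I : Finset ι} {ρ : ι → Fin 3} {v : ι → ℝ × ℝ} :
    v ∈ cel I ρ ↔ ∃ l : ι → ℝ, (∀ i, i ∉ I → l i = 0) ∧ v = vec ρ l := Iff.rfl

theorem norm_ray (j : Fin 3) : ‖ray j‖ = 1 := by
  fin_cases j <;> simp [ray, Prod.norm_def]

theorem ray_ne_zero (j : Fin 3) : ray j ≠ 0 := by
  intro h
  have h1 := norm_ray j
  rw [h, norm_zero] at h1
  exact zero_ne_one h1

theorem vec_apply {ι : Type} (ρ : ι → Fin 3) (l : ι → ℝ) (i : ι) :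
    vec ρ l i = l i • ray (ρ i) := rfl

theorem norm_vec {ι : Type} [Fintype ι] (ρ : ι → Fin 3) (l : ι → ℝ) : ‖vec ρ l‖ = ‖l‖ := by
  simp only [Pi.norm_def, vec_apply]
  congr 1
  refine Finset.sup_congr rfl fun i _ => ?_
  ext
  simp [norm_smul, norm_ray]

theorem vec_sub {ι : Type} (ρ : ι → Fin 3) (l m : ι → ℝ) : vec ρ (l - m) = vec ρ l - vec ρ m := by
  funext i
  simp [vec, sub_smul]

theorem vec_smul {ι : Type} (ρ : ι → Fin 3) (c : ℝ) (l : ι → ℝ) : vec ρ (c • l) = c • vec ρ l := by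
  funext i
  simp [vec, mul_smul]

theorem pair_vec {ι : Type} [Fintype ι] (a : ι → ℤ × ℤ) (ρ : ι → Fin 3) (l : ι → ℝ) :
    pair a (vec ρ l) = - ∑ i, (key (ρ i) (a i) : ℝ) * l i := by
  unfold pair
  rw [← Finset.sum_neg_distrib]
  refine Finset.sum_congr rfl fun i _ => ?_
  rw [vec_apply]
  generalize ρ i = j
  fin_cases j
  · simp [ray, key]
  · simp [ray, key]
  · simp [ray, key]
    ring

theorem pair_sub {ι : Type} [Fintype ι] (a : ι → ℤ × ℤ) (v w : ι → ℝ × ℝ) :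
    pair a (v - w) = pair a v - pair a w := by
  unfold pair
  rw [← Finset.sum_sub_distrib]
  refine Finset.sum_congr rfl fun i _ => ?_
  simp
  ring

theorem pair_smul {ι : Type} [Fintype ι] (a : ι → ℤ × ℤ) (c : ℝ) (v : ι → ℝ × ℝ) :
    pair a (c • v) = c * pair a v := by
  unfold pair
  rw [Finset.mul_sum]
  refine Finset.sum_congr rfl fun i _ => ?_
  simp
  ring

theorem abs_pair_le {ι : Type} [Fintype ι] (a : ι → ℤ × ℤ) (v : ι → ℝ × ℝ) (N : ℕ)
    (ha : ∀ i, |(a i).1| ≤ N ∧ |(a i).2| ≤ N) : |pair a v| ≤ 2 * Fintype.card ι * N * ‖v‖ := by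
  unfold pair
  refine (Finset.abs_sum_le_sum_abs _ _).trans ?_
  have h : ∀ i ∈ (Finset.univ : Finset ι),
      |((a i).1 : ℝ) * (v i).1 + ((a i).2 : ℝ) * (v i).2| ≤ 2 * N * ‖v‖ := by
    intro i _
    have h1 : |((a i).1 : ℝ)| ≤ N := by exact_mod_cast (ha i).1
    have h2 : |((a i).2 : ℝ)| ≤ N := by exact_mod_cast (ha i).2
    have h3 : |(v i).1| ≤ ‖v‖ := (norm_fst_le (v i)).trans (norm_le_pi_norm v i)
    have h4 : |(v i).2| ≤ ‖v‖ := (norm_snd_le (v i)).trans (norm_le_pi_norm v i)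
    calc |((a i).1 : ℝ) * (v i).1 + ((a i).2 : ℝ) * (v i).2|
        ≤ |((a i).1 : ℝ)| * |(v i).1| + |((a i).2 : ℝ)| * |(v i).2| := by
          rw [← abs_mul, ← abs_mul]
          exact abs_add_le _ _
      _ ≤ N * ‖v‖ + N * ‖v‖ := by
          gcongr
      _ = 2 * N * ‖v‖ := by ring
  refine (Finset.sum_le_sum h).trans ?_
  rw [Finset.sum_const, Finset.card_univ, nsmul_eq_mul]
  exact le_of_eq (by ring)

end Pool.Agent.KP
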