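import Pool.Agent.Lib.MP_c95b3b_ag_KP.Defs

/-! Project KP (MP_c95b3b_ag), module KF, part 1: scaling and projections. -/

namespace Pool.Agent.KP

open Pool.Agent.L3 Module

/-- one term of a sequence of counterexamples -/
structure Dat (k : ℕ) (B c : ℝ) (Γ : Finset (Fin k → ℝ × ℝ)) where
  K : Type
  fld : Field K
  S : Subring K
  P : Places K S
  U : Fin k → K
  uu : ∀ i, UU S (U i)
  g : P.Pl → Fin k → ℝ × ℝ
  hg : P.avg (fun w => ‖g w‖) ≤ c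
  hgΓ : ∀ i, g (.inl i) ∈ Γ
  E : Submodule ℝ (Fin k → ℝ × ℝ)
  hE : finrank ℝ E < k
  mem : ∀ w, lvv P U w - g w ∈ E
  H : ℝ
  hH0 : 0 < H
  hH : ∀ i, P.avg (fun w => ‖P.lv w (U i)‖) ≤ B ∨
    (H ≤ P.avg (fun w => ‖P.lv w (U i)‖) ∧ P.avg (fun w => ‖P.lv w (U i)‖) ≤ B * H)

attribute [instance] Dat.fld

theorem norm_comp_le {ι κ : Type} [Fintype ι] [Fintype κ] (f : κ → ι) (v : ι → ℝ × ℝ) :
    ‖v ∘ f‖ ≤ ‖v‖ :=
  (pi_norm_le_iff_of_nonneg (norm_nonneg _)).2 fun i => norm_le_pi_norm v (f i)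

theorem norm_le_sum {ι : Type} [Fintype ι] (v : ι → ℝ × ℝ) : ‖v‖ ≤ ∑ i, ‖v i‖ :=
  (pi_norm_le_iff_of_nonneg (Finset.sum_nonneg fun _ _ => norm_nonneg _)).2 fun i =>
    Finset.single_le_sum (f := fun i => ‖v i‖) (fun _ _ => norm_nonneg _) (Finset.mem_univ i)

section
variable {k : ℕ}

/-- multiplication of the coordinates in `C` by `s` -/
noncomputable def scale (C : Finset (Fin k)) (s : ℝ) : (Fin k → ℝ × ℝ) →ₗ[ℝ] (Fin k → ℝ × ℝ) :=
  LinearMap.pi fun i => (if i ∈ C then s else 1) • LinearMap.proj i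

/-- the coordinates in `C` -/
noncomputable def pr1 (C : Finset (Fin k)) : (Fin k → ℝ × ℝ) →ₗ[ℝ] ({i // i ∈ C} → ℝ × ℝ) :=
  LinearMap.funLeft ℝ (ℝ × ℝ) Subtype.val

/-- the coordinates outside `C` -/
noncomputable def pr0 (C : Finset (Fin k)) : (Fin k → ℝ × ℝ) →ₗ[ℝ] ({i // i ∉ C} → ℝ × ℝ) :=
  LinearMap.funLeft ℝ (ℝ × ℝ) Subtype.val

theorem scale_apply (C : Finset (Fin k)) (s : ℝ) (v : Fin k → ℝ × ℝ) (i : Fin k) :
    scale C s v i = (if i ∈ C then s else 1) • v i := rfl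

theorem pr1_apply (C : Finset (Fin k)) (v : Fin k → ℝ × ℝ) : pr1 C v = v ∘ Subtype.val := rfl

theorem pr0_apply (C : Finset (Fin k)) (v : Fin k → ℝ × ℝ) : pr0 C v = v ∘ Subtype.val := rfl

theorem pr1_scale (C : Finset (Fin k)) (s : ℝ) (v : Fin k → ℝ × ℝ) :
    pr1 C (scale C s v) = s • pr1 C v := by
  funext i
  simp [pr1_apply, scale_apply, i.2]

theorem pr0_scale (C : Finset (Fin k)) (s : ℝ) (v : Fin k → ℝ × ℝ) :
    pr0 C (scale C s v) = pr0 C v := by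
  funext i
  simp [pr0_apply, scale_apply, i.2]

theorem norm_pr1_le (C : Finset (Fin k)) (v : Fin k → ℝ × ℝ) : ‖pr1 C v‖ ≤ ‖v‖ :=
  norm_comp_le _ v

theorem norm_pr0_le (C : Finset (Fin k)) (v : Fin k → ℝ × ℝ) : ‖pr0 C v‖ ≤ ‖v‖ :=
  norm_comp_le _ v

theorem norm_scale_le (C : Finset (Fin k)) {s : ℝ} (h0 : 0 ≤ s) (h1 : s ≤ 1)
    (v : Fin k → ℝ × ℝ) : ‖scale C s v‖ ≤ ‖v‖ := by
  refine (pi_norm_le_iff_of_nonneg (norm_nonneg _)).2 fun i => ?_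
  rw [scale_apply, norm_smul]
  have h2 := norm_le_pi_norm v i
  split_ifs
  · rw [Real.norm_of_nonneg h0]
    nlinarith [norm_nonneg (v i)]
  · simpa using h2

end

theorem lvv_comp {ι κ : Type} [Fintype ι] [Fintype κ] {K : Type} [Field K] {S : Subring K}
    (P : Places K S) (U : ι → K) (f : κ → ι) (w : P.Pl) : lvv P (U ∘ f) w = lvv P U w ∘ f := rfl

theorem avg_lvv_le {ι : Type} [Fintype ι] {K : Type} [Field K] {S : Subring K} (P : Places K S)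
    (U : ι → K) (b : ℝ) (h : ∀ i, P.avg (fun w => ‖P.lv w (U i)‖) ≤ b) :
    P.avg (fun w => ‖lvv P U w‖) ≤ Fintype.card ι * b := by
  refine (P.avg_mono fun w => norm_le_sum (lvv P U w)).trans ?_
  rw [P.avg_sum]
  refine (Finset.sum_le_card_nsmul _ _ b fun i _ => h i).trans ?_
  simp

theorem le_avg_lvv {ι : Type} [Fintype ι] {K : Type} [Field K] {S : Subring K} (P : Places K S)
    (U : ι → K) (i : ι) : P.avg (fun w => ‖P.lv w (U i)‖) ≤ P.avg (fun w => ‖lvv P U w‖) :=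
  P.avg_mono fun w => norm_le_pi_norm (lvv P U w) i

section
variable {k : ℕ} {B c : ℝ} {Γ : Finset (Fin k → ℝ × ℝ)} (d : Dat k B c Γ) (C : Finset (Fin k))

/-- the scaled vectors -/
noncomputable def Dat.vv (w : d.P.Pl) : Fin k → ℝ × ℝ := scale C d.H⁻¹ (lvv d.P d.U w - d.g w)

theorem Dat.vv_mem (w : d.P.Pl) : d.vv C w ∈ d.E.map (scale C d.H⁻¹) :=
  Submodule.mem_map_of_mem (d.mem w)

theorem Dat.pr1_vv (w : d.P.Pl) :
    pr1 C (lvv d.P d.U w) = d.H • pr1 C (d.vv C w) + pr1 C (d.g w) := by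
  rw [Dat.vv, pr1_scale, smul_smul, mul_inv_cancel₀ d.hH0.ne', one_smul, map_sub,
    sub_add_cancel]

theorem Dat.pr0_vv (w : d.P.Pl) :
    pr0 C (d.vv C w) = pr0 C (lvv d.P d.U w) - pr0 C (d.g w) := by
  rw [Dat.vv, pr0_scale, map_sub]

theorem Dat.avg_vv_le (hH1 : 1 ≤ d.H) (hB : 0 ≤ B) (M : ℝ) (hM : 0 ≤ M)
    (h1 : ∀ i ∈ C, d.P.avg (fun w => ‖d.P.lv w (d.U i)‖) ≤ B * d.H)
    (h0 : ∀ i, i ∉ C → d.P.avg (fun w => ‖d.P.lv w (d.U i)‖) ≤ M) :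
    d.P.avg (fun w => ‖d.vv C w‖) ≤ k * (B + M) + c := by
  have hH0 := d.hH0
  have hi0 : 0 ≤ d.H⁻¹ := inv_nonneg.mpr hH0.le
  have hi1 : d.H⁻¹ ≤ 1 := inv_le_one_of_one_le₀ hH1
  have key : ∀ w, ‖d.vv C w‖ ≤ ∑ i, (if i ∈ C then d.H⁻¹ else 1) * ‖d.P.lv w (d.U i)‖ + ‖d.g w‖ := by
    intro w
    rw [Dat.vv, map_sub]
    refine (norm_sub_le _ _).trans (add_le_add ?_ (norm_scale_le C hi0 hi1 _))
    refine (norm_le_sum _).trans (le_of_eq (Finset.sum_congr rfl fun i _ => ?_))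
    rw [scale_apply, norm_smul]
    congr 1
    split_ifs
    · exact Real.norm_of_nonneg hi0
    · exact norm_one
  refine (d.P.avg_mono key).trans ?_
  rw [d.P.avg_add, d.P.avg_sum]
  refine add_le_add ?_ d.hg
  have h2 : ∀ i ∈ (Finset.univ : Finset (Fin k)),
      d.P.avg (fun w => (if i ∈ C then d.H⁻¹ else 1) * ‖d.P.lv w (d.U i)‖) ≤ B + M := by
    intro i _
    rw [d.P.avg_mul]
    by_cases hi : i ∈ C
    · rw [if_pos hi]
      have h3 := mul_le_mul_of_nonneg_left (h1 i hi) hi0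
      have h4 : d.H⁻¹ * (B * d.H) = B := by
        field_simp
      rw [h4] at h3
      linarith
    · rw [if_neg hi, one_mul]
      linarith [h0 i hi]
  refine (Finset.sum_le_card_nsmul _ _ _ h2).trans (le_of_eq ?_)
  rw [Finset.card_univ, Fintype.card_fin, nsmul_eq_mul]

/-- the distance from a multiple of an approximation -/
theorem Dat.near (w : d.P.Pl) (e : Fin k → ℝ × ℝ) (ε : ℝ)
    (he : ‖d.vv C w - e‖ ≤ ε * ‖d.vv C w‖) :
    ‖pr1 C (lvv d.P d.U w) - d.H • pr1 C e‖ ≤ d.H * (ε * ‖d.vv C w‖) + ‖d.g w‖ := by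
  have hH0 := d.hH0
  rw [d.pr1_vv C w, add_sub_right_comm, ← smul_sub, ← map_sub]
  refine (norm_add_le _ _).trans (add_le_add ?_ (norm_pr1_le C _))
  rw [norm_smul, Real.norm_of_nonneg hH0.le]
  exact mul_le_mul_of_nonneg_left ((norm_pr1_le C _).trans he) hH0.le

theorem Dat.avg_near (e : d.P.Pl → Fin k → ℝ × ℝ) (ε V δ : ℝ) (hε : 0 ≤ ε)
    (he : ∀ w, ‖d.vv C w - e w‖ ≤ ε * ‖d.vv C w‖)
    (hV : d.P.avg (fun w => ‖d.vv C w‖) ≤ V) (h1 : 2 * (ε * V) ≤ δ) (h2 : 2 * c ≤ δ * d.H) :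
    d.P.avg (fun w => ‖pr1 C (lvv d.P d.U w) - d.H • pr1 C (e w)‖) ≤ δ * d.H := by
  have hH0 := d.hH0
  refine (d.P.avg_mono fun w => d.near C w (e w) ε (he w)).trans ?_
  rw [d.P.avg_add, d.P.avg_mul, d.P.avg_mul]
  have h3 := d.hg
  have h4 : ε * d.P.avg (fun w => ‖d.vv C w‖) ≤ ε * V := mul_le_mul_of_nonneg_left hV hε
  have h5 := mul_le_mul_of_nonneg_left h4 hH0.le
  nlinarith

end

end Pool.Agent.KP
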