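import Mathlib

/-!
# KL: limits of subspaces, two bounds of linear algebra
-/

namespace Pool.Agent.KP

open Module

theorem exists_lift {V W : Type} [NormedAddCommGroup V] [NormedSpace ℝ V] [FiniteDimensional ℝ V]
    [NormedAddCommGroup W] [NormedSpace ℝ W] (L : V →ₗ[ℝ] W) (E : Submodule ℝ V) :
    ∃ C : ℝ, 1 ≤ C ∧ ∀ e ∈ E, ∃ e' ∈ E, L e' = L e ∧ ‖e'‖ ≤ C * ‖L e‖ := by
  obtain ⟨s, hs⟩ := (L.comp E.subtype).rangeRestrict.exists_rightInverse_of_surjective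
    (L.comp E.subtype).range_rangeRestrict
  refine ⟨max 1 ‖LinearMap.toContinuousLinearMap s‖, le_max_left _ _, fun e he => ?_⟩
  have h1 : (L.comp E.subtype).rangeRestrict (s ((L.comp E.subtype).rangeRestrict ⟨e, he⟩)) =
      (L.comp E.subtype).rangeRestrict ⟨e, he⟩ := LinearMap.congr_fun hs _
  refine ⟨(s ((L.comp E.subtype).rangeRestrict ⟨e, he⟩)).1, Subtype.mem _, ?_, ?_⟩
  · exact congrArg Subtype.val h1
  · have h2 := (LinearMap.toContinuousLinearMap s).le_opNorm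
      ((L.comp E.subtype).rangeRestrict ⟨e, he⟩)
    have h3 : ‖(L.comp E.subtype).rangeRestrict ⟨e, he⟩‖ = ‖L e‖ := rfl
    rw [h3] at h2
    refine le_trans h2 ?_
    exact mul_le_mul_of_nonneg_right (le_max_right _ _) (norm_nonneg _)

theorem dist_inf {V : Type} [NormedAddCommGroup V] [NormedSpace ℝ V] [FiniteDimensional ℝ V]
    (F G : Submodule ℝ V) : ∃ C : ℝ, 1 ≤ C ∧ ∀ v ∈ G, ∀ f ∈ F, ∃ u ∈ F ⊓ G,
      ‖v - u‖ ≤ C * ‖v - f‖ := by
  haveI : IsClosed (F : Set V) := F.closed_of_finiteDimensional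
  obtain ⟨C, hC1, hC⟩ := exists_lift F.mkQ G
  refine ⟨C, hC1, fun v hv f hf => ?_⟩
  obtain ⟨v', hv', hL, hn⟩ := hC v hv
  have h1 : v - v' ∈ F := by
    rw [← Submodule.ker_mkQ F, LinearMap.mem_ker, map_sub, hL, sub_self]
  refine ⟨v - v', ⟨h1, G.sub_mem hv hv'⟩, ?_⟩
  have h2 : v - (v - v') = v' := by abel
  rw [h2]
  refine hn.trans (mul_le_mul_of_nonneg_left ?_ (zero_le_one.trans hC1))
  have h3 : F.mkQ v = F.mkQ (v - f) := by
    rw [map_sub]
    have h4 : F.mkQ f = 0 := by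
      rw [← LinearMap.mem_ker, Submodule.ker_mkQ]
      exact hf
    rw [h4, sub_zero]
  rw [h3]
  exact Submodule.Quotient.norm_mk_le F (v - f)

theorem exists_limit {V : Type} [NormedAddCommGroup V] [NormedSpace ℝ V] [FiniteDimensional ℝ V]
    (𝒰 : Ultrafilter ℕ) (d : ℕ) (E : ℕ → Submodule ℝ V) (hE : ∀ n, finrank ℝ (E n) ≤ d) :
    ∃ E0 : Submodule ℝ V, finrank ℝ E0 ≤ d ∧
      ∀ ε : ℝ, 0 < ε → ∀ᶠ n in (𝒰 : Filter ℕ), ∀ e ∈ E n, ∃ e0 ∈ E0, ‖e - e0‖ ≤ ε * ‖e‖ := by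
  classical
  let φ : V ≃L[ℝ] EuclideanSpace ℝ (Fin (finrank ℝ V)) := toEuclidean
  let E' : ℕ → Submodule ℝ (EuclideanSpace ℝ (Fin (finrank ℝ V))) := fun n =>
    (E n).map (φ.toLinearEquiv : V →ₗ[ℝ] EuclideanSpace ℝ (Fin (finrank ℝ V)))
  let P : ℕ → V →L[ℝ] V := fun n =>
    (φ.symm : EuclideanSpace ℝ (Fin (finrank ℝ V)) →L[ℝ] V).comp
      (((E' n).starProjection).comp (φ : V →L[ℝ] EuclideanSpace ℝ (Fin (finrank ℝ V))))
  have hPe : ∀ n, ∀ e ∈ E n, P n e = e := by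
    intro n e he
    have h1 : φ e ∈ E' n := ⟨e, he, rfl⟩
    have h2 : (E' n).starProjection (φ e) = φ e := Submodule.starProjection_eq_self_iff.2 h1
    change φ.symm ((E' n).starProjection (φ e)) = e
    rw [h2, ContinuousLinearEquiv.symm_apply_apply]
  have hPr : ∀ n v, P n v ∈ E n := by
    intro n v
    obtain ⟨e, he, hee⟩ := (E' n).starProjection_apply_mem (φ v)
    change φ.symm ((E' n).starProjection (φ v)) ∈ E n
    rw [← hee]
    change φ.symm (φ e) ∈ E n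
    rw [ContinuousLinearEquiv.symm_apply_apply]
    exact he
  have hPn : ∀ n, ‖P n‖ ≤ ‖(φ.symm : EuclideanSpace ℝ (Fin (finrank ℝ V)) →L[ℝ] V)‖ *
      (1 * ‖(φ : V →L[ℝ] EuclideanSpace ℝ (Fin (finrank ℝ V)))‖) := by
    intro n
    refine (ContinuousLinearMap.opNorm_comp_le _ _).trans
      (mul_le_mul_of_nonneg_left ?_ (norm_nonneg _))
    refine (ContinuousLinearMap.opNorm_comp_le _ _).trans
      (mul_le_mul_of_nonneg_right ?_ (norm_nonneg _))
    exact (E' n).starProjection_norm_le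
  haveI : ProperSpace (V →L[ℝ] V) := FiniteDimensional.proper_real _
  obtain ⟨Q, -, hQ⟩ := (isCompact_closedBall (0 : V →L[ℝ] V)
    (‖(φ.symm : EuclideanSpace ℝ (Fin (finrank ℝ V)) →L[ℝ] V)‖ *
      (1 * ‖(φ : V →L[ℝ] EuclideanSpace ℝ (Fin (finrank ℝ V)))‖))).ultrafilter_le_nhds
      (𝒰.map P) (by
        rw [Filter.le_principal_iff, Ultrafilter.coe_map, Filter.mem_map]
        filter_upwards with n
        rw [Set.mem_preimage, mem_closedBall_zero_iff]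
        exact hPn n)
  have hQ' : Filter.Tendsto P (𝒰 : Filter ℕ) (nhds Q) := hQ
  refine ⟨LinearMap.range (Q : V →ₗ[ℝ] V), ?_, fun ε hε => ?_⟩
  · by_contra hcon
    push Not at hcon
    have h1 : ((d + 1 : ℕ) : Cardinal) ≤ (Q : V →ₗ[ℝ] V).rank := by
      rw [LinearMap.rank, ← finrank_eq_rank]
      exact_mod_cast hcon
    have h2 := (isOpen_setOf_nat_le_rank (𝕜 := ℝ) (E := V) (F := V) (d + 1)).mem_nhds h1
    obtain ⟨n, hn⟩ := (hQ'.eventually h2).exists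
    have h3 : ((d + 1 : ℕ) : Cardinal) ≤ (P n : V →ₗ[ℝ] V).rank := hn
    rw [LinearMap.rank, ← finrank_eq_rank] at h3
    have h4 : d + 1 ≤ finrank ℝ (LinearMap.range (P n : V →ₗ[ℝ] V)) := by exact_mod_cast h3
    have h5 : LinearMap.range (P n : V →ₗ[ℝ] V) ≤ E n := by
      rintro _ ⟨v, rfl⟩
      exact hPr n v
    have h6 := Submodule.finrank_mono h5
    have h7 := hE n
    omega
  · have h1 : ∀ᶠ n in (𝒰 : Filter ℕ), ‖P n - Q‖ < ε := by
      have h2 := Metric.tendsto_nhds.1 hQ' ε hε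
      filter_upwards [h2] with n hn
      rwa [dist_eq_norm] at hn
    filter_upwards [h1] with n hn e he
    refine ⟨Q e, ⟨e, rfl⟩, ?_⟩
    have h2 : e - Q e = (P n - Q) e := by
      rw [ContinuousLinearMap.sub_apply, hPe n e he]
    rw [h2]
    exact ((P n - Q).le_opNorm e).trans (mul_le_mul_of_nonneg_right hn.le (norm_nonneg _))

end Pool.Agent.KP
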