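import Pool.Agent.Lib.MP_c95b3b_ag_KP.Defs
import Pool.Agent.Lib.MP_c95b3b_ag_L3.TG

/-! Project KP (MP_c95b3b_ag), module KT: Theorem T with a proportion of the embeddings.  The proof
is that of `T_main` (helper19) with other constants. -/

namespace Pool.Agent.KP

open Pool.Agent.L3

open Pool.Agent.L3.TG in
theorem T_frac (k q : ℕ) (hk : 1 ≤ k) (B θ : ℝ) (hθ : 0 < θ) : ∃ η : ℝ, 0 < η ∧
    ∃ 𝒬 : Finset (MvPolynomial (Fin k) ℤ), (∀ Q ∈ 𝒬, Q ≠ 0) ∧
      ∀ (K : Type) [Field K] (R : Subring K) (P : Places K R) (U : Fin k → K),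
        (∀ i, U i ∈ R) → (∀ i, U i ≠ 0 ∧ U i ≠ 1) →
        P.avg (fun w => ∑ i, ‖P.lv w (U i)‖) ≤ B →
        ∀ (p : Fin q → Fin k → ℝ × ℝ) (E : Fin q → Submodule ℝ (Fin k → ℝ × ℝ))
          (s : Finset (Fin P.D)),
          (∀ l, Module.finrank ℝ (E l) < k) → θ * P.D ≤ s.card →
          (∀ i ∈ s, ∃ l, ∃ e ∈ E l, ‖(fun a => P.lv (.inl i) (U a)) - p l - e‖ ≤ η) →
          ∃ Q ∈ 𝒬, MvPolynomial.aeval U Q = 0 := by
  classical
  obtain ⟨B', hB', hB1⟩ : ∃ B', B ≤ B' ∧ 1 ≤ B' := ⟨max B 1, le_max_left _ _, le_max_right _ _⟩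
  have hk' : (1 : ℝ) ≤ k := by exact_mod_cast hk
  obtain ⟨lam, hlam⟩ : ∃ lam : ℝ, lam = 2 * B' / θ := ⟨_, rfl⟩
  have hlam0 : 0 < lam := by
    rw [hlam]
    positivity
  have hlamθ : lam * θ = 2 * B' := by
    rw [hlam]
    field_simp
  set ρ : ℝ := 2 * k * (2 * lam + 1) with hρ
  have hρ2 : lam ≤ ρ := by nlinarith
  have hρ1 : 1 ≤ ρ := by nlinarith
  obtain ⟨M0, hM0⟩ := T_core k q hk ρ hρ1
  obtain ⟨M, hM, hM1, hMB⟩ : ∃ M : ℕ, M0 ≤ M ∧ 1 ≤ M ∧ 4 * (1 + k + B') / θ < M := by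
    refine ⟨max (max M0 1) (⌈4 * (1 + k + B') / θ⌉₊ + 1), ?_, ?_, ?_⟩
    · exact (le_max_left _ _).trans (le_max_left _ _)
    · exact (le_max_right _ _).trans (le_max_left _ _)
    · have h1 := Nat.le_ceil (4 * (1 + (k : ℝ) + B') / θ)
      have h2 : ((⌈4 * (1 + (k : ℝ) + B') / θ⌉₊ + 1 : ℕ) : ℝ) ≤
          ((max (max M0 1) (⌈4 * (1 + (k : ℝ) + B') / θ⌉₊ + 1) : ℕ) : ℝ) := by
        exact_mod_cast le_max_right _ _
      push_cast at h2 ⊢
      linarith
  set N : ℕ := M ^ (2 * k) with hN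
  have hN1 : 1 ≤ N := Nat.one_le_pow _ _ hM1
  have hNR : (1 : ℝ) ≤ N := by exact_mod_cast hN1
  have hNM : ((M : ℝ) ^ (2 * k)) = N := by rw [hN]; push_cast; rfl
  set δ : ℝ := Real.exp (-(3 * (M : ℝ) ^ (2 * k + 1))) with hδ
  have hδ0 : 0 < δ := Real.exp_pos _
  have hδ1 : δ ≤ 1 := by
    rw [hδ]
    refine Real.exp_le_one_iff.mpr ?_
    have : 0 ≤ (M : ℝ) ^ (2 * k + 1) := by positivity
    linarith
  refine ⟨δ / 2, by positivity, ((finite_polys k N (Real.exp N)).toFinset.filter fun Q => Q ≠ 0),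
    fun Q hQ => (Finset.mem_filter.mp hQ).2, ?_⟩
  intro K _ R P U hUR hU havg p E s hE hs hnear
  have hD := P.D_cast_pos
  set S : P.Pl → ℝ := fun w => ∑ i, ‖P.lv w (U i)‖ with hS
  have hS0 : ∀ w, 0 ≤ S w := fun w => Finset.sum_nonneg fun i _ => norm_nonneg _
  have hSsum : ∑ w, S w ≤ B' * P.D := P.sum_le_of_avg_le (havg.trans hB')
  set good : Finset (Fin P.D) := s.filter fun i => S (.inl i) ≤ lam with hgood
  -- Markov
  have hcard : (P.D : ℝ) * (θ / 2) ≤ good.card := by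
    have h1 : ∑ i ∈ s.filter (fun i : Fin P.D => ¬ S (.inl i) ≤ lam), lam ≤
        ∑ i, S (.inl i) := by
      refine (Finset.sum_le_sum (g := fun i => S (.inl i)) ?_).trans
        (Finset.sum_le_sum_of_subset_of_nonneg (Finset.subset_univ _) fun i _ _ => hS0 _)
      intro i hi
      exact (not_le.mp (Finset.mem_filter.mp hi).2).le
    rw [Finset.sum_const, nsmul_eq_mul] at h1
    have h2 := (h1.trans (P.sum_inl_le hS0)).trans hSsum
    have h3 := Finset.card_filter_add_card_filter_not (s := s)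
      (fun i => S (.inl i) ≤ lam)
    have h4 : ((good.card : ℝ)) + ((s.filter
      (fun i : Fin P.D => ¬ S (.inl i) ≤ lam)).card : ℝ) = s.card := by exact_mod_cast h3
    have hB0 : 0 < B' := by linarith
    have h5 : ((s.filter
      (fun i : Fin P.D => ¬ S (.inl i) ≤ lam)).card : ℝ) ≤ P.D * (θ / 2) := by
      by_contra hcon
      have h6 := mul_lt_mul_of_pos_right (not_le.mp hcon) hlam0
      have h7 : (P.D : ℝ) * (θ / 2) * lam = B' * P.D := by
        calc (P.D : ℝ) * (θ / 2) * lam = (lam * θ) * P.D / 2 := by ring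
          _ = B' * P.D := by rw [hlamθ]; ring
      linarith
    have h8 : θ * (P.D : ℝ) ≤ s.card := hs
    linarith
  -- data for the points `p l`
  have hdata : ∀ l : Fin q, ∃ p' : Fin k → ℝ × ℝ, ‖p'‖ ≤ lam ∧
      ∀ i ∈ good, ∀ e ∈ E l, ‖(fun a => P.lv (.inl i) (U a)) - p l - e‖ ≤ δ / 2 →
        ∃ e' ∈ E l, ‖(fun a => P.lv (.inl i) (U a)) - p' - e'‖ ≤ δ ∧ ‖e'‖ ≤ 2 * lam + 1 := by
    intro l
    have hn : ∀ i ∈ good, ‖(fun a => P.lv (.inl i) (U a))‖ ≤ lam := fun i hi =>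
      (norm_le_sum _).trans (Finset.mem_filter.mp hi).2
    by_cases h : ∃ i ∈ good, ∃ e ∈ E l, ‖(fun a => P.lv (.inl i) (U a)) - p l - e‖ ≤ δ / 2
    · obtain ⟨i0, hi0, e0, he0, h0⟩ := h
      refine ⟨fun a => P.lv (.inl i0) (U a), hn i0 hi0, fun i hi e he hie =>
        ⟨e - e0, (E l).sub_mem he he0, ?_, ?_⟩⟩
      · have h1 : (fun a => P.lv (.inl i) (U a)) - (fun a => P.lv (.inl i0) (U a)) - (e - e0) =
            ((fun a => P.lv (.inl i) (U a)) - p l - e) -
              ((fun a => P.lv (.inl i0) (U a)) - p l - e0) := by abel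
        rw [h1]
        refine (norm_sub_le _ _).trans ?_
        linarith
      · have h1 : e - e0 = (fun a => P.lv (.inl i) (U a)) - (fun a => P.lv (.inl i0) (U a)) -
            (((fun a => P.lv (.inl i) (U a)) - p l - e) -
              ((fun a => P.lv (.inl i0) (U a)) - p l - e0)) := by abel
        rw [h1]
        refine (norm_sub_le _ _).trans ?_
        have h2 := norm_sub_le (fun a => P.lv (.inl i) (U a)) (fun a => P.lv (.inl i0) (U a))
        have h3 := norm_sub_le ((fun a => P.lv (.inl i) (U a)) - p l - e)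
          ((fun a => P.lv (.inl i0) (U a)) - p l - e0)
        have h4 := hn i hi
        have h5 := hn i0 hi0
        linarith
    · refine ⟨0, by rw [norm_zero]; linarith, fun i hi e he hie => absurd ⟨i, hi, e, he, hie⟩ h⟩
  choose p' hp' hp2 using hdata
  choose b hb hb2 using fun l => exists_basis_bdd k (k - 1) (E l) (by have := hE l; omega)
  obtain ⟨Q, hQ0, hQdeg, hQc, hQs⟩ := hM0 M hM p' b (fun l => (hp' l).trans hρ2) hb
  rw [← hN] at hQdeg
  rw [hNM] at hQc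
  have hQmem : Q ∈ ((finite_polys k N (Real.exp N)).toFinset.filter fun Q => Q ≠ 0) :=
    Finset.mem_filter.mpr ⟨(Set.Finite.mem_toFinset _).mpr ⟨hQdeg, hQc⟩, hQ0⟩
  refine ⟨Q, hQmem, ?_⟩
  by_contra hne
  have hpos := P.avg_lg_nonneg (aeval_mem hUR Q) hne
  have hlg := lg_le P (N := N) (C := Real.exp N) (Real.one_le_exp (Nat.cast_nonneg N)) hQdeg hQc U hne
  rw [Real.log_exp] at hlg
  set C : ℝ := k * Real.log (N + 1) + N with hC
  have hlog0 : 0 ≤ Real.log ((N : ℝ) + 1) := Real.log_nonneg (by linarith)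
  have hC0 : 0 ≤ C := by positivity
  have hC1 : C ≤ (k + 1) * N := by
    have h1 : Real.log ((N : ℝ) + 1) ≤ N := by
      have := Real.log_le_sub_one_of_pos (show (0 : ℝ) < N + 1 by positivity)
      linarith
    rw [hC]
    nlinarith
  set τ : ℝ := (M : ℝ) ^ (2 * k + 1) / 2 with hτ
  have hτ0 : 0 ≤ τ := by positivity
  have hsmall : ∀ i ∈ good, P.lg (.inl i) (MvPolynomial.aeval U Q) ≤ -τ := by
    intro i hi
    obtain ⟨l, e, he, hle⟩ := hnear i (Finset.mem_filter.mp hi).1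
    obtain ⟨e', he', h1, h2⟩ := hp2 l i hi e he hle
    obtain ⟨y, hy1, hy2⟩ := hb2 l e' he'
    have hy : ∀ i, |y i| ≤ ρ := fun i => (hy2 i).trans (by
      rw [hρ]
      exact mul_le_mul_of_nonneg_left h2 (by positivity))
    have h3 := hQs l y hy (fun a => P.σ i (U a)) (fun a => ⟨by simpa using (hU a).1, fun h => by
      have h' : P.σ i (U a) = P.σ i 1 := by rw [map_one]; exact h
      exact (hU a).2 ((P.σ i).injective h')⟩) (by
        have h4 : (fun a => (Real.log ‖P.σ i (U a)‖, Real.log ‖1 - P.σ i (U a)‖)) =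
            fun a => P.lv (.inl i) (U a) := by
          funext a
          simp [Places.lv, Places.lg]
        rw [h4, ← hy1]
        exact h1)
    rw [← map_aeval'] at h3
    rw [P.lg_inl]
    have h4 : 0 < ‖P.σ i (MvPolynomial.aeval U Q)‖ := norm_pos_iff.mpr
      ((map_ne_zero (P.σ i)).mpr hne)
    have h5 := Real.log_le_log h4 h3
    rwa [Real.log_exp] at h5
  have hsum : ∑ w, P.lg w (MvPolynomial.aeval U Q) ≤
      ∑ w, (C * P.arch w + N * S w) - ∑ i ∈ good, τ := by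
    have h1 : ∑ i ∈ good, τ = ∑ i : Fin P.D, if i ∈ good then τ else 0 := by
      rw [Finset.sum_ite_mem, Finset.univ_inter]
    rw [h1, Fintype.sum_sum_type, Fintype.sum_sum_type]
    have h2 : ∑ i : Fin P.D, P.lg (.inl i) (MvPolynomial.aeval U Q) ≤
        ∑ i : Fin P.D, (C * P.arch (.inl i) + N * S (.inl i)) -
          ∑ i : Fin P.D, if i ∈ good then τ else 0 := by
      rw [← Finset.sum_sub_distrib]
      refine Finset.sum_le_sum fun i _ => ?_
      by_cases hi : i ∈ good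
      · rw [if_pos hi]
        have h3 := hsmall i hi
        have h4 : 0 ≤ C * P.arch (.inl i) + N * S (.inl i) :=
          add_nonneg (mul_nonneg hC0 (P.arch_nonneg _)) (mul_nonneg (Nat.cast_nonneg _) (hS0 _))
        linarith
      · rw [if_neg hi, sub_zero]
        exact hlg _
    have h3 : ∑ j : Fin P.m, P.lg (.inr j) (MvPolynomial.aeval U Q) ≤
        ∑ j : Fin P.m, (C * P.arch (.inr j) + N * S (.inr j)) :=
      Finset.sum_le_sum fun j _ => hlg _
    linarith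
  have harch : ∑ w, P.arch w = P.D := by
    simp [Places.arch, Fintype.sum_sum_type]
  rw [Finset.sum_add_distrib, ← Finset.mul_sum, ← Finset.mul_sum, harch, Finset.sum_const,
    nsmul_eq_mul] at hsum
  have hpos' : 0 ≤ ∑ w, P.lg w (MvPolynomial.aeval U Q) := by
    have h1 : P.avg (fun w => P.lg w (MvPolynomial.aeval U Q)) * P.D =
        ∑ w, P.lg w (MvPolynomial.aeval U Q) := by
      rw [Places.avg, div_mul_cancel₀ _ hD.ne']
    rw [← h1]
    exact mul_nonneg hpos hD.le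
  have hτN : τ = M * N / 2 := by
    rw [hτ, pow_succ, hNM]
    ring
  have h1 : (N : ℝ) * ∑ w, S w ≤ N * (B' * P.D) := mul_le_mul_of_nonneg_left hSsum (by positivity)
  have h2 : (P.D : ℝ) * (θ / 2) * τ ≤ good.card * τ := mul_le_mul_of_nonneg_right hcard hτ0
  have h3 : C * P.D ≤ (k + 1) * N * P.D := mul_le_mul_of_nonneg_right hC1 hD.le
  have h4 : 0 ≤ ((k : ℝ) + 1) * N * P.D + N * (B' * P.D) - P.D * (θ / 2) * τ := by linarith
  rw [hτN] at h4
  have h5 : ((k : ℝ) + 1) * N * P.D + N * (B' * P.D) - P.D * (θ / 2) * (M * N / 2) =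
      (N * P.D) * ((k + 1 + B') - M * θ / 4) := by ring
  rw [h5] at h4
  have h6 : 0 < (N : ℝ) * P.D := by positivity
  have h7 : (k + 1 + B') - (M : ℝ) * θ / 4 < 0 := by
    have h8 := (div_lt_iff₀ hθ).1 hMB
    linarith
  nlinarith

end Pool.Agent.KP
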