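import Pool.Agent.Lib.MP_c95b3b_ag_KP.Defs
import Pool.Agent.Lib.MP_c95b3b_ag_KP.TFrac

/-! Project KP (MP_c95b3b_ag), module KT: Theorem T for arbitrary finite index types. -/

namespace Pool.Agent.KP

open Pool.Agent.L3 Module

theorem T_main' {ι : Type} [Fintype ι] [Nonempty ι] (q : ℕ) (B : ℝ) : ∃ η : ℝ, 0 < η ∧
    ∃ 𝒬 : Finset (MvPolynomial ι ℤ), (∀ Q ∈ 𝒬, Q ≠ 0) ∧
      ∀ (K : Type) [Field K] (S : Subring K) (P : Places K S) (U : ι → K),
        (∀ i, UU S (U i)) → P.avg (fun w => ‖lvv P U w‖) ≤ B →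
        ∀ (p : Fin q → ι → ℝ × ℝ) (E : Fin q → Submodule ℝ (ι → ℝ × ℝ)) (s : Finset (Fin P.D)),
          (∀ l, finrank ℝ (E l) < Fintype.card ι) → (P.D : ℝ) ≤ 2 * s.card →
          (∀ i ∈ s, ∃ l, ∃ e ∈ E l, ‖lvv P U (.inl i) - p l - e‖ ≤ η) →
          ∃ Q ∈ 𝒬, MvPolynomial.aeval U Q = 0 := by
  classical
  have hk : 1 ≤ Fintype.card ι := Fintype.card_pos
  obtain ⟨η, hη, 𝒬, h𝒬, main⟩ := T_frac (Fintype.card ι) q hk (Fintype.card ι * B) (1 / 2)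
    (by norm_num)
  set r : ι ≃ Fin (Fintype.card ι) := Fintype.equivFin ι with hr
  refine ⟨η, hη, 𝒬.image (MvPolynomial.rename r.symm), ?_, ?_⟩
  · intro Q hQ
    obtain ⟨Q', hQ', rfl⟩ := Finset.mem_image.mp hQ
    intro h0
    apply h𝒬 Q' hQ'
    apply MvPolynomial.rename_injective _ r.symm.injective
    rw [h0, map_zero]
  · intro K _ S P U hU hB p E s hE hs hnear
    have h1 : P.avg (fun w => ∑ a, ‖P.lv w ((U ∘ r.symm) a)‖) ≤ Fintype.card ι * B := by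
      have h2 : P.avg (fun w => ∑ a, ‖P.lv w ((U ∘ r.symm) a)‖)
          ≤ P.avg (fun w => (Fintype.card ι : ℝ) * ‖lvv P U w‖) := by
        apply P.avg_mono
        intro w
        have h3 : ∀ a ∈ (Finset.univ : Finset (Fin (Fintype.card ι))),
            ‖P.lv w ((U ∘ r.symm) a)‖ ≤ ‖lvv P U w‖ := fun a _ =>
          norm_le_pi_norm (lvv P U w) (r.symm a)
        refine (Finset.sum_le_sum h3).trans ?_
        rw [Finset.sum_const, Finset.card_univ, Fintype.card_fin, nsmul_eq_mul]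
      refine h2.trans ?_
      rw [P.avg_mul]
      exact mul_le_mul_of_nonneg_left hB (Nat.cast_nonneg _)
    have h4 : ∀ l, finrank ℝ ((E l).map (LinearEquiv.funCongrLeft ℝ (ℝ × ℝ) r.symm :
        (ι → ℝ × ℝ) →ₗ[ℝ] (Fin (Fintype.card ι) → ℝ × ℝ)) : Submodule ℝ _)
        < Fintype.card ι := fun l =>
      (LinearEquiv.finrank_map_eq (LinearEquiv.funCongrLeft ℝ (ℝ × ℝ) r.symm)
        (E l)).trans_lt (hE l)
    have h5 : (1 / 2 : ℝ) * P.D ≤ s.card := by linarith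
    have h6 : ∀ i ∈ s, ∃ l, ∃ e ∈ (E l).map (LinearEquiv.funCongrLeft ℝ (ℝ × ℝ) r.symm :
        (ι → ℝ × ℝ) →ₗ[ℝ] (Fin (Fintype.card ι) → ℝ × ℝ)),
        ‖(fun a => P.lv (.inl i) ((U ∘ r.symm) a)) - (p l ∘ r.symm) - e‖ ≤ η := by
      intro i hi
      obtain ⟨l, e, he, hle⟩ := hnear i hi
      refine ⟨l, LinearEquiv.funCongrLeft ℝ (ℝ × ℝ) r.symm e,
        Submodule.mem_map_of_mem he, le_trans ?_ hle⟩
      rw [pi_norm_le_iff_of_nonneg (norm_nonneg _)]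
      intro a
      exact norm_le_pi_norm (lvv P U (.inl i) - p l - e) (r.symm a)
    obtain ⟨Q, hQ, hval⟩ := main K S P (U ∘ r.symm) (fun a => (hU _).mem)
      (fun a => ⟨(hU _).ne0, (hU _).ne1⟩) h1 (fun l => p l ∘ r.symm) _ s h4 h5 h6
    refine ⟨MvPolynomial.rename r.symm Q, Finset.mem_image_of_mem _ hQ, ?_⟩
    rw [MvPolynomial.aeval_rename]
    exact hval

end Pool.Agent.KP
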