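import Pool.Agent.Lib.MP_c95b3b_ag_KP.Core
import Pool.Agent.Lib.MP_c95b3b_ag_KP.SetupP

/-! Project KP (MP_c95b3b_ag), module KN: special points over number fields with heights on two
levels. -/

namespace Pool.Agent.KP

open Pool.Agent.L3 Module

/-- elementary comparison of the two kinds of heights -/
theorem compare (B c : ℝ) : ∃ B' : ℝ, ∀ H : ℝ, 0 < H → ∃ H' : ℝ, 0 < H' ∧ ∀ h A : ℝ,
    A ≤ c + 4 * h → h ≤ c + A → (h ≤ B ∨ (H ≤ h ∧ h ≤ B * H)) →
      A ≤ B' ∨ (H' ≤ A ∧ A ≤ B' * H') := by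
  have hc := abs_nonneg c
  have hB := abs_nonneg B
  have hc' := le_abs_self c
  have hB' := le_abs_self B
  refine ⟨3 * |c| + 8 * |B| + 4 * (|B| * (2 * |c| + 2)), fun H hH => ?_⟩
  have hp : 0 ≤ |B| * (2 * |c| + 2) := by positivity
  rcases le_or_gt H (2 * |c| + 2) with h1 | h1
  · refine ⟨1, one_pos, fun h A h2 h3 h4 => Or.inl ?_⟩
    rcases h4 with h4 | ⟨h4, h5⟩
    · linarith
    · have h6 : B * H ≤ |B| * (2 * |c| + 2) := by
        have h7 : B * H ≤ |B| * H := mul_le_mul_of_nonneg_right hB' hH.le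
        exact h7.trans (mul_le_mul_of_nonneg_left h1 hB)
      linarith
  · refine ⟨H / 2, half_pos hH, fun h A h2 h3 h4 => ?_⟩
    rcases h4 with h4 | ⟨h4, h5⟩
    · left
      linarith
    · right
      refine ⟨by linarith, ?_⟩
      have h7 : B * H ≤ |B| * H := mul_le_mul_of_nonneg_right hB' hH.le
      have h8 : |c| ≤ |c| * H := by nlinarith
      have h9 : 0 ≤ |B| * (2 * |c| + 2) * H := by positivity
      have h10 : 0 ≤ |B| * H := by positivity
      nlinarith

theorem two_level_nf (k : ℕ) (K0 : Type) [Field K0] [NumberField K0]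
    (a b : Fin k → K0) (ha : ∀ i, a i ≠ 0) (hb : ∀ i, b i ≠ 0) (B : ℝ) :
    ∃ F : MvPolynomial (Fin k) ℤ, F ≠ 0 ∧
    ∀ (K : Type) [Field K] [NumberField K] [Algebra K0 K] (x y : Fin k → K),
      Special (k + 1) (fun i => algebraMap K0 K (a i)) (fun i => algebraMap K0 K (b i)) x y →
      (∃ H : ℝ, 0 < H ∧ ∀ i, Height.logHeight₁ (x i) ≤ B * finrank ℚ K ∨
        (H * finrank ℚ K ≤ Height.logHeight₁ (x i) ∧
          Height.logHeight₁ (x i) ≤ B * H * finrank ℚ K)) →
      MvPolynomial.aeval (fun i => algebraMap K0 K (a i) * x i) F = 0 := by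
  classical
  rcases Nat.eq_zero_or_pos k with hk | hk
  · -- no points
    refine ⟨1, one_ne_zero, ?_⟩
    intro K _ _ _ x y hsp _
    obtain ⟨_, Λ, hr, _⟩ := hsp
    exfalso
    have : IsEmpty (Fin k) := by rw [hk]; infer_instance
    have h1 : finrank ℤ Λ = 0 := by
      have : Subsingleton Λ := by
        refine ⟨fun u v => Subtype.ext (funext fun i => isEmptyElim i)⟩
      exact Module.finrank_zero_of_subsingleton
    omega
  obtain ⟨c, Γ, _, hset⟩ := setup' k K0 a b ha hb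
  obtain ⟨B', hB'⟩ := compare B c
  obtain ⟨𝒬, h𝒬, hQ⟩ := two_level k B' c Γ
  refine ⟨∏ Q ∈ 𝒬, Q, Finset.prod_ne_zero_iff.mpr h𝒬, ?_⟩
  intro K _ _ _ x y hsp hht
  obtain ⟨R, P, g, E, hU, hg, hgΓ, hE, hmem, hup, hlow⟩ := hset K (k + 1) x y hsp
  obtain ⟨H, hH, hht⟩ := hht
  obtain ⟨H', hH', hcmp⟩ := hB' H hH
  have hn : (0 : ℝ) < finrank ℚ K := by exact_mod_cast finrank_pos
  let d : Dat k B' c Γ :=
    { K := K
      fld := inferInstance
      S := R
      P := P
      U := fun i => algebraMap K0 K (a i) * x i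
      uu := hU
      g := g
      hg := hg
      hgΓ := hgΓ
      E := E
      hE := by omega
      mem := hmem
      H := H'
      hH0 := hH'
      hH := fun i => hcmp (Height.logHeight₁ (x i) / finrank ℚ K) _ (hup i) (hlow i) (by
        rcases hht i with h | ⟨h1, h2⟩
        · left
          rwa [div_le_iff₀ hn]
        · right
          exact ⟨by rwa [le_div_iff₀ hn], by rwa [div_le_iff₀ hn]⟩) }
  obtain ⟨Q, hQm, hQ0⟩ := hQ d
  rw [map_prod]
  exact Finset.prod_eq_zero hQm hQ0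

end Pool.Agent.KP
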